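import Pool.Agent.H315.SAW.Growth

/-!
Confinement probabilities.
-/

set_option autoImplicit false

namespace Pool.Agent.H315.SAW

open Pool.Agent.TH795.EP Pool.Agent.TH795.EP2 Pool.Agent.Y981.L2 H981 Finset Filter Topology

theorem log_sq_le {x : ℝ} (hx : 1 ≤ x) : Real.log x ^ 2 ≤ 4 * x := by
  have h0 : 0 ≤ Real.log x := Real.log_nonneg hx
  have h1 : Real.log x = 2 * Real.log (Real.sqrt x) := by
    rw [Real.log_sqrt (by linarith)]
    ring
  have h2 : Real.log (Real.sqrt x) ≤ Real.sqrt x - 1 :=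
    Real.log_le_sub_one_of_pos (Real.sqrt_pos.2 (by linarith))
  have h3 : Real.log x ≤ 2 * Real.sqrt x := by linarith
  calc Real.log x ^ 2 ≤ (2 * Real.sqrt x) ^ 2 := pow_le_pow_left₀ h0 h3 2
    _ = 4 * x := by rw [mul_pow, Real.sq_sqrt (by linarith)]; norm_num

theorem P_lower : ∃ K : ℝ, 0 < K ∧ ∀ m : ℕ, 2 ≤ m → ∀ h : ℕ, K * Real.log m ^ 2 / ms m ≤ h →
    ∀ n : ℕ, Real.exp (-(K * (1 + (n : ℝ) / m) * Real.log m ^ 2)) ≤ (S h n : ℝ) / c n := by
  obtain ⟨K1, hK1, hlow⟩ := S_lower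
  obtain ⟨K2, hK2, hup, -, -⟩ := exists_C
  have hl2 : 0 < Real.log 2 := Real.log_pos (by norm_num)
  refine ⟨K1 + K2 * (8 / Real.log 2 ^ 2 + 2), by positivity, ?_⟩
  intro m hm h hh n
  have hmu := mu_pos
  have hM := ms_pos hm
  obtain ⟨L, hL⟩ : ∃ L, L = Real.log (m : ℝ) ^ 2 := ⟨_, rfl⟩
  have hL0 : 0 < L := by rw [hL]; exact pow_pos (log_pos' hm) 2
  have hLl : Real.log 2 ^ 2 ≤ L := by
    rw [hL]; exact pow_le_pow_left₀ hl2.le (log_ge hm) 2
  have hm0 : (0 : ℝ) < m := by exact_mod_cast (by omega : 0 < m)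
  have h1 := hlow m hm h (le_trans (by
    apply div_le_div_of_nonneg_right _ hM.le
    rw [← hL]
    have : 0 ≤ K2 * (8 / Real.log 2 ^ 2 + 2) := by positivity
    nlinarith) hh) n
  have h2 := hup (max n m) (le_max_of_le_right hm) n (le_max_left _ _)
  have hc := c_pos n
  have hk : ((n / m : ℕ) : ℝ) ≤ (n : ℝ) / m := Nat.cast_div_le
  have hk0 : (0 : ℝ) ≤ ((n / m : ℕ) : ℝ) := Nat.cast_nonneg _
  have hN : ((max n m : ℕ) : ℝ) ≤ (((n / m : ℕ) : ℝ) + 1) * m := by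
    have h3 : max n m ≤ (n / m + 1) * m := by
      apply max_le
      · have := Nat.lt_mul_div_succ n (show 0 < m by omega)
        rw [mul_comm]
        exact this.le
      · exact Nat.le_mul_of_pos_left m (Nat.succ_pos _)
    exact_mod_cast h3
  have hN1 : (1 : ℝ) ≤ ((max n m : ℕ) : ℝ) := by
    exact_mod_cast le_max_of_le_right (by omega : 1 ≤ m)
  have hlogN : Real.log ((max n m : ℕ) : ℝ) ^ 2 ≤
      (8 / Real.log 2 ^ 2 + 2) * (((n / m : ℕ) : ℝ) + 1) * L := by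
    have h3 : Real.log ((max n m : ℕ) : ℝ) ≤ Real.log (((n / m : ℕ) : ℝ) + 1) + Real.log m := by
      have := Real.log_le_log (by linarith) hN
      rwa [Real.log_mul (by linarith) hm0.ne'] at this
    have h4 : Real.log (((n / m : ℕ) : ℝ) + 1) ^ 2 ≤ 4 * (((n / m : ℕ) : ℝ) + 1) :=
      log_sq_le (by linarith)
    have h5 : Real.log ((max n m : ℕ) : ℝ) ^ 2 ≤
        (Real.log (((n / m : ℕ) : ℝ) + 1) + Real.log m) ^ 2 :=
      pow_le_pow_left₀ (Real.log_nonneg hN1) h3 2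
    have h6 : (Real.log (((n / m : ℕ) : ℝ) + 1) + Real.log m) ^ 2 ≤
        2 * Real.log (((n / m : ℕ) : ℝ) + 1) ^ 2 + 2 * L := by
      rw [hL]
      nlinarith [sq_nonneg (Real.log (((n / m : ℕ) : ℝ) + 1) - Real.log m)]
    have h7 : 1 ≤ 1 / Real.log 2 ^ 2 * L := by
      rw [one_div, ← div_eq_inv_mul, le_div_iff₀ (by positivity), one_mul]
      exact hLl
    have h8 : 8 * (((n / m : ℕ) : ℝ) + 1) ≤ 8 * (((n / m : ℕ) : ℝ) + 1) * (1 / Real.log 2 ^ 2 * L) :=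
      le_mul_of_one_le_right (by positivity) h7
    have h9 : 2 * L ≤ 2 * (((n / m : ℕ) : ℝ) + 1) * L := by nlinarith [mul_nonneg hk0 hL0.le]
    calc Real.log ((max n m : ℕ) : ℝ) ^ 2 ≤ 8 * (((n / m : ℕ) : ℝ) + 1) + 2 * L := by linarith
      _ ≤ 8 * (((n / m : ℕ) : ℝ) + 1) * (1 / Real.log 2 ^ 2 * L) +
          2 * (((n / m : ℕ) : ℝ) + 1) * L := by linarith
      _ = _ := by ring
  rw [le_div_iff₀ hc]
  calc Real.exp (-((K1 + K2 * (8 / Real.log 2 ^ 2 + 2)) * (1 + (n : ℝ) / m) * Real.log m ^ 2)) * c n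
      ≤ Real.exp (-((K1 + K2 * (8 / Real.log 2 ^ 2 + 2)) * (((n / m : ℕ) : ℝ) + 1) * L)) *
        (mu ^ n * Real.exp (K2 * ((8 / Real.log 2 ^ 2 + 2) * (((n / m : ℕ) : ℝ) + 1) * L))) := by
        apply mul_le_mul _ _ hc.le (Real.exp_pos _).le
        · apply Real.exp_le_exp.2
          rw [← hL]
          apply neg_le_neg
          apply mul_le_mul_of_nonneg_right _ hL0.le
          apply mul_le_mul_of_nonneg_left _ (by positivity)
          linarith
        · refine h2.trans (mul_le_mul_of_nonneg_left ?_ (pow_nonneg hmu.le _))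
          unfold q
          apply Real.exp_le_exp.2
          exact mul_le_mul_of_nonneg_left hlogN hK2
    _ = mu ^ n * Real.exp (-(K1 * (((n / m : ℕ) : ℝ) + 1) * L)) := by
        have e : Real.exp (-(K1 * (((n / m : ℕ) : ℝ) + 1) * L)) =
          Real.exp (-((K1 + K2 * (8 / Real.log 2 ^ 2 + 2)) * (((n / m : ℕ) : ℝ) + 1) * L)) *
          Real.exp (K2 * ((8 / Real.log 2 ^ 2 + 2) * (((n / m : ℕ) : ℝ) + 1) * L)) := by
            rw [← Real.exp_add]; congr 1; ring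
        rw [e]
        ring
    _ ≤ _ := by
        rw [hL]
        exact h1

theorem P_upper : ∃ K : ℝ, 0 < K ∧ ∀ m : ℕ, 2 ≤ m → ∀ h : ℕ,
    K * ((h : ℝ) + 1) * Real.log m ^ 2 / ms m ≤ m →
    ∀ n : ℕ, (S h n : ℝ) / c n ≤ Real.exp ((K - (n : ℝ) / m) * Real.log m ^ 2) := by
  obtain ⟨K, hK, hup⟩ := S_upper
  refine ⟨K + 1, by positivity, ?_⟩
  intro m hm h hh n
  have hmu := mu_pos
  have hM := ms_pos hm
  have hm0 : (0 : ℝ) < m := by exact_mod_cast (by omega : 0 < m)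
  have hL0 : 0 < Real.log (m : ℝ) ^ 2 := pow_pos (log_pos' hm) 2
  have hh0 : (0 : ℝ) ≤ h := Nat.cast_nonneg h
  have h1 := hup m hm h (le_trans (by
    apply div_le_div_of_nonneg_right _ hM.le
    apply mul_le_mul_of_nonneg_right _ hL0.le
    nlinarith) hh) n
  have hc := c_pos n
  have h2 : mu ^ n ≤ c n := by
    rw [c_eq]
    exact mu_pow_le n
  rw [div_le_iff₀ hc]
  have hk : (n : ℝ) / m - 1 ≤ ((n / m : ℕ) : ℝ) := by
    have h3 : (n : ℝ) < m * (((n / m : ℕ) : ℝ) + 1) := by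
      exact_mod_cast Nat.lt_mul_div_succ n (by omega)
    have h4 : (n : ℝ) / m < ((n / m : ℕ) : ℝ) + 1 := by
      rw [div_lt_iff₀ hm0]
      linarith
    linarith
  calc (S h n : ℝ) ≤ mu ^ n * Real.exp ((K - ((n / m : ℕ) : ℝ)) * Real.log m ^ 2) := h1
    _ ≤ c n * Real.exp ((K + 1 - (n : ℝ) / m) * Real.log m ^ 2) := by
        apply mul_le_mul h2 _ (Real.exp_pos _).le hc.le
        apply Real.exp_le_exp.2
        apply mul_le_mul_of_nonneg_right _ hL0.le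
        linarith
    _ = _ := by ring

end Pool.Agent.H315.SAW
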