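import Pool.Agent.H315.SAW.Dia

/-!
Substitution of diamond words for the steps of a self-avoiding word.
-/

set_option autoImplicit false

namespace Pool.Agent.H315.SAW

open Finset
open Pool.Agent.H122R3.SX (W c fs mem_fs Saw pos X st pm pos_append pos_map X_append X_nil
  prefix_append_cases infix_append_cases exists_of_inf_map exists_of_pre_map pm_inj pos_cons pos_nil)

/-- the symmetry which maps the upward direction to the direction `l` -/
def tf (l : Fin 4) (a : Fin 4) : Fin 4 :=
  if l = 0 then a else if l = 1 then pm 1 a else if l = 2 then pm 2 a else pm 4 (pm 2 a)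

theorem tf_inj (l : Fin 4) : Function.Injective (tf l) := by
  revert l
  decide

theorem st_tf (l a : Fin 4) (i : Fin 2) :
    st (tf l a) i = st l i * st a 0 + (1 - |st l i|) * st a 1 := by
  revert l a i
  decide

/-- a word turned to the direction `l` -/
def tu (l : Fin 4) (w : W) : W := w.map (tf l)

theorem pos_tu (l : Fin 4) (w : W) (i : Fin 2) :
    pos (tu l w) i = st l i * pos w 0 + (1 - |st l i|) * pos w 1 := by
  induction w with
  | nil => simp [tu]
  | cons a w ih =>
    have e : tu l (a :: w) = tf l a :: tu l w := rfl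
    rw [e, pos_cons, ih, st_tf, pos_cons, pos_cons]
    ring

theorem tu_inj (l : Fin 4) : Function.Injective (tu l) := List.map_injective_iff.2 (tf_inj l)

theorem tu_len (l : Fin 4) (w : W) : (tu l w).length = w.length := List.length_map _

/-- the values of the step vectors -/
theorem st_cases (l : Fin 4) : (st l 0 = 1 ∧ st l 1 = 0) ∨ (st l 0 = -1 ∧ st l 1 = 0) ∨
    (st l 0 = 0 ∧ st l 1 = 1) ∨ (st l 0 = 0 ∧ st l 1 = -1) := by
  revert l
  decide

theorem tu_saw {w : W} (h : Saw w) (l : Fin 4) : Saw (tu l w) := by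
  intro v hv h0
  obtain ⟨v', hv', rfl⟩ := exists_of_inf_map hv
  by_contra hcon
  push Not at hcon
  obtain ⟨i, hi⟩ := h v' hv' (by simpa using h0)
  have h1 := hcon 0
  have h2 := hcon 1
  change pos (tu l v') 0 = 0 at h1
  change pos (tu l v') 1 = 0 at h2
  rw [pos_tu] at h1 h2
  have key : pos v' 0 = 0 ∧ pos v' 1 = 0 := by
    rcases st_cases l with ⟨a, b⟩ | ⟨a, b⟩ | ⟨a, b⟩ | ⟨a, b⟩ <;> rw [a] at h1 <;> rw [b] at h2 <;>
      norm_num at h1 h2 <;> constructor <;> omega
  fin_cases i
  · exact hi key.1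
  · exact hi key.2

/-- the point `z` is in the open diamond of the coarse edge from `A` in the direction `l` -/
def InE (D : ℤ) (A : Fin 2 → ℤ) (l : Fin 4) (z : Fin 2 → ℤ) : Prop :=
  |2 * (z 0 + z 1) - D * (2 * (A 0 + A 1) + (st l 0 + st l 1))| < D ∧
  |2 * (z 0 - z 1) - D * (2 * (A 0 - A 1) + (st l 0 - st l 1))| < D

theorem InE.of {D : ℤ} {A : Fin 2 → ℤ} {l : Fin 4} {v : W} (h1 : |X v| < pos v 0)
    (h2 : |X v| < D - pos v 0) : InE D A l (fun i => D * A i + pos (tu l v) i) := by
  unfold InE
  simp only [pos_tu]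
  have e : X v = pos v 1 := rfl
  rw [e] at h1 h2
  rw [abs_lt] at h1 h2
  rcases st_cases l with ⟨a, b⟩ | ⟨a, b⟩ | ⟨a, b⟩ | ⟨a, b⟩ <;> rw [a, b] <;> norm_num <;>
    constructor <;> rw [abs_lt] <;> constructor <;> nlinarith

theorem eq_zero_of_lt {D y : ℤ} (hD : 0 < D) (h : |D * y| < D) : y = 0 := by
  by_contra hy
  rw [abs_mul, abs_of_pos hD] at h
  have := Int.one_le_abs hy
  nlinarith

theorem InE.not_mult {D : ℤ} (hD : 0 < D) {A B z : Fin 2 → ℤ} {l : Fin 4} (h : InE D A l z)
    (hz : ∀ i, z i = D * B i) : False := by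
  obtain ⟨h1, -⟩ := h
  rw [hz 0, hz 1] at h1
  have e : 2 * (D * B 0 + D * B 1) - D * (2 * (A 0 + A 1) + (st l 0 + st l 1)) =
      D * (2 * (B 0 + B 1 - A 0 - A 1) - (st l 0 + st l 1)) := by ring
  rw [e] at h1
  have h2 := eq_zero_of_lt hD h1
  rcases st_cases l with ⟨a, b⟩ | ⟨a, b⟩ | ⟨a, b⟩ | ⟨a, b⟩ <;> rw [a, b] at h2 <;> omega

/-- two edges with a common point in their open diamonds -/
theorem InE.unique {D : ℤ} (hD : 0 < D) {A B z : Fin 2 → ℤ} {l l' : Fin 4} (h : InE D A l z)
    (h' : InE D B l' z) : (∀ i, B i + st l' i = A i) ∨ (∀ i, B i + st l' i = A i + st l i) := by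
  obtain ⟨h1, h2⟩ := h
  obtain ⟨h3, h4⟩ := h'
  have key : ∀ (y a b : ℤ), |y - D * a| < D → |y - D * b| < D → (∃ k, a - b = 2 * k) → a = b := by
    intro y a b ha hb ⟨k, hk⟩
    have h5 : |D * k| < D := by
      rw [abs_lt] at *
      have e : D * a - D * b = 2 * (D * k) := by
        rw [← mul_sub, hk]; ring
      constructor <;> omega
    have := eq_zero_of_lt hD h5
    omega
  have e1 := key _ _ _ h1 h3 (by
    rcases st_cases l with ⟨a, b⟩ | ⟨a, b⟩ | ⟨a, b⟩ | ⟨a, b⟩ <;>
      rcases st_cases l' with ⟨a', b'⟩ | ⟨a', b'⟩ | ⟨a', b'⟩ | ⟨a', b'⟩ <;> rw [a, b, a', b'] <;>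
      first
        | exact ⟨A 0 + A 1 - (B 0 + B 1), by omega⟩
        | exact ⟨A 0 + A 1 - (B 0 + B 1) + 1, by omega⟩
        | exact ⟨A 0 + A 1 - (B 0 + B 1) - 1, by omega⟩)
  have e2 := key _ _ _ h2 h4 (by
    rcases st_cases l with ⟨a, b⟩ | ⟨a, b⟩ | ⟨a, b⟩ | ⟨a, b⟩ <;>
      rcases st_cases l' with ⟨a', b'⟩ | ⟨a', b'⟩ | ⟨a', b'⟩ | ⟨a', b'⟩ <;> rw [a, b, a', b'] <;>
      first
        | exact ⟨A 0 - A 1 - (B 0 - B 1), by omega⟩
        | exact ⟨A 0 - A 1 - (B 0 - B 1) + 1, by omega⟩
        | exact ⟨A 0 - A 1 - (B 0 - B 1) - 1, by omega⟩)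
  have hfin : (B 0 + st l' 0 = A 0 ∧ B 1 + st l' 1 = A 1) ∨
      (B 0 + st l' 0 = A 0 + st l 0 ∧ B 1 + st l' 1 = A 1 + st l 1) := by
    rcases st_cases l with ⟨a, b⟩ | ⟨a, b⟩ | ⟨a, b⟩ | ⟨a, b⟩ <;>
      rcases st_cases l' with ⟨a', b'⟩ | ⟨a', b'⟩ | ⟨a', b'⟩ | ⟨a', b'⟩ <;>
      rw [a, b, a', b'] at e1 e2 <;> rw [a, b, a', b'] <;> omega
  rcases hfin with ⟨f1, f2⟩ | ⟨f1, f2⟩
  · left
    intro i
    fin_cases i
    · exact f1
    · exact f2
  · right
    intro i
    fin_cases i
    · exact f1
    · exact f2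

theorem ne_of_prefix {γ u : W} {l : Fin 4} (h : Saw (γ ++ [l])) (hu : u <+: γ) :
    ¬ ∀ i, pos u i = pos (γ ++ [l]) i := by
  intro hcon
  obtain ⟨t, rfl⟩ := hu
  have h1 : t ++ [l] <:+: u ++ t ++ [l] := by
    rw [List.append_assoc]
    exact (List.suffix_append _ _).isInfix
  obtain ⟨i, hi⟩ := h (t ++ [l]) h1 (by simp)
  have h2 := hcon i
  rw [List.append_assoc, pos_append] at h2
  omega

/-- location of a point of the substituted word -/
def Loc (D : ℤ) (M : ℕ) (γ v : W) : Prop :=
  (∃ u, u <+: γ ∧ v.length = M * u.length ∧ ∀ i, pos v i = D * pos u i) ∨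
  ∃ u l, (u ++ [l]) <+: γ ∧ M * u.length < v.length ∧ v.length < M * (u.length + 1) ∧
    InE D (pos u) l (pos v)

/-- `w` follows the coarse word `γ` -/
structure Fol (D : ℤ) (M : ℕ) (γ w : W) : Prop where
  saw : Saw w
  len : w.length = M * γ.length
  fin : ∀ i, pos w i = D * pos γ i
  loc : ∀ v, v <+: w → Loc D M γ v

theorem Loc.mono {D : ℤ} {M : ℕ} {γ γ' v : W} (h : Loc D M γ v) (hg : γ <+: γ') : Loc D M γ' v := by
  rcases h with ⟨u, h1, h2, h3⟩ | ⟨u, l, h1, h2, h3, h4⟩
  · exact Or.inl ⟨u, h1.trans hg, h2, h3⟩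
  · exact Or.inr ⟨u, l, h1.trans hg, h2, h3, h4⟩

theorem Fol.nil (D : ℤ) (M : ℕ) : Fol D M [] [] := by
  refine ⟨?_, by simp, by simp, ?_⟩
  · intro v hv h0
    exact absurd (List.infix_nil.1 hv) h0
  · intro v hv
    rw [List.prefix_nil.1 hv]
    exact Or.inl ⟨[], List.prefix_refl _, by simp, by simp⟩

theorem Fol.step {D : ℤ} {M : ℕ} (hD : 0 < D) (hM : 0 < M) {γ Ω w : W} {l : Fin 4}
    (h : Fol D M γ Ω) (hs : Saw (γ ++ [l])) (hw : Dm D w) (hwl : w.length = M) :
    Fol D M (γ ++ [l]) (Ω ++ tu l w) := by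
  have hwX : pos w 1 = 0 := hw.hor
  have hend : ∀ i, pos (tu l w) i = D * st l i := by
    intro i
    rw [pos_tu, hw.top, hwX]
    ring
  have hgl : ∀ i, pos (γ ++ [l]) i = pos γ i + st l i := by
    intro i
    rw [pos_append]
    simp
  have hin : ∀ v', v' <+: w → v' ≠ [] → v' ≠ w →
      InE D (pos γ) l (fun i => D * pos γ i + pos (tu l v') i) := by
    intro v' hv' h0 h1
    obtain ⟨a, b⟩ := hw.mid v' hv' h0 h1
    exact InE.of a b
  refine ⟨?_, ?_, ?_, ?_⟩
  · intro v hv h0
    rcases infix_append_cases hv with h1 | h1 | ⟨s, p, hs0, hp0, ⟨q, hq⟩, hp, rfl⟩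
    · exact h.saw v h1 h0
    · exact tu_saw hw.saw l v h1 h0
    · by_contra hcon
      push Not at hcon
      obtain ⟨v', hv', rfl⟩ := exists_of_pre_map hp
      have hv0 : v' ≠ [] := by
        intro e
        apply hp0
        rw [e]
        rfl
      have hz : ∀ i, pos q i = D * pos γ i + pos (tu l v') i := by
        intro i
        have h2 := hcon i
        rw [pos_append] at h2
        have h3 := h.fin i
        rw [← hq, pos_append] at h3
        change pos s i + pos (tu l v') i = 0 at h2
        linarith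
      have hlq : q.length < M * γ.length := by
        have h4 := h.len
        rw [← hq, List.length_append] at h4
        have := List.length_pos_of_ne_nil hs0
        omega
      by_cases hvw : v' = w
      · subst hvw
        have hz' : ∀ i, pos q i = D * pos (γ ++ [l]) i := by
          intro i
          rw [hz i, hend, hgl]
          ring
        rcases h.loc q ⟨s, hq⟩ with ⟨u, h1, h2, h3⟩ | ⟨u, l1, h1, h2, h3, h4⟩
        · apply ne_of_prefix hs h1
          intro i
          have h4 := hz' i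
          rw [h3 i] at h4
          exact mul_left_cancel₀ hD.ne' h4
        · exact h4.not_mult hD hz'
      · have h5 := hin v' hv' hv0 hvw
        have hz2 : (fun i => D * pos γ i + pos (tu l v') i) = pos q := by
          funext i
          exact (hz i).symm
        rw [hz2] at h5
        rcases h.loc q ⟨s, hq⟩ with ⟨u, h1, h2, h3⟩ | ⟨u, l1, h1, h2, h3, h4⟩
        · exact h5.not_mult hD h3
        · rcases h4.unique hD h5 with h6 | h6
          · apply ne_of_prefix hs ((List.prefix_append u [l1]).trans h1)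
            intro i
            rw [hgl, h6 i]
          · apply ne_of_prefix hs h1
            intro i
            rw [hgl, h6 i, pos_append]
            simp
  · rw [List.length_append, tu_len, h.len, hwl, List.length_append]
    simp
    ring
  · intro i
    rw [pos_append, hend, h.fin, hgl]
    ring
  · intro v hv
    rcases prefix_append_cases hv with h1 | ⟨p, rfl, hp⟩
    · exact (h.loc v h1).mono (List.prefix_append _ _)
    · obtain ⟨v', hv', rfl⟩ := exists_of_pre_map hp
      change Loc D M (γ ++ [l]) (Ω ++ tu l v')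
      by_cases hv0 : v' = []
      · rw [hv0]
        have e : tu l [] = [] := rfl
        rw [e, List.append_nil]
        exact Or.inl ⟨γ, List.prefix_append _ _, h.len, h.fin⟩
      · by_cases hvw : v' = w
        · rw [hvw]
          refine Or.inl ⟨γ ++ [l], List.prefix_refl _, ?_, ?_⟩
          · rw [List.length_append, tu_len, h.len, hwl, List.length_append]
            simp
            ring
          · intro i
            rw [pos_append, hend, h.fin, hgl]
            ring
        · have hl1 : v'.length < M := by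
            rw [← hwl]
            obtain ⟨t, ht⟩ := hv'
            have ht0 : t ≠ [] := by
              intro e
              apply hvw
              rw [← ht, e, List.append_nil]
            have := List.length_pos_of_ne_nil ht0
            rw [← ht, List.length_append]
            omega
          have hl0 := List.length_pos_of_ne_nil hv0
          refine Or.inr ⟨γ, l, List.prefix_refl _, ?_, ?_, ?_⟩
          · rw [List.length_append, tu_len, h.len]
            omega
          · rw [List.length_append, tu_len, h.len, mul_add, mul_one]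
            omega
          · have h5 := hin v' hv' hv0 hvw
            have e : pos (Ω ++ tu l v') = (fun i => D * pos γ i + pos (tu l v') i) := by
              funext i
              rw [pos_append, h.fin]
            rw [e]
            exact h5

/-- number of the words which follow `γ` -/
noncomputable def fo (D : ℤ) (M : ℕ) (γ : W) : ℕ := (fs (Fol D M γ) (M * γ.length)).card

theorem fo_step {D : ℤ} {M : ℕ} (hD : 0 < D) (hM : 0 < M) {γ : W} {l : Fin 4}
    (hs : Saw (γ ++ [l])) : fo D M γ * dm D M ≤ fo D M (γ ++ [l]) := by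
  classical
  unfold fo dm
  rw [← card_product]
  apply card_le_card_of_injOn (fun p => p.1 ++ tu l p.2)
  · rintro ⟨a, b⟩ hp
    rw [coe_product, Set.mem_prod, mem_coe, mem_coe, mem_fs, mem_fs] at hp
    rw [mem_coe, mem_fs]
    have := hp.1.1.step hD hM hs hp.2.1 hp.2.2
    exact ⟨this, this.len⟩
  · rintro ⟨a, b⟩ hp ⟨a', b'⟩ hp' h
    rw [coe_product, Set.mem_prod, mem_coe, mem_coe, mem_fs, mem_fs] at hp hp'
    have h1 := List.append_inj h (by rw [hp.1.2, hp'.1.2])
    exact Prod.ext h1.1 (tu_inj l h1.2)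

theorem fo_ge {D : ℤ} {M : ℕ} (hD : 0 < D) (hM : 0 < M) (γ : W) (hs : Saw γ) :
    dm D M ^ γ.length ≤ fo D M γ := by
  induction γ using List.reverseRecOn with
  | nil =>
    simp only [List.length_nil, pow_zero]
    unfold fo
    rw [Nat.one_le_iff_ne_zero, Ne, Finset.card_eq_zero]
    intro he
    have : [] ∈ fs (Fol D M []) (M * ([] : W).length) := by
      rw [mem_fs]
      exact ⟨Fol.nil D M, by simp⟩
    rw [he] at this
    simp at this
  | append_singleton γ l ih =>
    have h1 := ih (hs.inf (List.prefix_append _ _).isInfix)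
    rw [List.length_append, List.length_singleton, pow_succ]
    exact (Nat.mul_le_mul_right _ h1).trans (fo_step hD hM hs)

end Pool.Agent.H315.SAW
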