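import Pool.Agent.H315.SAW.Bounds
import Pool.Agent.H315.SAW.Subst
import Pool.Agent.V11237.SXT.Wedge

/-!
Many diamond words.
-/

set_option autoImplicit false

namespace Pool.Agent.H315.SAW

open Pool.Agent.TH795.EP Pool.Agent.TH795.EP2 Pool.Agent.Y981.L2 H981 Finset Filter Topology

/-- many bridges which are not wide -/
theorem notwide_many : ∃ K : ℝ, 0 ≤ K ∧ ∀ m : ℕ, 2 ≤ m → ∀ R : ℕ,
    K * Real.log m ^ 2 / ms m ≤ R →
    mu ^ m * q m (-K) ≤ ((fs (fun w => IsB w ∧ ¬ Wide (R : ℝ) w) m).card : ℝ) := by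
  classical
  obtain ⟨K, hK, hup, hlow, hwide⟩ := exists_C
  refine ⟨4 * (4 * K + 6) + 1, by positivity, ?_⟩
  intro m hm R hR
  have hmu := mu_pos
  have hM := ms_pos hm
  obtain ⟨L, hL⟩ : ∃ L, L = Real.log (m : ℝ) ^ 2 := ⟨_, rfl⟩
  have hL0 : 0 < L := by rw [hL]; exact pow_pos (log_pos' hm) 2
  obtain ⟨r, hr⟩ : ∃ r, r = 4 * (4 * K + 6) * L / ms m := ⟨_, rfl⟩
  have hr0 : 0 < r := by rw [hr]; positivity
  have e1 : Real.exp (-(r * Y981.L2.mass (1 / m) / 4)) = q m (-(4 * K + 6)) := by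
    unfold q
    congr 1
    change -(r * ms m / 4) = _
    rw [hr, ← hL]
    field_simp
  have h1 := wide_bridges (le_refl m) r
  have h2 := hwide m hm r hr0.le
  rw [e1, q_mul] at h2
  have hcm := c_pos m
  have h3 : ((fs (fun w => Saw w ∧ Wide r w) m).card : ℝ) ≤ mu ^ m * q m (-(2 * K + 6)) := by
    have h4 : ((fs (fun w => Saw w ∧ Wide r w) m).card : ℝ) = dfar m r * c m := by
      unfold dfar
      rw [div_mul_cancel₀ _ hcm.ne']
    rw [h4]
    calc dfar m r * c m ≤ q m (K + -(4 * K + 6)) * (mu ^ m * q m K) :=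
          mul_le_mul h2 (hup m hm m le_rfl) hcm.le (q_pos _ _).le
      _ = mu ^ m * (q m (K + -(4 * K + 6)) * q m K) := by ring
      _ = _ := by rw [q_mul]; congr 2; ring
  have h5 : ((fs (fun w => IsB w ∧ Wide r w) m).card : ℝ) * bw (m - m) ≤
      mu ^ m * q m (-(2 * K + 6)) := le_trans (by exact_mod_cast h1) h3
  have h6 := hlow m hm (m - m) (by omega)
  have h7 : ((fs (fun w => IsB w ∧ Wide r w) m).card : ℝ) ≤ mu ^ m * q m (-(K + 6)) := by
    have hp : 0 < mu ^ (m - m) * q m (-K) := mul_pos (pow_pos hmu _) (q_pos _ _)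
    have h8 : ((fs (fun w => IsB w ∧ Wide r w) m).card : ℝ) * (mu ^ (m - m) * q m (-K)) ≤
        (mu ^ m * q m (-(K + 6))) * (mu ^ (m - m) * q m (-K)) := by
      calc ((fs (fun w => IsB w ∧ Wide r w) m).card : ℝ) * (mu ^ (m - m) * q m (-K))
          ≤ ((fs (fun w => IsB w ∧ Wide r w) m).card : ℝ) * bw (m - m) :=
            mul_le_mul_of_nonneg_left h6 (Nat.cast_nonneg _)
        _ ≤ mu ^ m * q m (-(2 * K + 6)) := h5
        _ = (mu ^ m * mu ^ (m - m)) * (q m (-(K + 6)) * q m (-K)) := by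
            rw [q_mul, ← pow_add, show m + (m - m) = m by omega]
            congr 2
            ring
        _ = _ := by ring
    exact le_of_mul_le_mul_right h8 hp
  have h8 := hlow m hm m le_rfl
  have hrR : r ≤ R := by
    refine le_trans ?_ hR
    rw [hr, hL]
    apply div_le_div_of_nonneg_right _ hM.le
    rw [← hL]
    nlinarith
  have h10 : (bw m : ℝ) ≤ (fs (fun w => IsB w ∧ Wide r w) m).card +
      (fs (fun w => IsB w ∧ ¬ Wide (R : ℝ) w) m).card := by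
    have : bw m ≤ (fs (fun w => IsB w ∧ Wide r w) m).card +
        (fs (fun w => IsB w ∧ ¬ Wide (R : ℝ) w) m).card := by
      unfold bw
      refine le_trans (Finset.card_le_card ?_) (Finset.card_union_le _ _)
      intro w hw
      rw [mem_fs] at hw
      rw [Finset.mem_union, mem_fs, mem_fs]
      by_cases h : Wide r w
      · exact Or.inl ⟨⟨hw.1, h⟩, hw.2⟩
      · refine Or.inr ⟨⟨hw.1, ?_⟩, hw.2⟩
        rintro ⟨i, j, hij, hj, hh⟩
        exact h ⟨i, j, hij, hj, hrR.trans hh⟩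
    exact_mod_cast this
  have e2 : q m (-(K + 6)) = q m (-K) * q m (-3) * q m (-3) := by
    rw [q_mul, q_mul]; congr 1; ring
  have h13 : q m (-3) ≤ 1 / 2 := by
    have := q_two hm
    have e : q m 3 * q m (-3) = 1 := by rw [q_mul, add_neg_cancel, q_zero]
    have h0 := q_pos m (-3)
    nlinarith
  have h14 : q m (-(4 * (4 * K + 6) + 1)) ≤ q m (-K) * q m (-3) := by
    rw [q_mul]
    exact q_mono hm (by linarith)
  have hj0 : 0 < mu ^ m := pow_pos hmu m
  have hq0 := q_pos m (-K)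
  have hq3 := q_pos m (-3)
  have h15 : mu ^ m * q m (-(K + 6)) ≤ mu ^ m * q m (-K) * (1 / 4) := by
    have e3 : mu ^ m * q m (-(K + 6)) = mu ^ m * q m (-K) * (q m (-3) * q m (-3)) := by
      rw [e2]; ring
    rw [e3]
    apply mul_le_mul_of_nonneg_left _ (mul_pos hj0 hq0).le
    nlinarith
  have h16 : mu ^ m * q m (-(4 * (4 * K + 6) + 1)) ≤ mu ^ m * q m (-K) * (1 / 2) := by
    calc mu ^ m * q m (-(4 * (4 * K + 6) + 1)) ≤ mu ^ m * (q m (-K) * q m (-3)) :=
          mul_le_mul_of_nonneg_left h14 hj0.le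
      _ ≤ mu ^ m * (q m (-K) * (1 / 2)) := by gcongr
      _ = _ := by ring
  have h17 : 0 < mu ^ m * q m (-K) := mul_pos hj0 hq0
  linarith

/-! ### words over the other alphabet -/

/-- conversion of the letters -/
def cv (s : St) : Fin 4 := match s with
  | .E => 0
  | .W => 1
  | .N => 2
  | .S => 3

theorem cv_inj : Function.Injective cv := by
  intro a b h
  cases a <;> cases b <;> first | rfl | (exfalso; revert h; decide)

theorem pos_cv (w : List St) : Pool.Agent.H122R3.SX.pos (w.map cv) 0 = dx w ∧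
    Pool.Agent.H122R3.SX.pos (w.map cv) 1 = dy w := by
  induction w with
  | nil => simp
  | cons s w ih =>
    rw [List.map_cons, Pool.Agent.H122R3.SX.pos_cons, Pool.Agent.H122R3.SX.pos_cons, ih.1, ih.2,
      dx_cons, dy_cons]
    cases s <;> simp [cv, Pool.Agent.H122R3.SX.st]

theorem exists_of_inf_cv {w : List St} {v : List (Fin 4)} (h : v <:+: w.map cv) :
    ∃ v', v' <:+: w ∧ v = v'.map cv := by
  obtain ⟨s, t, h⟩ := h
  have h' := h.symm
  rw [List.append_assoc, List.map_eq_append_iff] at h'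
  obtain ⟨a, b, hab, rfl, hb⟩ := h'
  rw [List.map_eq_append_iff] at hb
  obtain ⟨c, d, rfl, rfl, rfl⟩ := hb
  exact ⟨c, ⟨a, d, by rw [hab, List.append_assoc]⟩, rfl⟩

theorem exists_of_pre_cv {w : List St} {v : List (Fin 4)} (h : v <+: w.map cv) :
    ∃ v', v' <+: w ∧ v = v'.map cv := by
  obtain ⟨t, h⟩ := h
  have h' := h.symm
  rw [List.map_eq_append_iff] at h'
  obtain ⟨a, b, hab, rfl, rfl⟩ := h'
  exact ⟨a, ⟨b, hab.symm⟩, rfl⟩

theorem saw_cv {w : List St} (h : Saw w) : Pool.Agent.H122R3.SX.Saw (w.map cv) := by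
  intro v hv h0
  obtain ⟨v', hv', rfl⟩ := exists_of_inf_cv hv
  by_contra hcon
  push Not at hcon
  have h1 := hcon 0
  have h2 := hcon 1
  rw [(pos_cv v').1] at h1
  rw [(pos_cv v').2] at h2
  have := h v' hv' h1 h2
  rw [this] at h0
  exact h0 rfl

/-- a bridge which is not wide is a piece -/
theorem piece_of {R : ℕ} (hR : 1 ≤ R) {w : List St} (hw : IsB w) (hn : ¬ Wide (R : ℝ) w) :
    Pool.Agent.H122R3.SX.G (dx w) (dy w) ((min R w.length : ℕ) : ℤ) (w.map cv) ∧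
    dx w ≤ (min R w.length : ℕ) ∧ |dy w| ≤ (min R w.length : ℕ) ∧ 0 ≤ dx w := by
  have hb := hw.br
  have hdx : (wd w : ℤ) = dx w := hb.dx.symm
  have hRr : (0 : ℝ) < R := by exact_mod_cast hR
  have key : ∀ u, u <+: w → |dx u| ≤ (min R w.length : ℕ) ∧ |dy u| ≤ (min R w.length : ℕ) := by
    intro u hu
    have h1 : u = w.take u.length := List.prefix_iff_eq_take.mp hu
    have h2 : path w u.length = (dx u, dy u) := by
      unfold path
      rw [← h1]
    have h3 : ¬ (R : ℝ) ≤ ln2 ((path w u.length).1 - (path w 0).1, (path w u.length).2 - (path w 0).2) :=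
      fun h => hn ⟨0, u.length, Nat.zero_le _, hu.length_le, h⟩
    rw [h2] at h3
    have h4 : path w 0 = (0, 0) := by simp [path]
    rw [h4] at h3
    push Not at h3
    have h5 : |((dy u : ℤ) : ℝ)| ≤ ln2 (dx u - 0, dy u - 0) := by
      unfold ln2
      apply Real.abs_le_sqrt
      simp only [sub_zero]
      have := sq_nonneg ((dx u : ℤ) : ℝ)
      linarith
    have h6 : |((dx u : ℤ) : ℝ)| ≤ ln2 (dx u - 0, dy u - 0) := by
      unfold ln2
      apply Real.abs_le_sqrt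
      simp only [sub_zero]
      have := sq_nonneg ((dy u : ℤ) : ℝ)
      linarith
    have h7 : |dy u| ≤ R := by
      have : |((dy u : ℤ) : ℝ)| ≤ R := by linarith
      exact_mod_cast this
    have h8 : |dx u| ≤ R := by
      have : |((dx u : ℤ) : ℝ)| ≤ R := by linarith
      exact_mod_cast this
    have h9 := abs_dy_le u
    have h10 : |dx u| ≤ u.length := by
      have := abs_dy_le (sw u)
      rw [dy_sw, length_sw] at this
      exact this
    have h11 := hu.length_le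
    push_cast
    constructor
    · exact le_min h8 (h10.trans (by exact_mod_cast h11))
    · exact le_min h7 (h9.trans (by exact_mod_cast h11))
  refine ⟨⟨saw_cv hb.saw, (pos_cv w).1, (pos_cv w).2, ?_, ?_⟩, ?_, (key w (List.prefix_refl _)).2, ?_⟩
  · intro v hv h0
    obtain ⟨v', hv', rfl⟩ := exists_of_pre_cv hv
    rw [(pos_cv v').1]
    have := hb.hp v' hv' (by simpa using h0)
    omega
  · intro v hv
    obtain ⟨v', hv', rfl⟩ := exists_of_pre_cv hv
    have e : Pool.Agent.H122R3.SX.X (v'.map cv) = dy v' := (pos_cv v').2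
    rw [(pos_cv v').1, e]
    refine ⟨?_, (key v' hv').2⟩
    have := hb.le hv'
    rw [hdx] at this
    exact this
  · exact (le_abs_self _).trans (key w (List.prefix_refl _)).1
  · rw [← hdx]; exact Nat.cast_nonneg _

/-- pigeonhole -/
theorem exists_g (m R : ℕ) (hR : 1 ≤ R) : ∃ t d : ℤ, 0 ≤ t ∧ t ≤ (min R m : ℕ) ∧
    |d| ≤ (min R m : ℕ) ∧ (fs (fun w => IsB w ∧ ¬ Wide (R : ℝ) w) m).card ≤
      ((m + 1) * (2 * m + 1)) * Pool.Agent.H122R3.SX.g t d ((min R m : ℕ) : ℤ) m := by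
  classical
  by_contra hcon
  push Not at hcon
  obtain ⟨Q, hQ⟩ : ∃ Q : Finset (ℤ × ℤ), Q = Finset.Icc (0 : ℤ) (min R m : ℕ) ×ˢ
    Finset.Icc (-((min R m : ℕ) : ℤ)) (min R m : ℕ) := ⟨_, rfl⟩
  obtain ⟨F, hF⟩ : ∃ F, F = fs (fun w => IsB w ∧ ¬ Wide (R : ℝ) w) m := ⟨_, rfl⟩
  rw [← hF] at hcon
  have hmaps : ∀ w ∈ F, (dx w, dy w) ∈ Q := by
    intro w hw
    rw [hF, mem_fs] at hw
    obtain ⟨-, h1, h2, h3⟩ := piece_of hR hw.1.1 hw.1.2
    rw [hw.2] at h1 h2
    rw [hQ, Finset.mem_product, Finset.mem_Icc, Finset.mem_Icc]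
    rw [abs_le] at h2
    exact ⟨⟨h3, h1⟩, h2⟩
  have h1 : F.card = ∑ p ∈ Q, (F.filter (fun w => (dx w, dy w) = p)).card :=
    Finset.card_eq_sum_card_fiberwise (f := fun w => (dx w, dy w)) hmaps
  have h2 : ∀ p ∈ Q, (F.filter (fun w => (dx w, dy w) = p)).card ≤
      Pool.Agent.H122R3.SX.g p.1 p.2 ((min R m : ℕ) : ℤ) m := by
    intro p _
    unfold Pool.Agent.H122R3.SX.g
    apply Finset.card_le_card_of_injOn (fun w => w.map cv)
    · intro w hw
      rw [Finset.mem_coe, Finset.mem_filter, hF, mem_fs] at hw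
      rw [Finset.mem_coe, Pool.Agent.H122R3.SX.mem_fs]
      obtain ⟨⟨hw1, hw2⟩, hw3⟩ := hw
      obtain ⟨h1, -⟩ := piece_of hR hw1.1 hw1.2
      rw [hw2] at h1
      rw [← hw3]
      exact ⟨h1, by rw [List.length_map]; exact hw2⟩
    · intro a _ b _ h
      exact (List.map_injective_iff.2 cv_inj) h
  have hQc : Q.card ≤ (m + 1) * (2 * m + 1) := by
    rw [hQ, Finset.card_product, Int.card_Icc, Int.card_Icc]
    apply Nat.mul_le_mul <;> omega
  have hne : Q.Nonempty := ⟨(0, 0), by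
    rw [hQ, Finset.mem_product, Finset.mem_Icc, Finset.mem_Icc]
    constructor <;> constructor <;> simp⟩
  have h3 : ∑ p ∈ Q, ((m + 1) * (2 * m + 1)) * (F.filter (fun w => (dx w, dy w) = p)).card <
      ∑ p ∈ Q, F.card := by
    apply Finset.sum_lt_sum_of_nonempty hne
    intro p hp
    refine lt_of_le_of_lt (Nat.mul_le_mul_left _ (h2 p hp)) ?_
    rw [hQ, Finset.mem_product, Finset.mem_Icc, Finset.mem_Icc] at hp
    exact hcon p.1 p.2 hp.1.1 hp.1.2 (by rw [abs_le]; exact hp.2)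
  rw [← Finset.mul_sum, ← h1, Finset.sum_const, smul_eq_mul] at h3
  have h4 : Q.card * F.card ≤ ((m + 1) * (2 * m + 1)) * F.card := Nat.mul_le_mul_right _ hQc
  omega

theorem g_refl (H x T : ℤ) (n : ℕ) :
    Pool.Agent.H122R3.SX.g H x T n ≤ Pool.Agent.H122R3.SX.g H (-x) T n := by
  have e0 : ∀ v : List (Fin 4), Pool.Agent.H122R3.SX.pos (v.map (Pool.Agent.H122R3.SX.pm 4)) 0 =
      Pool.Agent.H122R3.SX.pos v 0 := by
    intro v; rw [Pool.Agent.H122R3.SX.pos_map]; simp [Pool.Agent.H122R3.SX.mt]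
  have e1 : ∀ v : List (Fin 4), Pool.Agent.H122R3.SX.X (v.map (Pool.Agent.H122R3.SX.pm 4)) =
      -Pool.Agent.H122R3.SX.X v := by
    intro v; unfold Pool.Agent.H122R3.SX.X; rw [Pool.Agent.H122R3.SX.pos_map]
    simp [Pool.Agent.H122R3.SX.mt]
  apply Finset.card_le_card_of_injOn (fun w => w.map (Pool.Agent.H122R3.SX.pm 4))
  · intro w hw
    rw [Finset.mem_coe, Pool.Agent.H122R3.SX.mem_fs] at hw
    rw [Finset.mem_coe, Pool.Agent.H122R3.SX.mem_fs]
    obtain ⟨h, hl⟩ := hw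
    refine ⟨⟨h.saw.map 4, by rw [e0, h.top], by rw [e1, h.hor], ?_, ?_⟩, by simp [hl]⟩
    · intro v hv h0
      obtain ⟨v', hv', rfl⟩ := Pool.Agent.H122R3.SX.exists_of_pre_map hv
      rw [e0]
      exact h.low v' hv' (by simpa using h0)
    · intro v hv
      obtain ⟨v', hv', rfl⟩ := Pool.Agent.H122R3.SX.exists_of_pre_map hv
      rw [e0, e1, abs_neg]
      exact h.high v' hv'
  · intro a _ b _ h
    exact (List.map_injective_iff.2 (Pool.Agent.H122R3.SX.pm_inj 4)) h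

/-- **Many diamond words.** -/
theorem many_dm : ∃ K : ℝ, 0 < K ∧ ∀ m : ℕ, 2 ≤ m → ∀ R : ℕ, 1 ≤ R →
    K * Real.log m ^ 2 / ms m ≤ R → ∃ D M : ℕ, 1 ≤ D ∧ D ≤ 19 * R ∧ 2 * m ≤ M ∧ M ≤ 300 * m ^ 2 ∧
      mu ^ M * Real.exp (-(K * Real.log m ^ 3)) ≤ (dm D M : ℝ) := by
  obtain ⟨K1, hK1, hnw⟩ := notwide_many
  obtain ⟨K2, hB⟩ := Pool.Agent.V11237.SXT.exists_Bd
  have hK20 := Pool.Agent.V11237.SXT.K2_nonneg hB.Kn
  obtain ⟨k2, hk2⟩ : ∃ k2, k2 = Pool.Agent.V11237.SXT.K2 K2 := ⟨_, rfl⟩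
  rw [← hk2] at hK20
  have hl2 : 0 < Real.log 2 := Real.log_pos (by norm_num)
  have hmu := mu_pos
  have hmu1 := one_le_mu
  obtain ⟨A, hA⟩ : ∃ A, A = Real.log mu := ⟨_, rfl⟩
  have hA0 : 0 ≤ A := by rw [hA]; exact Real.log_nonneg hmu1
  obtain ⟨Kf, hKf⟩ : ∃ Kf, Kf = 2 * (K1 + 12) / Real.log 2 + 64 * k2 / Real.log 2 +
    9 * A / Real.log 2 ^ 3 + K1 + 1 := ⟨_, rfl⟩
  refine ⟨Kf, by rw [hKf]; positivity, ?_⟩
  intro m hm R hR hRm
  have hM := ms_pos hm
  have hlm : Real.log 2 ≤ Real.log m := log_ge hm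
  have hlm0 : 0 < Real.log (m : ℝ) := by linarith
  obtain ⟨R1, hR1⟩ : ∃ R1 : ℕ, R1 = min R m := ⟨_, rfl⟩
  have hR1p : 1 ≤ R1 := by rw [hR1]; exact le_min hR (by omega)
  have hR1m : R1 ≤ m := by rw [hR1]; exact min_le_right _ _
  have hR1R : R1 ≤ R := by rw [hR1]; exact min_le_left _ _
  -- the narrow pieces
  have h1 := hnw m hm R (le_trans (by
    apply div_le_div_of_nonneg_right _ hM.le
    apply mul_le_mul_of_nonneg_right _ (by positivity)
    rw [hKf]
    have : 0 ≤ 2 * (K1 + 12) / Real.log 2 + 64 * k2 / Real.log 2 + 9 * A / Real.log 2 ^ 3 := by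
      positivity
    linarith) hRm)
  obtain ⟨t, d, ht0, ht1, hd, hg⟩ := exists_g m R hR
  rw [← hR1] at ht1 hd hg
  obtain ⟨g1, hg1⟩ : ∃ g1, g1 = Pool.Agent.H122R3.SX.g t d (R1 : ℤ) m := ⟨_, rfl⟩
  rw [← hg1] at hg
  have h2 : mu ^ m * q m (-(K1 + 12)) ≤ g1 := by
    have h3 : ((fs (fun w => IsB w ∧ ¬ Wide (R : ℝ) w) m).card : ℝ) ≤
        (((m : ℝ) + 1) * (2 * m + 1)) * g1 := by exact_mod_cast hg
    have h4 : ((m : ℝ) + 1) * (2 * m + 1) ≤ q m 12 := by
      have h5 := pow_le_q hm 4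
      have h6 : (2 : ℝ) ≤ m := by exact_mod_cast hm
      norm_num at h5
      refine le_trans ?_ h5
      nlinarith [mul_nonneg (show (0 : ℝ) ≤ m by linarith) (sub_nonneg.2 h6), sq_nonneg ((m : ℝ) ^ 2 - 4)]
    have h5 : mu ^ m * q m (-K1) ≤ q m 12 * g1 := by
      refine h1.trans (h3.trans ?_)
      gcongr
    have h6 := q_pos m (-12)
    have e1 : q m (-(K1 + 12)) = q m (-K1) * q m (-12) := by rw [q_mul]; congr 1; ring
    have e2 : q m 12 * q m (-12) = 1 := by rw [q_mul, add_neg_cancel, q_zero]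
    calc mu ^ m * q m (-(K1 + 12)) = (mu ^ m * q m (-K1)) * q m (-12) := by rw [e1]; ring
      _ ≤ (q m 12 * g1) * q m (-12) := by gcongr
      _ = (q m 12 * q m (-12)) * g1 := by ring
      _ = _ := by rw [e2, one_mul]
  have h3 : g1 * g1 ≤ Pool.Agent.H122R3.SX.g (2 * t) 0 (2 * (R1 : ℤ)) (2 * m) := by
    have a1 := Pool.Agent.H122R3.SX.g_mul t d R1 t (-d) R1 m m
    have a2 := g_refl t d R1 m
    rw [← hg1] at a1 a2
    have a3 := (Nat.mul_le_mul_left g1 a2).trans a1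
    have e1 : t + t = 2 * t := by ring
    have e2 : d + -d = 0 := by ring
    have e3 : m + m = 2 * m := by ring
    rw [e1, e2, e3] at a3
    refine a3.trans (Pool.Agent.H122R3.SX.g_mono _ ?_)
    apply max_le
    · omega
    · omega
  -- the wedges
  obtain ⟨j, hj⟩ : ∃ j, j = Nat.log 2 R1 + 1 := ⟨_, rfl⟩
  have hj1 : R1 < 2 ^ j := by rw [hj]; exact Nat.lt_pow_succ_log_self (by norm_num) R1
  have hj2 : 2 ^ j ≤ 2 * R1 := by
    rw [hj, pow_succ]
    have := Nat.pow_log_le_self 2 (show R1 ≠ 0 by omega)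
    omega
  obtain ⟨n, hn, hgw⟩ := Pool.Agent.V11237.SXT.exists_gw hB (η := 1 / 2) (by norm_num) (κ := 2)
    (by norm_num) j
  rw [← hk2] at hgw
  obtain ⟨H, hH⟩ : ∃ H : ℤ, H = ((2 * 2 * 2 ^ j : ℕ) : ℤ) := ⟨_, rfl⟩
  rw [← hH] at hgw
  have hH2 : H = 4 * ((2 ^ j : ℕ) : ℤ) := by rw [hH]; push_cast; ring
  have hH1 : 1 ≤ H := by
    have : 0 < 2 ^ j := by positivity
    omega
  have hdm := dm_ge (H := H) (H' := 2 * t) (T := 2 * (R1 : ℤ)) hH1 (by omega) n (2 * m)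
  obtain ⟨D, hD⟩ : ∃ D : ℕ, D = (2 * H + 2 * t + 1).toNat := ⟨_, rfl⟩
  have hDe : (D : ℤ) = 2 * H + 2 * t + 1 := by rw [hD]; omega
  have hmuE : Pool.Agent.V11237.SXT.mu = mu := rfl
  refine ⟨D, 2 * n + 2 * m + 1, ?_, ?_, ?_, ?_, ?_⟩
  · omega
  · have : (2 ^ j : ℕ) ≤ 2 * R := by omega
    omega
  · omega
  · have a1 : 4 ^ j ≤ 4 * m ^ 2 := by
      calc 4 ^ j = (2 ^ j) ^ 2 := by rw [← pow_mul, mul_comm j 2, pow_mul]; norm_num
        _ ≤ (2 * m) ^ 2 := Nat.pow_le_pow_left (by omega) 2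
        _ = 4 * m ^ 2 := by ring
    nlinarith
  · rw [← hDe] at hdm
    have a1 : (Pool.Agent.H122R3.SX.gw (1 / 2) H n : ℝ) *
        (Pool.Agent.H122R3.SX.g (2 * t) 0 (2 * (R1 : ℤ)) (2 * m) : ℝ) *
        (Pool.Agent.H122R3.SX.gw (1 / 2) H n : ℝ) ≤ dm D (2 * n + 2 * m + 1) := by
      exact_mod_cast hdm
    refine le_trans ?_ a1
    rw [hmuE] at hgw
    obtain ⟨Wt, hWt⟩ : ∃ Wt, Wt = 2 * ((2 : ℕ) : ℝ) * k2 * Real.log 2 ^ 2 * (j : ℝ) ^ 3 +
        2 * ((2 : ℕ) : ℝ) * Real.log mu := ⟨_, rfl⟩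
    rw [← hWt] at hgw
    have a2 : mu ^ n * Real.exp (-Wt) ≤ Pool.Agent.H122R3.SX.gw (1 / 2) H n := by
      rw [le_div_iff₀ (pow_pos hmu n)] at hgw
      linarith
    have a3 : mu ^ (2 * m) * q m (-(2 * (K1 + 12))) ≤
        Pool.Agent.H122R3.SX.g (2 * t) 0 (2 * (R1 : ℤ)) (2 * m) := by
      have b1 : (g1 : ℝ) * g1 ≤ Pool.Agent.H122R3.SX.g (2 * t) 0 (2 * (R1 : ℤ)) (2 * m) := by
        exact_mod_cast h3
      refine le_trans ?_ b1
      have b2 : 0 ≤ mu ^ m * q m (-(K1 + 12)) := (mul_pos (pow_pos hmu _) (q_pos _ _)).le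
      calc mu ^ (2 * m) * q m (-(2 * (K1 + 12))) =
            (mu ^ m * q m (-(K1 + 12))) * (mu ^ m * q m (-(K1 + 12))) := by
            have e1 : q m (-(2 * (K1 + 12))) = q m (-(K1 + 12)) * q m (-(K1 + 12)) := by
              rw [q_mul]; congr 1; ring
            rw [e1, two_mul, pow_add]
            ring
        _ ≤ _ := mul_le_mul h2 h2 b2 (Nat.cast_nonneg _)
    have hWb : Wt ≤ 32 * k2 / Real.log 2 * Real.log m ^ 3 + 4 * A := by
      have b1 : (j : ℝ) * Real.log 2 ≤ 2 * Real.log m := by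
        have b2 : ((2 : ℝ) ^ j) ≤ 2 * m := by
          have : 2 ^ j ≤ 2 * m := by omega
          exact_mod_cast this
        have b3 := Real.log_le_log (by positivity) b2
        rw [Real.log_pow, Real.log_mul (by norm_num) (by
          have : (0 : ℝ) < m := by exact_mod_cast (by omega : 0 < m)
          exact this.ne')] at b3
        linarith
      have b2 : ((j : ℝ) * Real.log 2) ^ 3 ≤ (2 * Real.log m) ^ 3 :=
        pow_le_pow_left₀ (by positivity) b1 3
      have e1 : Wt = 4 * k2 / Real.log 2 * ((j : ℝ) * Real.log 2) ^ 3 + 4 * A := by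
        rw [hWt, hA]
        push_cast
        field_simp
        ring
      have e2 : 32 * k2 / Real.log 2 * Real.log m ^ 3 =
          4 * k2 / Real.log 2 * (2 * Real.log m) ^ 3 := by ring
      rw [e1, e2]
      gcongr
    have hfin : mu ^ (2 * n + 2 * m + 1) * Real.exp (-(Kf * Real.log m ^ 3)) ≤
        (mu ^ n * Real.exp (-Wt)) * (mu ^ (2 * m) * q m (-(2 * (K1 + 12)))) *
          (mu ^ n * Real.exp (-Wt)) := by
      have e1 : mu ^ (2 * n + 2 * m + 1) = mu ^ n * mu ^ (2 * m) * mu ^ n * Real.exp A := by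
        rw [hA, Real.exp_log hmu, ← pow_add, ← pow_add, ← pow_succ]
        congr 1
        ring
      have e2 : (mu ^ n * Real.exp (-Wt)) * (mu ^ (2 * m) * q m (-(2 * (K1 + 12)))) *
          (mu ^ n * Real.exp (-Wt)) = mu ^ n * mu ^ (2 * m) * mu ^ n *
          Real.exp (-Wt + -(2 * (K1 + 12)) * Real.log m ^ 2 + -Wt) := by
        unfold q
        rw [Real.exp_add, Real.exp_add]
        ring
      rw [e1, e2, mul_assoc, ← Real.exp_add]
      apply mul_le_mul_of_nonneg_left _ (by positivity)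
      apply Real.exp_le_exp.2
      have c1 : Real.log (m : ℝ) ^ 2 ≤ 1 / Real.log 2 * Real.log m ^ 3 := by
        rw [one_div, ← div_eq_inv_mul, le_div_iff₀ hl2]
        have : Real.log (m : ℝ) ^ 3 = Real.log m ^ 2 * Real.log m := by ring
        rw [this]
        gcongr
      have c2 : 9 * A ≤ 9 * A / Real.log 2 ^ 3 * Real.log m ^ 3 := by
        rw [div_mul_eq_mul_div, le_div_iff₀ (by positivity)]
        gcongr
      have c3 : 0 ≤ (K1 + 1) * Real.log m ^ 3 := by positivity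
      have c4 : 2 * (K1 + 12) * Real.log m ^ 2 ≤ 2 * (K1 + 12) / Real.log 2 * Real.log m ^ 3 := by
        calc 2 * (K1 + 12) * Real.log m ^ 2 ≤ 2 * (K1 + 12) * (1 / Real.log 2 * Real.log m ^ 3) := by
              gcongr
          _ = _ := by ring
      have c5 : Kf * Real.log m ^ 3 = 2 * (K1 + 12) / Real.log 2 * Real.log m ^ 3 +
          2 * (32 * k2 / Real.log 2 * Real.log m ^ 3) + 9 * A / Real.log 2 ^ 3 * Real.log m ^ 3 +
          (K1 + 1) * Real.log m ^ 3 := by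
        rw [hKf]; ring
      rw [c5]
      linarith
    refine hfin.trans ?_
    have z1 : 0 ≤ mu ^ n * Real.exp (-Wt) := by positivity
    have z2 : 0 ≤ mu ^ (2 * m) * q m (-(2 * (K1 + 12))) := (mul_pos (pow_pos hmu _) (q_pos _ _)).le
    exact mul_le_mul (mul_le_mul a2 a3 z2 (Nat.cast_nonneg _)) a2 z1 (by positivity)

end Pool.Agent.H315.SAW
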