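import Pool.Agent.H315.SAW.Snake
import Pool.Agent.H315.SAW.Weights
import Pool.Agent.H315.SAW.Prob

/-!
Probabilities to follow a given shape, and small ball probabilities.
-/

set_option autoImplicit false

namespace Pool.Agent.H315.SAW

open Finset
open Real (exp log)
open Pool.Agent.H122R3.SX (W c Saw pos)

theorem ms_le : ∃ B : ℝ, 1 ≤ B ∧ ∀ m : ℕ, 2 ≤ m → ms m ≤ B := by
  refine ⟨1 + log H981.mu, ?_, fun m hm => ?_⟩
  · have := Real.log_nonneg Pool.Agent.V11237.SXT.exists_Bd.choose_spec.one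
    have e : Pool.Agent.V11237.SXT.mu = H981.mu := rfl
    rw [e] at this
    linarith
  · unfold ms Y981.L2.mass
    have h1 : (1 / (m : ℝ)) ≤ 1 := by
      rw [div_le_one (by exact_mod_cast (by omega : 0 < m))]
      exact_mod_cast (by omega : 1 ≤ m)
    apply csSup_le ⟨0, Y981.L2.zero_mem (by positivity)⟩
    rintro h ⟨-, h2⟩
    have := Y981.L2.le_psi h
    linarith

theorem base : ∃ K : ℝ, 0 < K ∧ ∀ m : ℕ, 2 ≤ m → ∃ D M : ℕ, 1 ≤ D ∧
    (D : ℝ) ≤ K * (log m ^ 2 / ms m) ∧ 2 * m ≤ M ∧ M ≤ 300 * m ^ 2 ∧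
    ∀ u : W, Saw u → H981.mu ^ (M * u.length) * exp (-(K * u.length * log m ^ 3)) ≤ fo D M u := by
  obtain ⟨K1, hK1, h⟩ := many_dm
  obtain ⟨B, hB1, hB⟩ := ms_le
  have hl2 : 0 < log 2 := Real.log_pos (by norm_num)
  have hmu := H981.mu_pos
  refine ⟨19 * (K1 + B / log 2 ^ 2) + K1, by positivity, ?_⟩
  intro m hm
  have hms := ms_pos hm
  have hlm : log 2 ≤ log (m : ℝ) := Real.log_le_log (by norm_num) (by exact_mod_cast hm)
  have hlm0 : 0 < log (m : ℝ) := by linarith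
  obtain ⟨x, hx⟩ : ∃ x, x = log (m : ℝ) ^ 2 / ms m := ⟨_, rfl⟩
  rw [← hx]
  have hx0 : 0 < x := by rw [hx]; positivity
  obtain ⟨R, hR⟩ : ∃ R, R = ⌈K1 * x⌉₊ := ⟨_, rfl⟩
  have hR1 : 1 ≤ R := by rw [hR]; exact Nat.ceil_pos.2 (by positivity)
  have hR2 : K1 * log m ^ 2 / ms m ≤ R := by
    rw [hR, mul_div_assoc, ← hx]
    exact Nat.le_ceil _
  have hR3 : (R : ℝ) ≤ K1 * x + 1 := by rw [hR]; exact (Nat.ceil_lt_add_one (by positivity)).le
  have h1x : 1 ≤ (B / log 2 ^ 2) * x := by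
    rw [hx, div_mul_div_comm, le_div_iff₀ (by positivity), one_mul]
    have a1 := hB m hm
    have a2 : log 2 ^ 2 ≤ log (m : ℝ) ^ 2 := pow_le_pow_left₀ hl2.le hlm 2
    calc log 2 ^ 2 * ms m ≤ log (m : ℝ) ^ 2 * B := by gcongr
      _ = _ := by ring
  obtain ⟨D, M, hD1, hD2, hM1, hM2, hdm⟩ := h m hm R hR1 hR2
  refine ⟨D, M, hD1, ?_, hM1, hM2, ?_⟩
  · have a1 : (D : ℝ) ≤ 19 * R := by exact_mod_cast hD2
    have a2 : 0 ≤ K1 * x := by positivity
    nlinarith
  · intro u hu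
    have a1 := fo_ge (D := (D : ℤ)) (M := M) (by exact_mod_cast hD1) (by omega) u hu
    have a2 : ((dm D M : ℝ)) ^ u.length ≤ fo D M u := by exact_mod_cast a1
    refine le_trans ?_ a2
    have a3 : (H981.mu ^ M * exp (-(K1 * log m ^ 3))) ^ u.length ≤ ((dm D M : ℝ)) ^ u.length :=
      pow_le_pow_left₀ (by positivity) hdm _
    refine le_trans ?_ a3
    rw [mul_pow, ← pow_mul, ← Real.exp_nat_mul]
    apply mul_le_mul_of_nonneg_left _ (by positivity)
    apply Real.exp_le_exp.2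
    have a4 : (0 : ℝ) ≤ 19 * (K1 + B / log 2 ^ 2) * (u.length * log m ^ 3) := by positivity
    nlinarith

theorem log3 : ∃ C : ℝ, 0 < C ∧ ∀ m M N : ℕ, 2 ≤ m → 2 * m ≤ M → M ≤ 300 * m ^ 2 →
    log ((M * (N + 1) : ℕ) : ℝ) ^ 2 ≤ C * (N + 1) * log m ^ 3 := by
  have hl2 : 0 < log 2 := Real.log_pos (by norm_num)
  refine ⟨242 / log 2 + 8 / log 2 ^ 3, by positivity, ?_⟩
  intro m M N hm hM1 hM2
  have hlm : log 2 ≤ log (m : ℝ) := Real.log_le_log (by norm_num) (by exact_mod_cast hm)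
  have hlm0 : 0 < log (m : ℝ) := by linarith
  have hm0 : (0 : ℝ) < m := by exact_mod_cast (by omega : 0 < m)
  have hM0 : (0 : ℝ) < M := by exact_mod_cast (by omega : 0 < M)
  have hN : (1 : ℝ) ≤ (N : ℝ) + 1 := by
    have : (0 : ℝ) ≤ N := Nat.cast_nonneg N
    linarith
  have a1 : log (M : ℝ) ≤ 11 * log m := by
    have b1 : (M : ℝ) ≤ 512 * m ^ 2 := by
      have : (M : ℝ) ≤ 300 * m ^ 2 := by exact_mod_cast hM2
      nlinarith [sq_nonneg (m : ℝ)]
    have b2 := Real.log_le_log hM0 b1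
    rw [Real.log_mul (by norm_num) (by positivity), Real.log_pow,
      show (512 : ℝ) = 2 ^ 9 by norm_num, Real.log_pow] at b2
    push_cast at b2
    linarith
  have a2 : 0 ≤ log (M : ℝ) := Real.log_nonneg (by exact_mod_cast (by omega : 1 ≤ M))
  have a3 : log ((M * (N + 1) : ℕ) : ℝ) = log M + log ((N : ℝ) + 1) := by
    push_cast
    rw [Real.log_mul hM0.ne' (by linarith)]
  have a4 := log_sq_le hN
  have a5 : log (M : ℝ) ^ 2 ≤ 121 * log m ^ 2 := by
    calc log (M : ℝ) ^ 2 ≤ (11 * log m) ^ 2 := pow_le_pow_left₀ a2 a1 2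
      _ = _ := by ring
  have a6 : 242 * log (m : ℝ) ^ 2 ≤ 242 / log 2 * log m ^ 3 := by
    rw [div_mul_eq_mul_div, le_div_iff₀ hl2]
    have : log (m : ℝ) ^ 2 * log 2 ≤ log m ^ 2 * log m := by gcongr
    nlinarith
  have a7 : (8 : ℝ) ≤ 8 / log 2 ^ 3 * log m ^ 3 := by
    rw [div_mul_eq_mul_div, le_div_iff₀ (by positivity)]
    have : log 2 ^ 3 ≤ log (m : ℝ) ^ 3 := pow_le_pow_left₀ hl2.le hlm 3
    linarith
  rw [a3]
  have a8 : (log (M : ℝ) + log ((N : ℝ) + 1)) ^ 2 ≤ 2 * log (M : ℝ) ^ 2 + 2 * log ((N : ℝ) + 1) ^ 2 := by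
    nlinarith [sq_nonneg (log (M : ℝ) - log ((N : ℝ) + 1))]
  have a9 : 0 ≤ 242 / log 2 * log m ^ 3 := by positivity
  calc (log (M : ℝ) + log ((N : ℝ) + 1)) ^ 2 ≤ 242 * log (m : ℝ) ^ 2 + 8 * ((N : ℝ) + 1) := by
        linarith
    _ ≤ 242 / log 2 * log m ^ 3 * ((N : ℝ) + 1) + 8 / log 2 ^ 3 * log m ^ 3 * ((N : ℝ) + 1) := by
        have b1 : 242 * log (m : ℝ) ^ 2 ≤ 242 / log 2 * log m ^ 3 * ((N : ℝ) + 1) := by nlinarith
        have b2 : 8 * ((N : ℝ) + 1) ≤ 8 / log 2 ^ 3 * log m ^ 3 * ((N : ℝ) + 1) := by gcongr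
        linarith
    _ = _ := by ring

theorem box_arith {D k m n M N : ℕ} {r y K0 : ℝ} (hm : 0 < m) (hM : 2 * m ≤ M) (hD : (D : ℝ) ≤ K0 * y)
    (hN : N = n / M + 1) (hk : k = Nat.sqrt N + 1) (hK0 : 0 ≤ K0) (hy : 0 ≤ y)
    (h1 : 4 * K0 * y ≤ r) (h2 : 2 * K0 ^ 2 * n * y ^ 2 ≤ m * r ^ 2) : (D : ℝ) * k ≤ r := by
  have hm0 : (0 : ℝ) < m := by exact_mod_cast hm
  have hD0 : (0 : ℝ) ≤ D := Nat.cast_nonneg D
  obtain ⟨s, hs⟩ : ∃ s, s = Real.sqrt ((n : ℝ) / (2 * m)) := ⟨_, rfl⟩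
  have hs0 : 0 ≤ s := by rw [hs]; exact Real.sqrt_nonneg _
  have hs2 : s ^ 2 = (n : ℝ) / (2 * m) := by rw [hs, Real.sq_sqrt (by positivity)]
  have hN1 : (N : ℝ) ≤ (n : ℝ) / (2 * m) + 1 := by
    rw [hN]
    push_cast
    have a1 : ((n / M : ℕ) : ℝ) ≤ (n : ℝ) / M := Nat.cast_div_le
    have a2 : (n : ℝ) / M ≤ (n : ℝ) / (2 * m) := by
      apply div_le_div_of_nonneg_left (Nat.cast_nonneg n) (by positivity)
      exact_mod_cast hM
    linarith
  have hk1 : (k : ℝ) ≤ s + 2 := by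
    rw [hk]
    push_cast
    have a1 := Real.nat_sqrt_le_real_sqrt (a := N)
    have a2 : Real.sqrt (N : ℝ) ≤ s + 1 := by
      rw [Real.sqrt_le_left (by linarith)]
      nlinarith
    linarith
  have h3 : (D : ℝ) * s ≤ r / 2 := by
    have hr : 0 ≤ r := le_trans (by positivity) h1
    apply (pow_le_pow_iff_left₀ (by positivity) (by positivity) two_ne_zero).1
    rw [mul_pow, hs2]
    have a1 : (D : ℝ) ^ 2 ≤ (K0 * y) ^ 2 := pow_le_pow_left₀ hD0 hD 2
    rw [mul_div_assoc', div_le_iff₀ (by positivity)]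
    have a2 : (D : ℝ) ^ 2 * n ≤ (K0 * y) ^ 2 * n := by gcongr
    nlinarith
  nlinarith

theorem main : ∃ K : ℝ, 0 < K ∧ ∀ m : ℕ, 2 ≤ m →
    (∃ D M : ℕ, 1 ≤ D ∧ (D : ℝ) ≤ K * (log m ^ 2 / ms m) ∧ 2 * m ≤ M ∧ M ≤ 300 * m ^ 2 ∧
      ∀ u : W, Saw u → exp (-(K * (u.length + 1) * log m ^ 3)) * c (M * u.length) ≤ fo D M u) ∧
    ∀ (n : ℕ) (r : ℝ), K * (log m ^ 2 / ms m) ≤ r →
      K * n * (log m ^ 2 / ms m) ^ 2 ≤ m * r ^ 2 →
      exp (-(K * (1 + n / m) * log m ^ 3)) * c n ≤ cb r n := by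
  obtain ⟨K0, hK0, hbase⟩ := base
  obtain ⟨C, hC, hlog⟩ := log3
  obtain ⟨K2, hB⟩ := Pool.Agent.V11237.SXT.exists_Bd
  have hmuE : Pool.Agent.V11237.SXT.mu = H981.mu := rfl
  rw [hmuE] at hB
  have hK2 := hB.Kn
  have hl2 : 0 < log 2 := Real.log_pos (by norm_num)
  have hmu := H981.mu_pos
  obtain ⟨Kf, hKf⟩ : ∃ Kf, Kf = 4 / log 2 ^ 3 + 4 * K2 * C + 4 * K0 + 2 * K0 ^ 2 := ⟨_, rfl⟩
  refine ⟨Kf, by rw [hKf]; positivity, ?_⟩
  intro m hm
  obtain ⟨D, M, hD1, hD2, hM1, hM2, hfo⟩ := hbase m hm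
  have hms := ms_pos hm
  have hlm : log 2 ≤ log (m : ℝ) := Real.log_le_log (by norm_num) (by exact_mod_cast hm)
  have hlm0 : 0 < log (m : ℝ) := by linarith
  have hm0 : (0 : ℝ) < m := by exact_mod_cast (by omega : 0 < m)
  obtain ⟨y, hy⟩ : ∃ y, y = log (m : ℝ) ^ 2 / ms m := ⟨_, rfl⟩
  rw [← hy] at hD2 ⊢
  have hy0 : 0 < y := by rw [hy]; positivity
  obtain ⟨L, hL⟩ : ∃ L, L = log (m : ℝ) ^ 3 := ⟨_, rfl⟩
  rw [← hL] at hfo ⊢
  have hL0 : 0 < L := by rw [hL]; positivity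
  have h4 : (4 : ℝ) ≤ 4 / log 2 ^ 3 * L := by
    rw [div_mul_eq_mul_div, le_div_iff₀ (by positivity), hL]
    have : log 2 ^ 3 ≤ log (m : ℝ) ^ 3 := pow_le_pow_left₀ hl2.le hlm 3
    linarith
  have hl4 : log 4 ≤ 2 := by
    rw [show (4 : ℝ) = 2 ^ 2 by norm_num, Real.log_pow]
    have := Real.log_two_lt_d9
    push_cast
    linarith
  have hE4 : (4 : ℝ) ≤ exp 2 := by
    rw [← Real.exp_log (show (0 : ℝ) < 4 by norm_num)]
    exact Real.exp_le_exp.2 hl4
  have hcE : ∀ N a : ℕ, a ≤ M * (N + 1) →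
      (c a : ℝ) ≤ H981.mu ^ a * exp (2 + K2 * C * (N + 1) * L) := by
    intro N a ha
    have a1 := hB.c_le4 ha
    have a2 := hlog m M N hm hM1 hM2
    rw [← hL] at a2
    have a3 : exp (K2 * log ((M * (N + 1) : ℕ) : ℝ) ^ 2) ≤ exp (K2 * C * (N + 1) * L) := by
      apply Real.exp_le_exp.2
      have := mul_le_mul_of_nonneg_left a2 hK2
      linarith
    calc (c a : ℝ) ≤ 4 * H981.mu ^ a * exp (K2 * log ((M * (N + 1) : ℕ) : ℝ) ^ 2) := a1
      _ ≤ exp 2 * H981.mu ^ a * exp (K2 * C * (N + 1) * L) := by gcongr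
      _ = _ := by rw [Real.exp_add]; ring
  constructor
  · refine ⟨D, M, hD1, ?_, hM1, hM2, ?_⟩
    · refine hD2.trans (mul_le_mul_of_nonneg_right ?_ hy0.le)
      rw [hKf]
      have : 0 ≤ 4 / log 2 ^ 3 + 4 * K2 * C + 3 * K0 + 2 * K0 ^ 2 := by positivity
      linarith
    · intro u hu
      refine le_trans ?_ (hfo u hu)
      have a1 := hcE u.length (M * u.length) (Nat.mul_le_mul_left M (Nat.le_succ _))
      calc exp (-(Kf * (u.length + 1) * L)) * c (M * u.length)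
          ≤ exp (-(Kf * (u.length + 1) * L)) *
            (H981.mu ^ (M * u.length) * exp (2 + K2 * C * (u.length + 1) * L)) := by gcongr
        _ = H981.mu ^ (M * u.length) *
            exp (-(Kf * (u.length + 1) * L) + (2 + K2 * C * (u.length + 1) * L)) := by
          rw [Real.exp_add (-(Kf * (u.length + 1) * L)) (2 + K2 * C * (u.length + 1) * L)]; ring
        _ ≤ _ := by
          apply mul_le_mul_of_nonneg_left _ (by positivity)
          apply Real.exp_le_exp.2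
          have b1 : (1 : ℝ) ≤ (u.length : ℝ) + 1 := by
            have : (0 : ℝ) ≤ u.length := Nat.cast_nonneg _
            linarith
          have b2 : (4 : ℝ) ≤ 4 / log 2 ^ 3 * L * ((u.length : ℝ) + 1) := by nlinarith
          have b3 : 0 ≤ K2 * C * (u.length + 1) * L := by positivity
          have b4 : 0 ≤ K0 ^ 2 * (u.length + 1) * L := by positivity
          have b5 : 0 ≤ K0 * L := by positivity
          have b6 : 0 ≤ K0 * u.length * L := by positivity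
          rw [hKf]
          linarith
  · intro n r hr1 hr2
    obtain ⟨N, hN⟩ : ∃ N, N = n / M + 1 := ⟨_, rfl⟩
    obtain ⟨k, hk⟩ : ∃ k, k = Nat.sqrt N + 1 := ⟨_, rfl⟩
    have hNk : N + 1 ≤ k * k := by
      rw [hk]
      exact Nat.lt_succ_sqrt N
    obtain ⟨u, hu1, hu2, hu3⟩ := exists_snake hNk
    have hKa : 4 * K0 ≤ Kf := by
      rw [hKf]
      have : 0 ≤ 4 / log 2 ^ 3 + 4 * K2 * C + 2 * K0 ^ 2 := by positivity
      linarith
    have hKb : 2 * K0 ^ 2 ≤ Kf := by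
      rw [hKf]
      have : 0 ≤ 4 / log 2 ^ 3 + 4 * K2 * C + 4 * K0 := by positivity
      linarith
    have hDk : (D : ℝ) * k ≤ r := by
      apply box_arith (by omega) hM1 hD2 hN hk hK0.le hy0.le
      · exact le_trans (mul_le_mul_of_nonneg_right hKa hy0.le) hr1
      · refine le_trans ?_ hr2
        gcongr
    have h1 := fo_le_cb (by omega : 0 < M) hu2 hu3 hDk
    have hnM : n ≤ M * N := by
      rw [hN]
      exact (Nat.lt_mul_div_succ n (show 0 < M by omega)).le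
    have h2 := cb_add r n (M * N - n)
    rw [Nat.add_sub_cancel' hnM] at h2
    have h3 := hfo u hu1
    rw [hu2] at h3
    have h5 : H981.mu ^ (M * N) * exp (-(K0 * N * L)) ≤ cb r n * c (M * N - n) := by
      refine h3.trans ?_
      exact_mod_cast h1.trans h2
    have h6 := hcE N (M * N - n) (le_trans (Nat.sub_le _ _) (Nat.mul_le_mul_left M (Nat.le_succ _)))
    have h7 := hcE N n (le_trans hnM (Nat.mul_le_mul_left M (Nat.le_succ _)))
    have h8 : H981.mu ^ (M * N) = H981.mu ^ n * H981.mu ^ (M * N - n) := by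
      rw [← pow_add, Nat.add_sub_cancel' hnM]
    have h9 : H981.mu ^ n * exp (-(K0 * N * L)) ≤ cb r n * exp (2 + K2 * C * (N + 1) * L) := by
      have b1 : H981.mu ^ (M * N - n) * (H981.mu ^ n * exp (-(K0 * N * L))) ≤
          H981.mu ^ (M * N - n) * (cb r n * exp (2 + K2 * C * (N + 1) * L)) := by
        calc H981.mu ^ (M * N - n) * (H981.mu ^ n * exp (-(K0 * N * L)))
            = H981.mu ^ (M * N) * exp (-(K0 * N * L)) := by rw [h8]; ring
          _ ≤ cb r n * c (M * N - n) := h5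
          _ ≤ cb r n * (H981.mu ^ (M * N - n) * exp (2 + K2 * C * (N + 1) * L)) := by gcongr
          _ = _ := by ring
      exact le_of_mul_le_mul_left b1 (by positivity)
    have hNn : (N : ℝ) ≤ 1 + (n : ℝ) / m := by
      rw [hN]
      push_cast
      have a1 : ((n / M : ℕ) : ℝ) ≤ (n : ℝ) / M := Nat.cast_div_le
      have a2 : (n : ℝ) / M ≤ (n : ℝ) / m := by
        apply div_le_div_of_nonneg_left (Nat.cast_nonneg n) (by positivity)
        exact_mod_cast (by omega : m ≤ M)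
      linarith
    have hnm : (0 : ℝ) ≤ (n : ℝ) / m := by positivity
    calc exp (-(Kf * (1 + n / m) * L)) * c n
        ≤ exp (-(Kf * (1 + n / m) * L)) * (H981.mu ^ n * exp (2 + K2 * C * (N + 1) * L)) := by gcongr
      _ = (H981.mu ^ n * exp (-(K0 * N * L))) *
          exp (K0 * N * L + (2 + K2 * C * (N + 1) * L) - Kf * (1 + n / m) * L) := by
          have e : exp (K0 * N * L + (2 + K2 * C * (N + 1) * L) - Kf * (1 + n / m) * L) =
            exp (K0 * N * L) * exp (2 + K2 * C * (N + 1) * L) * exp (-(Kf * (1 + n / m) * L)) := by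
            rw [← Real.exp_add, ← Real.exp_add]
            congr 1
          rw [e]
          have e2 : exp (-(K0 * N * L)) * exp (K0 * N * L) = 1 := by
            rw [← Real.exp_add, neg_add_cancel, Real.exp_zero]
          calc _ = (exp (-(K0 * N * L)) * exp (K0 * N * L)) * (exp (-(Kf * (1 + n / m) * L)) *
                (H981.mu ^ n * exp (2 + K2 * C * (N + 1) * L))) := by rw [e2, one_mul]
            _ = _ := by ring
      _ ≤ (cb r n * exp (2 + K2 * C * (N + 1) * L)) *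
          exp (K0 * N * L + (2 + K2 * C * (N + 1) * L) - Kf * (1 + n / m) * L) := by gcongr
      _ = cb r n * exp (2 * (2 + K2 * C * (N + 1) * L) + K0 * N * L - Kf * (1 + n / m) * L) := by
          rw [mul_assoc, ← Real.exp_add]
          congr 2
          ring
      _ ≤ cb r n * 1 := by
          apply mul_le_mul_of_nonneg_left _ (Nat.cast_nonneg _)
          apply Real.exp_le_one_iff.2
          have b1 : K0 * N * L ≤ K0 * (1 + n / m) * L := by gcongr
          have b2 : 2 * (K2 * C * (N + 1) * L) ≤ 4 * (K2 * C * (1 + n / m) * L) := by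
            have : (N : ℝ) + 1 ≤ 2 * (1 + n / m) := by linarith
            calc 2 * (K2 * C * (N + 1) * L) ≤ 2 * (K2 * C * (2 * (1 + n / m)) * L) := by gcongr
              _ = _ := by ring
          have b3 : (4 : ℝ) ≤ 4 / log 2 ^ 3 * L * (1 + n / m) := by nlinarith
          have b4 : 0 ≤ K0 ^ 2 * (1 + n / m) * L := by positivity
          have b5 : 0 ≤ K0 * (1 + n / m) * L := by positivity
          rw [hKf]
          linarith
      _ = _ := by rw [mul_one]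

end Pool.Agent.H315.SAW
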