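import Pool.Agent.H315.SAW.Ball

/-!
Explicit small ball probabilities, for general probabilities.
-/

set_option autoImplicit false

namespace Pool.Agent.H315.SAW

open Finset Filter
open Real (exp log)
open Pool.Agent.H122R3.SX (W c Saw pos)

/-- `ξ_m ≤ m` -/
theorem inv_ms_le'' {m : ℕ} (hm : 2 ≤ m) : 1 / ms m ≤ m := by
  have h := Y981.L2.self_le_mass (e := 1 / (m : ℝ)) (by positivity)
  have hm0 : (0 : ℝ) < m := by exact_mod_cast (by omega : 0 < m)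
  have h1 : 0 < ms m := ms_pos hm
  have h2 : 1 / (m : ℝ) ≤ ms m := h
  rw [div_le_iff₀ h1]
  rw [div_le_iff₀ hm0] at h2
  linarith

/-- small ball bounds for the probabilities `f r n` -/
def SBP (f : ℝ → ℕ → ℝ) : Prop := ∃ K : ℝ, 0 < K ∧ ∀ m : ℕ, 2 ≤ m → ∀ (n : ℕ) (r : ℝ),
  K * (log m ^ 2 / ms m) ≤ r → K * n * (log m ^ 2 / ms m) ^ 2 ≤ m * r ^ 2 →
    exp (-(K * (1 + n / m) * log m ^ 3)) ≤ f r n

theorem ball_all_ofP {f : ℝ → ℕ → ℝ} (hf : SBP f) :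
    ∃ K : ℝ, 0 < K ∧ ∀ n : ℕ, 2 ≤ n → ∀ r : ℝ, K * Real.sqrt n * log n ^ 2 ≤ r →
    r ≤ n → exp (-(K * (n / r) ^ 2 * log n ^ 7)) ≤ f r n := by
  obtain ⟨K1, hK1, hmain⟩ := hf
  have hl2 : 0 < log 2 := Real.log_pos (by norm_num)
  obtain ⟨K', hK'⟩ : ∃ K', K' = K1 + K1 / log 2 ^ 2 + 1 / log 2 ^ 4 := ⟨_, rfl⟩
  have hK'0 : 0 < K' := by rw [hK']; positivity
  have hK'1 : K1 ≤ K' := by
    rw [hK']
    have : 0 ≤ K1 / log 2 ^ 2 + 1 / log 2 ^ 4 := by positivity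
    linarith
  have hK'2 : K1 ≤ K' * log 2 ^ 2 := by
    rw [hK']
    have e : (K1 + K1 / log 2 ^ 2 + 1 / log 2 ^ 4) * log 2 ^ 2 =
      K1 + K1 * log 2 ^ 2 + 1 / log 2 ^ 4 * log 2 ^ 2 := by
      field_simp
      ring
    rw [e]
    have : 0 ≤ K1 * log 2 ^ 2 + 1 / log 2 ^ 4 * log 2 ^ 2 := by positivity
    linarith
  have hK'3 : 1 ≤ K' * log 2 ^ 4 := by
    rw [hK']
    have e : (K1 + K1 / log 2 ^ 2 + 1 / log 2 ^ 4) * log 2 ^ 4 =
      1 + K1 * log 2 ^ 4 + K1 / log 2 ^ 2 * log 2 ^ 4 := by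
      field_simp
      ring
    rw [e]
    have : 0 ≤ K1 * log 2 ^ 4 + K1 / log 2 ^ 2 * log 2 ^ 4 := by positivity
    linarith
  obtain ⟨Kf, hKf⟩ : ∃ Kf, Kf = 2 * K' + 1 + K1 / log 2 ^ 4 + 2 * K1 * K' := ⟨_, rfl⟩
  refine ⟨Kf, by rw [hKf]; positivity, ?_⟩
  intro n hn r hr1 hr2
  have hn0 : (0 : ℝ) < n := by exact_mod_cast (by omega : 0 < n)
  obtain ⟨l, hl⟩ : ∃ l, l = log (n : ℝ) := ⟨_, rfl⟩
  have hl2' : log 2 ≤ l := by rw [hl]; exact Real.log_le_log (by norm_num) (by exact_mod_cast hn)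
  have hl0 : 0 < l := by linarith
  rw [← hl] at hr1 ⊢
  have hKf1 : 2 * K' + 1 ≤ Kf := by
    rw [hKf]
    have : 0 ≤ K1 / log 2 ^ 4 + 2 * K1 * K' := by positivity
    linarith
  have hKf0 : 0 < Kf := by linarith
  have hr0 : 0 < r := lt_of_lt_of_le (by positivity) hr1
  obtain ⟨x, hx⟩ : ∃ x, x = r ^ 2 / (K' * n * l ^ 4) := ⟨_, rfl⟩
  have hx2 : 2 ≤ x := by
    rw [hx, le_div_iff₀ (by positivity)]
    have a1 : (Kf * Real.sqrt n * l ^ 2) ^ 2 ≤ r ^ 2 := pow_le_pow_left₀ (by positivity) hr1 2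
    rw [mul_pow, mul_pow, Real.sq_sqrt hn0.le] at a1
    refine le_trans ?_ a1
    have a2 : 2 * K' ≤ Kf ^ 2 := by nlinarith
    calc 2 * (K' * n * l ^ 4) = (2 * K') * (n * l ^ 4) := by ring
      _ ≤ Kf ^ 2 * (n * l ^ 4) := by gcongr
      _ = _ := by ring
  obtain ⟨m, hm⟩ : ∃ m, m = ⌊x⌋₊ := ⟨_, rfl⟩
  have hm2 : 2 ≤ m := by rw [hm]; exact Nat.le_floor (by exact_mod_cast hx2)
  have hmx : (m : ℝ) ≤ x := by rw [hm]; exact Nat.floor_le (by linarith)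
  have hmx2 : x ≤ 2 * m := by
    have := Nat.lt_floor_add_one x
    rw [← hm] at this
    have h2 : (2 : ℝ) ≤ m := by exact_mod_cast hm2
    linarith
  have hmr : (m : ℝ) * (K' * n * l ^ 4) ≤ r ^ 2 := by
    rw [hx, le_div_iff₀ (by positivity)] at hmx
    exact hmx
  have hm0 : (0 : ℝ) < m := by exact_mod_cast (by omega : 0 < m)
  have hl4 : log 2 ^ 4 ≤ l ^ 4 := pow_le_pow_left₀ hl2.le hl2' 4
  have hl22 : log 2 ^ 2 ≤ l ^ 2 := pow_le_pow_left₀ hl2.le hl2' 2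
  have hmn : (m : ℝ) ≤ n := by
    have a1 : (m : ℝ) * n ≤ n * n := by
      have a2 : 1 ≤ K' * l ^ 4 := le_trans hK'3 (mul_le_mul_of_nonneg_left hl4 hK'0.le)
      calc (m : ℝ) * n = (m * n) * 1 := by ring
        _ ≤ (m * n) * (K' * l ^ 4) := by gcongr
        _ = m * (K' * n * l ^ 4) := by ring
        _ ≤ r ^ 2 := hmr
        _ ≤ _ := by nlinarith
    exact le_of_mul_le_mul_right a1 hn0
  have hlm : log (m : ℝ) ≤ l := by rw [hl]; exact Real.log_le_log hm0 hmn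
  have hlm0 : 0 ≤ log (m : ℝ) := Real.log_nonneg (by exact_mod_cast (by omega : 1 ≤ m))
  obtain ⟨y, hy⟩ : ∃ y, y = log (m : ℝ) ^ 2 / ms m := ⟨_, rfl⟩
  have hy0 : 0 ≤ y := by rw [hy]; have := ms_pos hm2; positivity
  have hy1 : y ≤ m * l ^ 2 := by
    rw [hy, div_eq_mul_one_div, mul_comm (m : ℝ)]
    have := ms_pos hm2
    exact mul_le_mul (pow_le_pow_left₀ hlm0 hlm 2) (inv_ms_le'' hm2) (by positivity) (by positivity)
  have h2 := hmain m hm2
  rw [← hy] at h2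
  have hc1 : K1 * y ≤ r := by
    have a1 : (K1 * y) * (n * l ^ 2) ≤ r * (n * l ^ 2) := by
      calc (K1 * y) * (n * l ^ 2) ≤ (K1 * (m * l ^ 2)) * (n * l ^ 2) := by gcongr
        _ = K1 * (m * n * l ^ 4) := by ring
        _ ≤ (K' * log 2 ^ 2) * (m * n * l ^ 4) := by gcongr
        _ = log 2 ^ 2 * (m * (K' * n * l ^ 4)) := by ring
        _ ≤ log 2 ^ 2 * r ^ 2 := by gcongr
        _ ≤ l ^ 2 * (r * n) := by
            apply mul_le_mul hl22 _ (by positivity) (by positivity)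
            nlinarith
        _ = _ := by ring
    exact le_of_mul_le_mul_right a1 (by positivity)
  have hc2 : K1 * n * y ^ 2 ≤ m * r ^ 2 := by
    calc K1 * n * y ^ 2 ≤ K1 * n * (m * l ^ 2) ^ 2 := by gcongr
      _ = m * (m * (K1 * n * l ^ 4)) := by ring
      _ ≤ m * (m * (K' * n * l ^ 4)) := by gcongr
      _ ≤ m * r ^ 2 := by gcongr
  refine le_trans ?_ (h2 n r hc1 hc2)
  apply Real.exp_le_exp.2
  apply neg_le_neg
  have hnm : (n : ℝ) / m ≤ 2 * K' * (n / r) ^ 2 * l ^ 4 := by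
    rw [div_le_iff₀ hm0]
    have a1 : r ^ 2 ≤ 2 * m * (K' * n * l ^ 4) := by
      rw [hx, div_le_iff₀ (by positivity)] at hmx2
      exact hmx2
    have a2 : 2 * K' * ((n : ℝ) / r) ^ 2 * l ^ 4 * m = (n / r ^ 2) * (2 * m * (K' * n * l ^ 4)) := by
      field_simp
    rw [a2]
    calc (n : ℝ) = (n / r ^ 2) * r ^ 2 := by field_simp
      _ ≤ _ := by gcongr
  have h1r : 1 ≤ ((n : ℝ) / r) ^ 2 := by
    apply one_le_pow₀
    rw [le_div_iff₀ hr0]
    linarith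
  have hl3 : log (m : ℝ) ^ 3 ≤ l ^ 3 := pow_le_pow_left₀ hlm0 hlm 3
  calc K1 * (1 + n / m) * log m ^ 3 ≤ K1 * (1 + n / m) * l ^ 3 := by gcongr
    _ = K1 * l ^ 3 + K1 * (n / m) * l ^ 3 := by ring
    _ ≤ K1 / log 2 ^ 4 * (n / r) ^ 2 * l ^ 7 + 2 * K1 * K' * (n / r) ^ 2 * l ^ 7 := by
        apply add_le_add
        · have a1 : K1 * l ^ 3 = K1 / log 2 ^ 4 * (log 2 ^ 4 * l ^ 3) := by field_simp
          rw [a1]
          calc K1 / log 2 ^ 4 * (log 2 ^ 4 * l ^ 3) ≤ K1 / log 2 ^ 4 * (l ^ 4 * l ^ 3) := by gcongr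
            _ = (K1 / log 2 ^ 4 * l ^ 7) * 1 := by ring
            _ ≤ (K1 / log 2 ^ 4 * l ^ 7) * (n / r) ^ 2 := by gcongr
            _ = _ := by ring
        · calc K1 * (n / m) * l ^ 3 ≤ K1 * (2 * K' * (n / r) ^ 2 * l ^ 4) * l ^ 3 := by gcongr
            _ = _ := by ring
    _ = (K1 / log 2 ^ 4 + 2 * K1 * K') * ((n / r) ^ 2 * l ^ 7) := by ring
    _ ≤ Kf * ((n / r) ^ 2 * l ^ 7) := by
        gcongr
        rw [hKf]
        linarith
    _ = _ := by ring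

theorem ball_small_ofP {f : ℝ → ℕ → ℝ} (hf : SBP f) {ε : ℝ} (hε : 0 < ε) :
    ∃ a : ℝ, 0 < a ∧ ∀ᶠ n : ℕ in atTop, ∀ r : ℝ,
    (n : ℝ) ^ (1 / 2 + ε) ≤ r → r ≤ (n : ℝ) ^ (1 - ε) →
    exp (-((n / r) ^ 2 * (n : ℝ) ^ (-(a / log (log n))))) ≤ f r n := by
  obtain ⟨K1, hK1, hmain⟩ := hf
  obtain ⟨c0, hc0, m0, hms⟩ := ms_lower
  obtain ⟨a, ha⟩ : ∃ a, a = c0 * ε / 2 := ⟨_, rfl⟩
  have ha0 : 0 < a := by rw [ha]; positivity
  obtain ⟨K', hK'⟩ : ∃ K' : ℝ, K' = 4 * K1 + m0 + 16 := ⟨_, rfl⟩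
  have hm0' : (0 : ℝ) ≤ m0 := Nat.cast_nonneg m0
  have hK'1 : 16 ≤ K' := by rw [hK']; linarith
  have hlK' : 0 ≤ log K' := Real.log_nonneg (by linarith)
  refine ⟨a, ha0, ?_⟩
  filter_upwards [big (c0 / 2 + a / ε + 1 + (log K' + 4) / a), eventually_ge_atTop 2] with n hn hn2
  intro r hr1 hr2
  obtain ⟨hn3, hn4⟩ := hn
  have hn0 : (0 : ℝ) < n := by exact_mod_cast (by omega : 0 < n)
  obtain ⟨l, hl⟩ : ∃ l, l = log (n : ℝ) := ⟨_, rfl⟩
  have hl0 : 0 < l := by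
    rw [hl]
    exact Real.log_pos (by exact_mod_cast (by omega : 1 < n))
  rw [← hl] at hn3 hn4 ⊢
  obtain ⟨v, hv⟩ : ∃ v, v = log l := ⟨_, rfl⟩
  rw [← hv] at hn3 hn4 ⊢
  have p1 : 0 ≤ c0 / 2 := by positivity
  have p2 : 0 ≤ a / ε := by positivity
  have p3 : 0 ≤ (log K' + 4) / a := by positivity
  have hv1 : 1 ≤ v := by linarith
  have hv2 : c0 / 2 ≤ v := by linarith
  have hv3 : a / ε ≤ v := by linarith
  have hv0 : 0 < v := by linarith
  have hlv : l = exp v := by rw [hv, Real.exp_log hl0]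
  have hl1 : 1 ≤ l := by
    rw [hlv]
    exact Real.one_le_exp hv0.le
  obtain ⟨G, hG⟩ : ∃ G, G = exp (a * l / v) := ⟨_, rfl⟩
  have hG0 : 0 < G := by rw [hG]; exact Real.exp_pos _
  have hG1 : K' * l ^ 4 ≤ G := by
    have e : K' * l ^ 4 = exp (log K' + 4 * v) := by
      rw [Real.exp_add, Real.exp_log (by linarith), hlv, ← Real.exp_nat_mul]
      norm_num
    rw [e, hG]
    apply Real.exp_le_exp.2
    rw [le_div_iff₀ hv0]
    have a1 : (log K' + 4) / a * v ^ 2 ≤ l := by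
      refine le_trans ?_ hn4
      gcongr
      linarith
    have a2 : (log K' + 4) * v ^ 2 ≤ a * l := by
      have := mul_le_mul_of_nonneg_left a1 ha0.le
      calc (log K' + 4) * v ^ 2 = a * ((log K' + 4) / a * v ^ 2) := by field_simp
        _ ≤ _ := this
    nlinarith [mul_nonneg hlK' (mul_nonneg hv0.le (sub_nonneg.2 hv1))]
  have hG2 : G ≤ exp (ε * l) := by
    rw [hG]
    apply Real.exp_le_exp.2
    rw [div_le_iff₀ hv0]
    rw [div_le_iff₀ hε] at hv3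
    nlinarith
  have hl4 : 1 ≤ l ^ 4 := one_le_pow₀ hl1
  have hKG : K' ≤ G := by nlinarith
  have hG16 : 16 ≤ G := by linarith
  have hnp : ∀ x : ℝ, (n : ℝ) ^ x = exp (l * x) := by
    intro x
    rw [Real.rpow_def_of_pos hn0, hl]
  rw [hnp] at hr1 hr2 ⊢
  have hne : (n : ℝ) = exp l := by rw [hl, Real.exp_log hn0]
  have hr0 : 0 < r := lt_of_lt_of_le (Real.exp_pos _) hr1
  obtain ⟨s, hs⟩ : ∃ s, s = r ^ 2 / n := ⟨_, rfl⟩
  have hs0 : 0 < s := by rw [hs]; positivity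
  have hs1 : exp (2 * (ε * l)) ≤ s := by
    rw [hs, le_div_iff₀ hn0, hne, ← Real.exp_add]
    calc exp (2 * (ε * l) + l) = exp (l * (1 / 2 + ε)) ^ 2 := by
          rw [← Real.exp_nat_mul]; congr 1; push_cast; ring
      _ ≤ r ^ 2 := pow_le_pow_left₀ (Real.exp_pos _).le hr1 2
  have hrn : r * exp (ε * l) ≤ n := by
    rw [hne]
    calc r * exp (ε * l) ≤ exp (l * (1 - ε)) * exp (ε * l) := by gcongr
      _ = exp l := by rw [← Real.exp_add]; congr 1; ring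
  have hsr : s * exp (ε * l) ≤ r := by
    rw [hs, div_mul_eq_mul_div, div_le_iff₀ hn0]
    calc r ^ 2 * exp (ε * l) = r * (r * exp (ε * l)) := by ring
      _ ≤ r * n := by gcongr
  have hE1 : 1 ≤ exp (ε * l) := Real.one_le_exp (by positivity)
  obtain ⟨m, hm⟩ : ∃ m, m = ⌊s * G ^ 2⌋₊ := ⟨_, rfl⟩
  have hx0 : 0 < s * G ^ 2 := by positivity
  have hx1 : exp (2 * (ε * l)) * G ≤ s * G ^ 2 := by
    calc exp (2 * (ε * l)) * G ≤ s * G := by gcongr
      _ ≤ s * G ^ 2 := by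
        apply mul_le_mul_of_nonneg_left _ hs0.le
        nlinarith
  have hE2 : exp (2 * (ε * l)) = exp (ε * l) * exp (ε * l) := by
    rw [← Real.exp_add]; congr 1; ring
  have hmx : (m : ℝ) ≤ s * G ^ 2 := by rw [hm]; exact Nat.floor_le hx0.le
  have hxbig : 16 ≤ s * G ^ 2 := by
    refine le_trans ?_ hx1
    have : 1 ≤ exp (2 * (ε * l)) := Real.one_le_exp (by positivity)
    nlinarith
  have hmx2 : s * G ^ 2 ≤ 2 * m := by
    have h1 := Nat.lt_floor_add_one (s * G ^ 2)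
    rw [← hm] at h1
    linarith
  have hmE : exp (ε * l) ≤ m := by
    have a1 : 2 * exp (ε * l) ≤ exp (2 * (ε * l)) * G := by
      rw [hE2]
      calc 2 * exp (ε * l) ≤ G * exp (ε * l) := by gcongr; linarith
        _ = exp (ε * l) * 1 * G := by ring
        _ ≤ exp (ε * l) * exp (ε * l) * G := by gcongr
    linarith
  have hmK : K' ≤ m := hKG.trans (hG2.trans hmE)
  have hm0 : (0 : ℝ) < m := by linarith
  have hm16 : (16 : ℝ) ≤ m := by linarith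
  have hm2 : 2 ≤ m := by
    have : (2 : ℝ) ≤ m := by linarith
    exact_mod_cast this
  have hmm0 : m0 ≤ m := by
    have : (m0 : ℝ) ≤ m := by rw [hK'] at hmK; linarith
    exact_mod_cast this
  have hmn : (m : ℝ) ≤ n := by
    -- `s G² ≤ s exp (2 ε l) ≤ n`
    calc (m : ℝ) ≤ s * G ^ 2 := hmx
      _ ≤ s * exp (ε * l) ^ 2 := by gcongr
      _ = (s * exp (ε * l)) * exp (ε * l) := by ring
      _ ≤ r * exp (ε * l) := by gcongr
      _ ≤ n := hrn
  have hlm : log (m : ℝ) ≤ l := by rw [hl]; exact Real.log_le_log hm0 hmn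
  have hlm1 : ε * l ≤ log (m : ℝ) := by
    rw [Real.le_log_iff_exp_le hm0]
    exact hmE
  have hlm2 : 1 < log (m : ℝ) := by
    have h1 := Real.log_le_log (by norm_num : (0 : ℝ) < 16) hm16
    rw [show (16 : ℝ) = 2 ^ 4 by norm_num, Real.log_pow] at h1
    have := Real.log_two_gt_d9
    push_cast at h1
    linarith
  have hlm0 : 0 < log (m : ℝ) := by linarith
  have hllm0 : 0 < log (log (m : ℝ)) := Real.log_pos hlm2
  have hllm : log (log (m : ℝ)) ≤ v := by rw [hv]; exact Real.log_le_log hlm0 hlm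
  have hmsm : 1 / ms m ≤ m / G ^ 2 := by
    refine (hms m hmm0).trans ?_
    rw [le_div_iff₀ (by positivity), hG, ← Real.exp_nat_mul, ← Real.exp_add]
    rw [← Real.exp_log hm0, Real.exp_le_exp, Real.exp_log hm0]
    have a1 : 2 * (a * l / v) ≤ c0 / log (log m) * log m := by
      have e1 : 2 * (a * l / v) = c0 * ((ε * l) / v) := by rw [ha]; ring
      have e2 : c0 / log (log (m : ℝ)) * log m = c0 * (log m / log (log m)) := by ring
      rw [e1, e2]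
      exact mul_le_mul_of_nonneg_left (div_le_div₀ hlm0.le hlm1 hllm0 hllm) hc0.le
    push_cast
    linarith
  obtain ⟨y, hy⟩ : ∃ y, y = log (m : ℝ) ^ 2 / ms m := ⟨_, rfl⟩
  have hmsp := ms_pos hm2
  have hy0 : 0 ≤ y := by rw [hy]; positivity
  have hy1 : y ≤ l ^ 2 * (m / G ^ 2) := by
    rw [hy, div_eq_mul_one_div]
    exact mul_le_mul (pow_le_pow_left₀ hlm0.le hlm 2) hmsm (by positivity) (by positivity)
  have hy2 : y ≤ l ^ 2 * s := by
    refine hy1.trans ?_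
    gcongr
    rw [div_le_iff₀ (by positivity)]
    exact hmx
  have h2 := hmain m hm2
  rw [← hy] at h2
  have hK1' : K1 ≤ K' := by rw [hK']; linarith
  have hK4 : 4 * K1 ≤ K' := by rw [hK']; linarith
  have hl24 : l ^ 2 ≤ l ^ 4 := pow_le_pow_right₀ hl1 (by norm_num)
  have hl34 : l ^ 3 ≤ l ^ 4 := pow_le_pow_right₀ hl1 (by norm_num)
  have hc1 : K1 * y ≤ r := by
    refine le_trans ?_ hsr
    calc K1 * y ≤ K' * (l ^ 4 * s) := by
          apply mul_le_mul hK1' _ hy0 (by linarith)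
          refine hy2.trans ?_
          gcongr
      _ = s * (K' * l ^ 4) := by ring
      _ ≤ s * exp (ε * l) := by
          gcongr
          exact hG1.trans hG2
  have hsn : s * n = r ^ 2 := by rw [hs]; field_simp
  have hc2 : K1 * n * y ^ 2 ≤ m * r ^ 2 := by
    calc K1 * n * y ^ 2 = (K1 * n) * (y * y) := by ring
      _ ≤ (K1 * n) * ((l ^ 2 * (m / G ^ 2)) * (l ^ 2 * s)) := by
          apply mul_le_mul_of_nonneg_left _ (by positivity)
          exact mul_le_mul hy1 hy2 hy0 (by positivity)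
      _ = (K1 * l ^ 4 / G ^ 2) * (m * (s * n)) := by ring
      _ ≤ 1 * (m * (s * n)) := by
          apply mul_le_mul_of_nonneg_right _ (by positivity)
          rw [div_le_one (by positivity)]
          calc K1 * l ^ 4 ≤ K' * l ^ 4 := by gcongr
            _ ≤ G := hG1
            _ ≤ G ^ 2 := by nlinarith
      _ = _ := by rw [one_mul, hsn]
  refine le_trans ?_ (h2 n r hc1 hc2)
  apply Real.exp_le_exp.2
  apply neg_le_neg
  have hnm : (n : ℝ) / m ≤ 2 * (n / r) ^ 2 / G ^ 2 := by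
    rw [div_le_iff₀ hm0]
    have a1 : 2 * ((n : ℝ) / r) ^ 2 / G ^ 2 * m = (n / r) ^ 2 / G ^ 2 * (2 * m) := by ring
    rw [a1]
    calc (n : ℝ) = (n / r) ^ 2 / G ^ 2 * (s * G ^ 2) := by
          rw [hs]; field_simp
      _ ≤ _ := by gcongr
  have hq : ((n : ℝ) / r) ^ 2 = (n / r) ^ 2 := rfl
  have hnr : exp (ε * l) ^ 2 ≤ ((n : ℝ) / r) ^ 2 := by
    apply pow_le_pow_left₀ (Real.exp_pos _).le
    rw [le_div_iff₀ hr0]
    linarith
  obtain ⟨Q, hQ⟩ : ∃ Q, Q = ((n : ℝ) / r) ^ 2 := ⟨_, rfl⟩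
  rw [← hQ] at hnm hnr ⊢
  have hQ0 : 0 < Q := by rw [hQ]; positivity
  have hGi : exp (l * -(a / v)) = 1 / G := by
    rw [hG, one_div, ← Real.exp_neg]; congr 1; ring
  rw [hGi]
  have hGQ : G * G ≤ Q := by
    refine le_trans ?_ hnr
    nlinarith
  have hl3 : log (m : ℝ) ^ 3 ≤ l ^ 3 := pow_le_pow_left₀ hlm0.le hlm 3
  have hk3 : 4 * (K1 * l ^ 3) ≤ G := by
    calc 4 * (K1 * l ^ 3) = (4 * K1) * l ^ 3 := by ring
      _ ≤ K' * l ^ 4 := mul_le_mul hK4 hl34 (by positivity) (by linarith)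
      _ ≤ G := hG1
  have hk0 : 0 ≤ K1 * l ^ 3 := by positivity
  calc K1 * (1 + n / m) * log m ^ 3 ≤ K1 * (1 + 2 * Q / G ^ 2) * l ^ 3 := by gcongr
    _ = K1 * l ^ 3 + 2 * (K1 * l ^ 3) * Q / G ^ 2 := by ring
    _ ≤ G / 4 + (G / 2) * Q / G ^ 2 := by
        apply add_le_add
        · linarith
        · gcongr
          linarith
    _ = G / 4 + Q / (2 * G) := by field_simp
    _ ≤ Q / (4 * G) + Q / (2 * G) := by
        apply add_le_add_left
        rw [div_le_div_iff₀ (by norm_num) (by positivity)]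
        nlinarith
    _ ≤ Q * (1 / G) := by
        have : 0 ≤ Q / G := by positivity
        have e1 : Q / (4 * G) = (Q / G) / 4 := by field_simp
        have e2 : Q / (2 * G) = (Q / G) / 2 := by field_simp
        rw [e1, e2, mul_one_div]
        linarith

end Pool.Agent.H315.SAW
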