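import Pool.Agent.H315.SAW.Chain

/-!
Two-sided bounds for the number of self-avoiding words in a strip, in terms of the correlation length.
-/

set_option autoImplicit false

namespace Pool.Agent.H315.SAW

open Pool.Agent.TH795.EP Pool.Agent.TH795.EP2 Pool.Agent.Y981.L2 H981 Finset Filter Topology

theorem abs_dy_le (w : List St) : |dy w| ≤ w.length := by
  induction w with
  | nil => simp
  | cons s w ih =>
    rw [dy_cons, List.length_cons]
    rw [abs_le] at ih ⊢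
    push_cast
    have : -1 ≤ s.y ∧ s.y ≤ 1 := by cases s <;> decide
    constructor <;> omega

theorem br_min {n m : ℕ} (hn : n ≤ m) (a : ℕ) :
    br n (-(a : ℤ)) a ≤ br n (-((min a m : ℕ) : ℤ)) (min a m : ℕ) := by
  unfold br
  apply Finset.card_le_card
  intro w hw
  rw [mem_fs] at hw ⊢
  refine ⟨⟨hw.1.1, fun u hu => ?_⟩, hw.2⟩
  have h1 := hw.1.2 u hu
  have h2 := abs_dy_le u
  have h3 := hu.length_le
  rw [abs_le] at h2
  rcases le_total a m with h | h
  · rw [min_eq_left h]; exact h1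
  · rw [min_eq_right h]
    constructor <;> omega

/-- the inverse correlation length at distance `1/m` -/
noncomputable def ms (m : ℕ) : ℝ := Y981.L2.mass (1 / (m : ℝ))

theorem ms_pos {m : ℕ} (hm : 2 ≤ m) : 0 < ms m := by
  have : (0 : ℝ) < m := by exact_mod_cast (by omega : 0 < m)
  exact Y981.L2.mass_pos (by positivity)

theorem q_two {m : ℕ} (hm : 2 ≤ m) : (2 : ℝ) ≤ q m 3 := by
  have h := pow_le_q hm 1
  have h2 : (2 : ℝ) ≤ m := by exact_mod_cast hm
  norm_num at h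
  linarith

theorem q_zero (m : ℕ) : q m 0 = 1 := by unfold q; simp

/-- many narrow bridges -/
theorem narrow_many : ∃ K : ℝ, 0 ≤ K ∧ ∀ m : ℕ, 2 ≤ m → ∀ j ≤ m, ∀ R : ℕ,
    K * Real.log m ^ 2 / ms m ≤ R →
    mu ^ j * q m (-K) ≤ br j (-((min R m : ℕ) : ℤ)) (min R m : ℕ) := by
  obtain ⟨K, hK, hup, hlow, hwide⟩ := exists_C
  refine ⟨4 * (4 * K + 6) + 1, by positivity, ?_⟩
  intro m hm j hj R hR
  have hmu := mu_pos
  have hM := ms_pos hm
  obtain ⟨L, hL⟩ : ∃ L, L = Real.log (m : ℝ) ^ 2 := ⟨_, rfl⟩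
  have hL0 : 0 < L := by rw [hL]; exact pow_pos (log_pos' hm) 2
  obtain ⟨r, hr⟩ : ∃ r, r = 4 * (4 * K + 6) * L / ms m := ⟨_, rfl⟩
  have hr0 : 0 < r := by rw [hr]; positivity
  have e1 : Real.exp (-(r * Y981.L2.mass (1 / m) / 4)) = q m (-(4 * K + 6)) := by
    unfold q
    congr 1
    change -(r * ms m / 4) = _
    rw [hr, ← hL]
    field_simp
  have h1 := wide_bridges hj r
  have h2 := hwide m hm r hr0.le
  rw [e1, q_mul] at h2
  have hcm := c_pos m
  have h3 : ((fs (fun w => Saw w ∧ Wide r w) m).card : ℝ) ≤ mu ^ m * q m (-(2 * K + 6)) := by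
    have h4 : ((fs (fun w => Saw w ∧ Wide r w) m).card : ℝ) = dfar m r * c m := by
      unfold dfar
      rw [div_mul_cancel₀ _ hcm.ne']
    rw [h4]
    calc dfar m r * c m ≤ q m (K + -(4 * K + 6)) * (mu ^ m * q m K) :=
          mul_le_mul h2 (hup m hm m le_rfl) hcm.le (q_pos _ _).le
      _ = mu ^ m * (q m (K + -(4 * K + 6)) * q m K) := by ring
      _ = _ := by rw [q_mul]; congr 2; ring
  have h5 : ((fs (fun w => IsB w ∧ Wide r w) j).card : ℝ) * bw (m - j) ≤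
      mu ^ m * q m (-(2 * K + 6)) := le_trans (by exact_mod_cast h1) h3
  have h6 := hlow m hm (m - j) (by omega)
  have h7 : ((fs (fun w => IsB w ∧ Wide r w) j).card : ℝ) ≤ mu ^ j * q m (-(K + 6)) := by
    have hp : 0 < mu ^ (m - j) * q m (-K) := mul_pos (pow_pos hmu _) (q_pos _ _)
    have h8 : ((fs (fun w => IsB w ∧ Wide r w) j).card : ℝ) * (mu ^ (m - j) * q m (-K)) ≤
        (mu ^ j * q m (-(K + 6))) * (mu ^ (m - j) * q m (-K)) := by
      calc ((fs (fun w => IsB w ∧ Wide r w) j).card : ℝ) * (mu ^ (m - j) * q m (-K))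
          ≤ ((fs (fun w => IsB w ∧ Wide r w) j).card : ℝ) * bw (m - j) :=
            mul_le_mul_of_nonneg_left h6 (Nat.cast_nonneg _)
        _ ≤ mu ^ m * q m (-(2 * K + 6)) := h5
        _ = (mu ^ j * mu ^ (m - j)) * (q m (-(K + 6)) * q m (-K)) := by
            rw [q_mul, ← pow_add, show j + (m - j) = m by omega]
            congr 2
            ring
        _ = _ := by ring
    exact le_of_mul_le_mul_right h8 hp
  have h8 := hlow m hm j hj
  have h9 := narrow m j hr0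
  have h10 : (bw j : ℝ) ≤ (fs (fun w => IsB w ∧ Wide r w) j).card +
      br j (-(⌊r⌋₊ : ℤ)) ⌊r⌋₊ := by exact_mod_cast h9
  have h11 : br j (-(⌊r⌋₊ : ℤ)) ⌊r⌋₊ ≤ br j (-((min R m : ℕ) : ℤ)) (min R m : ℕ) := by
    refine le_trans (br_mono ?_ ?_) (br_min hj R)
    · have : ⌊r⌋₊ ≤ R := by
        apply Nat.floor_le_of_le
        refine le_trans ?_ hR
        rw [hr, hL]
        apply div_le_div_of_nonneg_right _ hM.le
        rw [← hL]
        nlinarith
      omega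
    · have : ⌊r⌋₊ ≤ R := by
        apply Nat.floor_le_of_le
        refine le_trans ?_ hR
        rw [hr, hL]
        apply div_le_div_of_nonneg_right _ hM.le
        rw [← hL]
        nlinarith
      omega
  have h12 : (br j (-(⌊r⌋₊ : ℤ)) ⌊r⌋₊ : ℝ) ≤ br j (-((min R m : ℕ) : ℤ)) (min R m : ℕ) := by
    exact_mod_cast h11
  refine le_trans ?_ h12
  have e2 : q m (-(K + 6)) = q m (-K) * q m (-3) * q m (-3) := by
    rw [q_mul, q_mul]; congr 1; ring
  have h13 : q m (-3) ≤ 1 / 2 := by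
    have := q_two hm
    have e : q m 3 * q m (-3) = 1 := by rw [q_mul, add_neg_cancel, q_zero]
    have h0 := q_pos m (-3)
    nlinarith
  have h14 : q m (-(4 * (4 * K + 6) + 1)) ≤ q m (-K) * q m (-3) := by
    rw [q_mul]
    exact q_mono hm (by linarith)
  have hj0 : 0 < mu ^ j := pow_pos hmu j
  have hq0 := q_pos m (-K)
  have hq3 := q_pos m (-3)
  have h15 : mu ^ j * q m (-(K + 6)) ≤ mu ^ j * q m (-K) * (1 / 4) := by
    have e3 : mu ^ j * q m (-(K + 6)) = mu ^ j * q m (-K) * (q m (-3) * q m (-3)) := by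
      rw [e2]; ring
    rw [e3]
    apply mul_le_mul_of_nonneg_left _ (mul_pos hj0 hq0).le
    nlinarith
  have h16 : mu ^ j * q m (-(4 * (4 * K + 6) + 1)) ≤ mu ^ j * q m (-K) * (1 / 2) := by
    calc mu ^ j * q m (-(4 * (4 * K + 6) + 1)) ≤ mu ^ j * (q m (-K) * q m (-3)) :=
          mul_le_mul_of_nonneg_left h14 hj0.le
      _ ≤ mu ^ j * (q m (-K) * (1 / 2)) := by gcongr
      _ = _ := by ring
  have h17 : 0 < mu ^ j * q m (-K) := mul_pos hj0 hq0
  linarith

/-- **Lower bound.** -/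
theorem S_lower : ∃ K : ℝ, 0 < K ∧ ∀ m : ℕ, 2 ≤ m → ∀ h : ℕ, K * Real.log m ^ 2 / ms m ≤ h →
    ∀ n : ℕ, mu ^ n * Real.exp (-(K * (((n / m : ℕ) : ℝ) + 1) * Real.log m ^ 2)) ≤ S h n := by
  obtain ⟨K, hK, hnar⟩ := narrow_many
  have hl2 : 0 < Real.log 2 := Real.log_pos (by norm_num)
  obtain ⟨M1, hM1⟩ : ∃ M1, M1 = Y981.L2.mass 1 := ⟨_, rfl⟩
  have hM10 : 0 < M1 := by rw [hM1]; exact Y981.L2.mass_pos one_pos
  refine ⟨4 * K + 9 + 4 * M1 / Real.log 2 ^ 2, by positivity, ?_⟩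
  intro m hm h hh n
  have hmu := mu_pos
  have hM := ms_pos hm
  have hMM : ms m ≤ M1 := by
    rw [hM1]
    have : (1 : ℝ) ≤ m := by exact_mod_cast (by omega : 1 ≤ m)
    exact Y981.L2.mass_mono (by positivity) (by rw [div_le_one (by linarith)]; exact this)
  obtain ⟨L, hL⟩ : ∃ L, L = Real.log (m : ℝ) ^ 2 := ⟨_, rfl⟩
  have hL0 : 0 < L := by rw [hL]; exact pow_pos (log_pos' hm) 2
  have hLl : Real.log 2 ^ 2 ≤ L := by
    rw [hL]; exact pow_le_pow_left₀ hl2.le (log_ge hm) 2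
  rw [← hL] at hh ⊢
  obtain ⟨R, hR⟩ : ∃ R : ℕ, R = ⌈K * L / ms m⌉₊ := ⟨_, rfl⟩
  have hR1 : K * L / ms m ≤ R := by rw [hR]; exact Nat.le_ceil _
  have hR2 : (R : ℝ) ≤ K * L / ms m + 1 := by
    rw [hR]; exact (Nat.ceil_lt_add_one (by positivity)).le
  have h4R : 4 * min R m ≤ h := by
    have h1 : (4 : ℝ) * R ≤ h := by
      refine le_trans ?_ hh
      have h2 : (1 : ℝ) ≤ M1 / Real.log 2 ^ 2 * L / ms m := by
        rw [le_div_iff₀ hM, one_mul]
        calc ms m ≤ M1 := hMM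
          _ = M1 / Real.log 2 ^ 2 * Real.log 2 ^ 2 := by field_simp
          _ ≤ _ := by gcongr
      have h3 : (4 * K + 9 + 4 * M1 / Real.log 2 ^ 2) * L / ms m =
          4 * (K * L / ms m) + 9 * L / ms m + 4 * (M1 / Real.log 2 ^ 2 * L / ms m) := by ring
      have h4 : 0 ≤ 9 * L / ms m := by positivity
      rw [h3]
      linarith
    have h2 : 4 * R ≤ h := by exact_mod_cast h1
    have h3 : min R m ≤ R := min_le_left _ _
    omega
  rw [hL] at hR1
  have hY := hnar m hm (n % m) (Nat.mod_lt _ (by omega)).le R hR1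
  have hX := hnar m hm m le_rfl R hR1
  obtain ⟨d, hd, hd2⟩ := exists_d m (min R m) (min_le_right _ _)
  have hX2 : mu ^ m * q m (-(K + 9)) ≤ bd m (-((min R m : ℕ) : ℤ)) (min R m : ℕ) d := by
    have h1 : (br m (-((min R m : ℕ) : ℤ)) (min R m : ℕ) : ℝ) ≤
        (2 * m + 1) * bd m (-((min R m : ℕ) : ℤ)) (min R m : ℕ) d := by exact_mod_cast hd2
    have h2 : (2 * (m : ℝ) + 1) ≤ q m 9 := by
      have h3 := pow_le_q hm 3
      have h4 : (2 : ℝ) ≤ m := by exact_mod_cast hm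
      norm_num at h3
      nlinarith [mul_nonneg (show (0 : ℝ) ≤ m by linarith) (sub_nonneg.2 h4),
        mul_nonneg (mul_nonneg (show (0 : ℝ) ≤ m by linarith) (show (0 : ℝ) ≤ m by linarith))
          (sub_nonneg.2 h4)]
    have h5 : mu ^ m * q m (-K) ≤ q m 9 * bd m (-((min R m : ℕ) : ℤ)) (min R m : ℕ) d := by
      refine hX.trans (h1.trans ?_)
      gcongr
    have h6 := q_pos m (-9)
    have e1 : q m (-(K + 9)) = q m (-K) * q m (-9) := by rw [q_mul]; congr 1; ring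
    have e2 : q m 9 * q m (-9) = 1 := by rw [q_mul, add_neg_cancel, q_zero]
    calc mu ^ m * q m (-(K + 9)) = (mu ^ m * q m (-K)) * q m (-9) := by rw [e1]; ring
      _ ≤ (q m 9 * bd m (-((min R m : ℕ) : ℤ)) (min R m : ℕ) d) * q m (-9) := by gcongr
      _ = (q m 9 * q m (-9)) * bd m (-((min R m : ℕ) : ℤ)) (min R m : ℕ) d := by ring
      _ = _ := by rw [e2, one_mul]
  have hch := (chain m (n % m) (min R m) d hd (n / m)).1
  have hS := hch.trans (br_le_S (m * (n / m) + n % m) (min R m) h h4R)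
  rw [Nat.div_add_mod] at hS
  have hS' : ((bd m (-((min R m : ℕ) : ℤ)) (min R m : ℕ) d : ℝ)) ^ (n / m) *
      br (n % m) (-((min R m : ℕ) : ℤ)) (min R m : ℕ) ≤ S h n := by exact_mod_cast hS
  refine le_trans ?_ hS'
  have hqK := q_pos m (-(K + 9))
  calc mu ^ n * Real.exp (-((4 * K + 9 + 4 * M1 / Real.log 2 ^ 2) * (((n / m : ℕ) : ℝ) + 1) * L))
      ≤ mu ^ n * Real.exp (((n / m : ℕ) : ℝ) * (-(K + 9) * L) + (-K) * L) := by
        gcongr
        have h1 : (0 : ℝ) ≤ ((n / m : ℕ) : ℝ) := Nat.cast_nonneg _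
        have h2 : 0 ≤ 4 * M1 / Real.log 2 ^ 2 := by positivity
        have h3 : 0 ≤ (3 * K + 4 * M1 / Real.log 2 ^ 2) * ((n / m : ℕ) : ℝ) * L := by positivity
        have h4 : 0 ≤ (3 * K + 9 + 4 * M1 / Real.log 2 ^ 2) * L := by positivity
        nlinarith
    _ = (mu ^ m * q m (-(K + 9))) ^ (n / m) * (mu ^ (n % m) * q m (-K)) := by
        unfold q
        rw [mul_pow, ← Real.exp_nat_mul, Real.exp_add, ← hL, ← pow_mul]
        have e : mu ^ n = mu ^ (m * (n / m)) * mu ^ (n % m) := by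
          rw [← pow_add, Nat.div_add_mod]
        rw [e]
        ring
    _ ≤ _ := by
        have z1 : 0 ≤ mu ^ m * q m (-(K + 9)) := (mul_pos (pow_pos hmu _) hqK).le
        have z2 : 0 ≤ mu ^ (n % m) * q m (-K) := (mul_pos (pow_pos hmu _) (q_pos _ _)).le
        exact mul_le_mul (pow_le_pow_left₀ z1 hX2 _) hY z2 (by positivity)

/-- **Upper bound.** -/
theorem S_upper : ∃ K : ℝ, 0 < K ∧ ∀ m : ℕ, 2 ≤ m → ∀ h : ℕ,
    K * ((h : ℝ) + 1) * Real.log m ^ 2 / ms m ≤ m →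
    ∀ n : ℕ, (S h n : ℝ) ≤ mu ^ n * Real.exp ((K - ((n / m : ℕ) : ℝ)) * Real.log m ^ 2) := by
  obtain ⟨K, hK, hup, hlow, hwide⟩ := exists_C
  have hl2 : 0 < Real.log 2 := Real.log_pos (by norm_num)
  obtain ⟨M1, hM1⟩ : ∃ M1, M1 = Y981.L2.mass 1 := ⟨_, rfl⟩
  have hM10 : 0 < M1 := by rw [hM1]; exact Y981.L2.mass_pos one_pos
  refine ⟨4 * (2 * K + 1) + M1 / Real.log 2 ^ 2, by positivity, ?_⟩
  intro m hm h hh n
  have hmu := mu_pos
  have hM := ms_pos hm
  have hMM : ms m ≤ M1 := by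
    rw [hM1]
    have : (1 : ℝ) ≤ m := by exact_mod_cast (by omega : 1 ≤ m)
    exact Y981.L2.mass_mono (by positivity) (by rw [div_le_one (by linarith)]; exact this)
  obtain ⟨L, hL⟩ : ∃ L, L = Real.log (m : ℝ) ^ 2 := ⟨_, rfl⟩
  have hL0 : 0 < L := by rw [hL]; exact pow_pos (log_pos' hm) 2
  have hLl : Real.log 2 ^ 2 ≤ L := by
    rw [hL]; exact pow_le_pow_left₀ hl2.le (log_ge hm) 2
  rw [← hL] at hh ⊢
  obtain ⟨r, hr⟩ : ∃ r, r = 4 * (2 * K + 1) * L / ms m := ⟨_, rfl⟩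
  have hr0 : 0 < r := by rw [hr]; positivity
  have e1 : Real.exp (-(r * Y981.L2.mass (1 / m) / 4)) = q m (-(2 * K + 1)) := by
    unfold q
    congr 1
    change -(r * ms m / 4) = _
    rw [hr, ← hL]
    field_simp
  have hh0 : (0 : ℝ) ≤ h := Nat.cast_nonneg h
  have hcond : ((h : ℝ) + 1) * (r + 1) < m + 1 := by
    have h2 : (1 : ℝ) ≤ M1 / Real.log 2 ^ 2 * L / ms m := by
      rw [le_div_iff₀ hM, one_mul]
      calc ms m ≤ M1 := hMM
        _ = M1 / Real.log 2 ^ 2 * Real.log 2 ^ 2 := by field_simp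
        _ ≤ _ := by gcongr
    have h3 : (4 * (2 * K + 1) + M1 / Real.log 2 ^ 2) * ((h : ℝ) + 1) * L / ms m =
        ((h : ℝ) + 1) * (r + M1 / Real.log 2 ^ 2 * L / ms m) := by rw [hr]; ring
    rw [h3] at hh
    have h4 : ((h : ℝ) + 1) * (r + 1) ≤ ((h : ℝ) + 1) * (r + M1 / Real.log 2 ^ 2 * L / ms m) := by
      gcongr
    linarith
  have h1 := S_le_dfar hr0 hcond
  have h2 := hwide m hm r hr0.le
  rw [e1, q_mul] at h2
  have hcm := c_pos m
  have h3 : (S h m : ℝ) ≤ mu ^ m * q m (-1) := by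
    refine h1.trans ?_
    calc dfar m r * c m ≤ q m (K + -(2 * K + 1)) * (mu ^ m * q m K) :=
          mul_le_mul h2 (hup m hm m le_rfl) hcm.le (q_pos _ _).le
      _ = mu ^ m * (q m (K + -(2 * K + 1)) * q m K) := by ring
      _ = _ := by rw [q_mul]; congr 2; ring
  have h4 := S_mul_le h m (n / m) (n % m)
  rw [Nat.div_add_mod] at h4
  have h5 : (S h n : ℝ) ≤ (S h m : ℝ) ^ (n / m) * S h (n % m) := by exact_mod_cast h4
  have h6 : (S h (n % m) : ℝ) ≤ mu ^ (n % m) * q m K :=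
    le_trans (by exact_mod_cast S_le_c h (n % m)) (hup m hm _ (Nat.mod_lt _ (by omega)).le)
  refine h5.trans ?_
  have z1 : 0 ≤ mu ^ m * q m (-1) := (mul_pos (pow_pos hmu _) (q_pos _ _)).le
  calc (S h m : ℝ) ^ (n / m) * S h (n % m) ≤ (mu ^ m * q m (-1)) ^ (n / m) *
        (mu ^ (n % m) * q m K) :=
          mul_le_mul (pow_le_pow_left₀ (Nat.cast_nonneg _) h3 _) h6 (Nat.cast_nonneg _)
            (pow_nonneg z1 _)
    _ = mu ^ n * Real.exp ((K - ((n / m : ℕ) : ℝ)) * L) := by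
        unfold q
        rw [mul_pow, ← Real.exp_nat_mul, ← hL, ← pow_mul]
        have e : mu ^ n = mu ^ (m * (n / m)) * mu ^ (n % m) := by
          rw [← pow_add, Nat.div_add_mod]
        have e2 : Real.exp ((K - ((n / m : ℕ) : ℝ)) * L) =
            Real.exp (((n / m : ℕ) : ℝ) * (-1 * L)) * Real.exp (K * L) := by
          rw [← Real.exp_add]; congr 1; ring
        rw [e, e2]
        ring
    _ ≤ _ := by
        gcongr
        have : 0 ≤ M1 / Real.log 2 ^ 2 := by positivity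
        linarith

end Pool.Agent.H315.SAW
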