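import Pool.Agent.H315.SAW.Low

/-!
Chains of bridges in a strip.
-/

set_option autoImplicit false

namespace Pool.Agent.H315.SAW

open Pool.Agent.TH795.EP Pool.Agent.TH795.EP2 Pool.Agent.Y981.L2 H981 Finset Filter Topology

/-- number of bridges of length `n` -/
noncomputable def bw (n : ℕ) : ℕ := (fs IsB n).card

theorem bw_eq (n : ℕ) : (bw n : ℝ) = br' n := by
  rw [br'_eq, B_card_eq]
  congr 1
  unfold bw
  rw [← Nat.card_eq_finsetCard]
  apply Nat.card_congr
  apply Equiv.subtypeEquivRight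
  intro w
  exact mem_fs

/-- all the constants in one -/
theorem exists_C : ∃ K : ℝ, 0 ≤ K ∧ (∀ n : ℕ, 2 ≤ n → ∀ k ≤ n, (c k : ℝ) ≤ mu ^ k * q n K) ∧
    (∀ n : ℕ, 2 ≤ n → ∀ k ≤ n, mu ^ k * q n (-K) ≤ bw k) ∧
    ∀ n : ℕ, 2 ≤ n → ∀ r : ℝ, 0 ≤ r →
      dfar n r ≤ q n K * Real.exp (-(r * Y981.L2.mass (1 / n) / 4)) := by
  obtain ⟨K1, hK1, hup, -⟩ := exists_K
  obtain ⟨K2, hK2, h2⟩ := Pool.Agent.TH508.LT.sq_lower2
  obtain ⟨K3, hK3, h3⟩ := Y981.L2.dfar_le
  obtain ⟨K4, hK4, h4⟩ := Y981.L2X.far_upper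
  have hmu := mu_pos
  have hmu1 := one_le_mu
  obtain ⟨A, hA⟩ : ∃ A, A = Real.log mu := ⟨_, rfl⟩
  have hA0 : 0 ≤ A := by rw [hA]; exact Real.log_nonneg hmu1
  obtain ⟨D, hD⟩ : ∃ D, D = A / Real.log 2 ^ 2 := ⟨_, rfl⟩
  have hl2 : 0 < Real.log 2 := Real.log_pos (by norm_num)
  have hD0 : 0 ≤ D := by rw [hD]; positivity
  refine ⟨K1 + K2 + K3 + K4 + D, by positivity, ?_, ?_, ?_⟩
  · intro n hn k hk
    refine (hup n hn k hk).trans (mul_le_mul_of_nonneg_left (q_mono hn (by linarith))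
      (pow_nonneg hmu.le _))
  · intro n hn k hk
    rw [bw_eq]
    rcases Nat.lt_or_ge k 2 with h | h
    · have h5 : (1 : ℝ) ≤ br' k := one_le_br' k
      refine le_trans ?_ h5
      have h6 : mu ^ k ≤ Real.exp A := by
        rw [hA, Real.exp_log hmu]
        calc mu ^ k ≤ mu ^ 1 := pow_le_pow_right₀ hmu1 (by omega)
          _ = mu := pow_one _
      have h7 : q n (-(K1 + K2 + K3 + K4 + D)) ≤ Real.exp (-A) := by
        unfold q
        apply Real.exp_le_exp.2
        have h8 := log_ge hn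
        have h9 : Real.log 2 ^ 2 ≤ Real.log n ^ 2 := pow_le_pow_left₀ hl2.le h8 2
        have h10 : A ≤ D * Real.log n ^ 2 := by
          calc A = D * Real.log 2 ^ 2 := by rw [hD]; field_simp
            _ ≤ _ := mul_le_mul_of_nonneg_left h9 hD0
        have h11 : 0 ≤ (K1 + K2 + K3 + K4) * Real.log n ^ 2 := by positivity
        linarith
      calc mu ^ k * q n (-(K1 + K2 + K3 + K4 + D)) ≤ Real.exp A * Real.exp (-A) :=
            mul_le_mul h6 h7 (q_pos _ _).le (Real.exp_pos _).le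
        _ = 1 := by rw [← Real.exp_add]; simp
    · refine le_trans ?_ (h2 k h)
      apply mul_le_mul_of_nonneg_left _ (pow_nonneg hmu.le _)
      unfold q
      apply Real.exp_le_exp.2
      have h8 : Real.log k ^ 2 ≤ Real.log n ^ 2 := by
        apply pow_le_pow_left₀ (log_pos' h).le
        exact Real.log_le_log (by exact_mod_cast (by omega : 0 < k)) (by exact_mod_cast hk)
      have h9 : K2 * Real.log k ^ 2 ≤ K2 * Real.log n ^ 2 := mul_le_mul_of_nonneg_left h8 hK2
      have h11 : 0 ≤ (K1 + K3 + K4 + D) * Real.log n ^ 2 := by positivity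
      linarith
  · intro n hn r hr
    refine (h3 n hn r).trans ?_
    refine (mul_le_mul_of_nonneg_left (h4 n hn r hr) (q_pos n K3).le).trans ?_
    unfold q
    rw [← Real.exp_add, ← Real.exp_add]
    apply Real.exp_le_exp.2
    have h11 : 0 ≤ (K1 + K2 + D) * Real.log n ^ 2 := by positivity
    linarith

/-- prefix heights -/
def Rg (lo hi : ℤ) (w : List St) : Prop := ∀ u, u <+: w → lo ≤ dy u ∧ dy u ≤ hi

theorem Rg.append {lo hi d : ℤ} {u v : List St} (hu : Rg lo hi u) (hd : dy u = d)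
    (hv : Rg (lo - d) (hi - d) v) : Rg lo hi (u ++ v) := by
  intro m hm
  rcases prefix_append_cases hm with h | ⟨v', hv', -, rfl⟩
  · exact hu m h
  · have := hv v' hv'
    rw [dy_append, hd]
    omega

theorem Rg.mono {lo hi lo' hi' : ℤ} {w : List St} (h : Rg lo hi w) (h1 : lo' ≤ lo) (h2 : hi ≤ hi') :
    Rg lo' hi' w := fun u hu => by have := h u hu; omega

theorem Rg.low {lo hi : ℤ} {w : List St} (h : Rg lo hi w) {k : ℕ} (hk : hi - lo ≤ k) : Low k w := by
  intro m hm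
  obtain ⟨s, t, rfl⟩ := hm
  have h1 := h s ⟨m ++ t, by simp⟩
  have h2 := h (s ++ m) ⟨t, by simp⟩
  rw [dy_append] at h2
  rw [abs_le]
  omega

theorem Rg.ng {lo hi : ℤ} {w : List St} (h : Rg lo hi w) : Rg (-hi) (-lo) (H981.ng w) := by
  intro u hu
  have h1 : H981.ng u <+: w := by
    have := hu.map St.ng
    change H981.ng u <+: H981.ng (H981.ng w) at this
    rwa [H981.ng_ng] at this
  have h2 := h _ h1
  rw [dy_ng] at h2
  omega

theorem rg_of_not_wide {r : ℝ} (hr : 0 < r) {w : List St} (hw : ¬ Wide r w) :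
    Rg (-(⌊r⌋₊ : ℤ)) ⌊r⌋₊ w := by
  intro u hu
  have h1 : u = w.take u.length := List.prefix_iff_eq_take.mp hu
  have h2 : path w u.length = (dx u, dy u) := by
    unfold path
    rw [← h1]
  have h3 : ¬ r ≤ ln2 ((path w u.length).1 - (path w 0).1, (path w u.length).2 - (path w 0).2) :=
    fun h => hw ⟨0, u.length, Nat.zero_le _, hu.length_le, h⟩
  rw [h2] at h3
  have h4 : path w 0 = (0, 0) := by simp [path]
  rw [h4] at h3
  push Not at h3
  have h5 : |((dy u : ℤ) : ℝ)| ≤ ln2 (dx u - 0, dy u - 0) := by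
    unfold ln2
    apply Real.abs_le_sqrt
    simp only [sub_zero]
    have := sq_nonneg ((dx u : ℤ) : ℝ)
    linarith
  have h6 : |dy u| ≤ ⌊r⌋ := by
    rw [Int.le_floor]
    push_cast
    linarith
  have h7 : (⌊r⌋ : ℤ) = (⌊r⌋₊ : ℕ) := (Int.natCast_floor_eq_floor hr.le).symm
  rw [h7, abs_le] at h6
  exact h6

/-- number of bridges of length `n` with prefix heights in `[lo, hi]` and end height `d` -/
noncomputable def bd (n : ℕ) (lo hi d : ℤ) : ℕ :=
  (fs (fun w => IsB w ∧ Rg lo hi w ∧ dy w = d) n).card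

/-- number of bridges of length `n` with prefix heights in `[lo, hi]` -/
noncomputable def br (n : ℕ) (lo hi : ℤ) : ℕ := (fs (fun w => IsB w ∧ Rg lo hi w) n).card

theorem br_mono {n : ℕ} {lo hi lo' hi' : ℤ} (h1 : lo' ≤ lo) (h2 : hi ≤ hi') :
    br n lo hi ≤ br n lo' hi' := by
  unfold br
  apply Finset.card_le_card
  intro w hw
  rw [mem_fs] at hw ⊢
  exact ⟨⟨hw.1.1, hw.1.2.mono h1 h2⟩, hw.2⟩

theorem br_append (n m : ℕ) (lo hi d : ℤ) :
    bd n lo hi d * br m (lo - d) (hi - d) ≤ br (n + m) lo hi := by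
  unfold bd br
  rw [← Finset.card_product]
  apply Finset.card_le_card_of_injOn (fun p => p.1 ++ p.2)
  · rintro ⟨u, v⟩ hp
    simp only [Finset.coe_product, Set.mem_prod, Finset.mem_coe, mem_fs] at hp
    simp only [Finset.mem_coe, mem_fs]
    obtain ⟨⟨⟨h1, h2, h3⟩, h4⟩, ⟨h5, h6⟩, h7⟩ := hp
    exact ⟨⟨h1.append h5, h2.append h3 h6⟩, by rw [List.length_append]; omega⟩
  · rintro ⟨u, v⟩ hp ⟨u', v'⟩ hp' he
    simp only [Finset.coe_product, Set.mem_prod, Finset.mem_coe, mem_fs] at hp hp' he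
    have h1 := List.append_inj he (by rw [hp.1.2, hp'.1.2])
    rw [h1.1, h1.2]

theorem bd_ng (n : ℕ) (lo hi d : ℤ) : bd n lo hi d ≤ bd n (-hi) (-lo) (-d) := by
  unfold bd
  apply card_le_of_decode H981.ng
  intro w hw
  rw [mem_fs] at hw
  obtain ⟨⟨h1, h2, h3⟩, h4⟩ := hw
  refine ⟨H981.ng w, ?_, by simp⟩
  rw [mem_fs]
  exact ⟨⟨isB_ng.2 h1, h2.ng, by rw [dy_ng, h3]⟩, by simpa using h4⟩

theorem bd_mono {n : ℕ} {lo hi lo' hi' d : ℤ} (h1 : lo' ≤ lo) (h2 : hi ≤ hi') :
    bd n lo hi d ≤ bd n lo' hi' d := by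
  unfold bd
  apply Finset.card_le_card
  intro w hw
  rw [mem_fs] at hw ⊢
  exact ⟨⟨hw.1.1, hw.1.2.1.mono h1 h2, hw.1.2.2⟩, hw.2⟩

/-- alternating chains -/
theorem chain (m j R : ℕ) (d : ℤ) (hd : |d| ≤ R) (k : ℕ) :
    (bd m (-R) R d) ^ k * br j (-R) R ≤ br (m * k + j) (-(2 * R)) (2 * R) ∧
    (bd m (-R) R d) ^ k * br j (-R) R ≤ br (m * k + j) (-(2 * R) - d) (2 * R - d) := by
  rw [abs_le] at hd
  have hR : (0 : ℤ) ≤ R := Nat.cast_nonneg R
  induction k with
  | zero =>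
    simp only [pow_zero, one_mul, mul_zero, zero_add]
    exact ⟨br_mono (by omega) (by omega), br_mono (by omega) (by omega)⟩
  | succ k ih =>
    obtain ⟨ih1, ih2⟩ := ih
    have e : m * (k + 1) + j = m + (m * k + j) := by ring
    rw [e, pow_succ]
    constructor
    · have h1 := br_append m (m * k + j) (-(2 * R)) (2 * R) d
      have h2 : bd m (-R) R d ≤ bd m (-(2 * R)) (2 * R) d := bd_mono (by omega) (by omega)
      calc bd m (-R) R d ^ k * bd m (-R) R d * br j (-R) R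
          = bd m (-R) R d * (bd m (-R) R d ^ k * br j (-R) R) := by ring
        _ ≤ bd m (-(2 * R)) (2 * R) d * br (m * k + j) (-(2 * R) - d) (2 * R - d) :=
            Nat.mul_le_mul h2 ih2
        _ ≤ _ := h1
    · have h1 := br_append m (m * k + j) (-(2 * R) - d) (2 * R - d) (-d)
      have h2 : bd m (-R) R d ≤ bd m (-(2 * R) - d) (2 * R - d) (-d) := by
        refine (bd_ng m (-R) R d).trans ?_
        rw [neg_neg]
        exact bd_mono (by omega) (by omega)
      have e1 : -(2 * (R : ℤ)) - d - -d = -(2 * R) := by ring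
      have e2 : 2 * (R : ℤ) - d - -d = 2 * R := by ring
      rw [e1, e2] at h1
      calc bd m (-R) R d ^ k * bd m (-R) R d * br j (-R) R
          = bd m (-R) R d * (bd m (-R) R d ^ k * br j (-R) R) := by ring
        _ ≤ bd m (-(2 * R) - d) (2 * R - d) (-d) * br (m * k + j) (-(2 * R)) (2 * R) :=
            Nat.mul_le_mul h2 ih1
        _ ≤ _ := h1

theorem br_le_S (n R h : ℕ) (hR : 4 * R ≤ h) : br n (-(2 * R)) (2 * R) ≤ S h n := by
  unfold br S
  apply Finset.card_le_card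
  intro w hw
  rw [mem_fs] at hw ⊢
  exact ⟨⟨hw.1.1.br.saw, hw.1.2.low (by push_cast; omega)⟩, hw.2⟩

/-- wide bridges -/
theorem wide_bridges {m j : ℕ} (hj : j ≤ m) (r : ℝ) :
    (fs (fun w => IsB w ∧ Wide r w) j).card * bw (m - j) ≤
      (fs (fun w => Saw w ∧ Wide r w) m).card := by
  unfold bw
  rw [← Finset.card_product]
  apply Finset.card_le_card_of_injOn (fun p => p.1 ++ p.2)
  · rintro ⟨u, v⟩ hp
    simp only [Finset.coe_product, Set.mem_prod, Finset.mem_coe, mem_fs] at hp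
    simp only [Finset.mem_coe, mem_fs]
    obtain ⟨⟨⟨h1, i, l, hil, hl, h2⟩, h4⟩, h5, h7⟩ := hp
    refine ⟨⟨(h1.append h5).br.saw, i, l, hil, ?_, ?_⟩, by rw [List.length_append]; omega⟩
    · rw [List.length_append]; omega
    · have e1 : path (u ++ v) l = path u l := by
        unfold path
        rw [List.take_append_of_le_length hl]
      have e2 : path (u ++ v) i = path u i := by
        unfold path
        rw [List.take_append_of_le_length (hil.trans hl)]
      rw [e1, e2]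
      exact h2
  · rintro ⟨u, v⟩ hp ⟨u', v'⟩ hp' he
    simp only [Finset.coe_product, Set.mem_prod, Finset.mem_coe, mem_fs] at hp hp' he
    have h1 := List.append_inj he (by rw [hp.1.2, hp'.1.2])
    rw [h1.1, h1.2]

/-- narrow bridges -/
theorem narrow (m j : ℕ) {r : ℝ} (hr : 0 < r) :
    bw j ≤ (fs (fun w => IsB w ∧ Wide r w) j).card + br j (-(⌊r⌋₊ : ℤ)) ⌊r⌋₊ := by
  classical
  unfold bw br
  refine le_trans (Finset.card_le_card ?_) (Finset.card_union_le _ _)
  intro w hw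
  rw [mem_fs] at hw
  rw [Finset.mem_union, mem_fs, mem_fs]
  by_cases h : Wide r w
  · exact Or.inl ⟨⟨hw.1, h⟩, hw.2⟩
  · exact Or.inr ⟨⟨hw.1, rg_of_not_wide hr h⟩, hw.2⟩

/-- pigeonhole for the end height -/
theorem exists_d (m R : ℕ) (hR : R ≤ m) : ∃ d : ℤ, |d| ≤ R ∧
    br m (-R) R ≤ (2 * m + 1) * bd m (-R) R d := by
  classical
  by_contra hcon
  push Not at hcon
  have h1 : br m (-R) R = ∑ d ∈ Finset.Icc (-(R : ℤ)) R, bd m (-R) R d := by
    unfold br bd
    rw [Finset.card_eq_sum_card_fiberwise (f := dy) (t := Finset.Icc (-(R : ℤ)) R)]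
    · apply Finset.sum_congr rfl
      intro d _
      congr 1
      ext w
      rw [Finset.mem_filter, mem_fs, mem_fs]
      tauto
    · intro w hw
      rw [Finset.mem_coe, mem_fs] at hw
      rw [Finset.mem_coe, Finset.mem_Icc]
      exact hw.1.2 w (List.prefix_refl w)
  have h2 : ∑ d ∈ Finset.Icc (-(R : ℤ)) R, (2 * m + 1) * bd m (-R) R d <
      ∑ d ∈ Finset.Icc (-(R : ℤ)) R, br m (-R) R := by
    apply Finset.sum_lt_sum_of_nonempty
    · exact ⟨0, by rw [Finset.mem_Icc]; omega⟩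
    · intro d hd
      rw [Finset.mem_Icc] at hd
      exact hcon d (by rw [abs_le]; exact hd)
  rw [← Finset.mul_sum, ← h1, Finset.sum_const, Int.card_Icc, smul_eq_mul] at h2
  have e : ((R : ℤ) + 1 - (-(R : ℤ))).toNat = 2 * R + 1 := by omega
  rw [e] at h2
  have h3 : (2 * R + 1) * br m (-R) R ≤ (2 * m + 1) * br m (-R) R :=
    Nat.mul_le_mul_right _ (by omega)
  omega

end Pool.Agent.H315.SAW
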