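import Pool.Agent.H315.SAW.Growth

/-!
The choice of the scale.
-/

set_option autoImplicit false

namespace Pool.Agent.H315.SAW

open Finset Filter Topology

theorem choice {K : ℝ} (hK : 0 < K) : ∃ a : ℝ, 0 < a ∧ ∀ᶠ h : ℕ in atTop, ∃ m : ℕ, 2 ≤ m ∧
    K * Real.log m ^ 2 / ms m ≤ h ∧
    K * Real.log m ^ 3 / m ≤ (h : ℝ) ^ (-(1 + a / Real.log (Real.log h))) := by
  obtain ⟨c, hc, m0, hms⟩ := ms_lower
  refine ⟨c / 8, by positivity, ?_⟩
  obtain ⟨C, hC⟩ : ∃ C, C = 1 + c + 16 * (|Real.log (16 * K)| + 3) / c := ⟨_, rfl⟩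
  have hC0 : 0 ≤ 16 * (|Real.log (16 * K)| + 3) / c := by positivity
  filter_upwards [big C, eventually_ge_atTop m0, eventually_ge_atTop 3] with h ⟨hu, hul⟩ hm0 h2
  obtain ⟨l, hl⟩ : ∃ l, l = Real.log (h : ℝ) := ⟨_, rfl⟩
  obtain ⟨u, hu'⟩ : ∃ u, u = Real.log l := ⟨_, rfl⟩
  rw [← hl, ← hu'] at hu hul
  rw [← hl, ← hu']
  have hu1 : 1 ≤ u := by linarith
  have huc : c ≤ u := by linarith
  have hu0 : 0 < u := by linarith
  have hh0 : (0 : ℝ) < h := by exact_mod_cast (by omega : 0 < h)
  have hh2 : (2 : ℝ) ≤ h := by exact_mod_cast (by omega : 2 ≤ h)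
  have hl0 : 0 < l := by rw [hl]; exact Real.log_pos (by linarith)
  have hel : Real.exp l = h := by rw [hl, Real.exp_log hh0]
  have heu : Real.exp u = l := by rw [hu', Real.exp_log hl0]
  have hl1 : 1 ≤ l := by rw [← heu]; exact Real.one_le_exp hu0.le
  obtain ⟨y, hy⟩ : ∃ y, y = Real.exp (l + c / 4 * l / u) := ⟨_, rfl⟩
  have hcl : 0 ≤ c / 4 * l / u := by positivity
  have hyh : (h : ℝ) ≤ y := by
    rw [hy, ← hel]
    exact Real.exp_le_exp.2 (by linarith)
  obtain ⟨m, hm⟩ : ∃ m, m = ⌊y⌋₊ := ⟨_, rfl⟩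
  have hmh : h ≤ m := by rw [hm]; exact Nat.le_floor hyh
  have hmy : (m : ℝ) ≤ y := by rw [hm]; exact Nat.floor_le (by linarith)
  have hmy2 : y / 2 ≤ m := by
    have : y < m + 1 := by rw [hm]; exact Nat.lt_floor_add_one y
    linarith
  have hm0' : (0 : ℝ) < m := by exact_mod_cast (by omega : 0 < m)
  have hlm1 : l ≤ Real.log m := by
    rw [hl]; exact Real.log_le_log hh0 (by exact_mod_cast hmh)
  have hlm2 : Real.log m ≤ l + c / 4 * l / u := by
    have := Real.log_le_log hm0' hmy
    rwa [hy, Real.log_exp] at this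
  have hlm3 : l + c / 4 * l / u ≤ 2 * l := by
    have : c / 4 * l / u ≤ l := by
      rw [div_le_iff₀ hu0]
      nlinarith
    linarith
  have hllm1 : 0 < Real.log (Real.log m) := by
    have : u ≤ Real.log (Real.log m) := by
      rw [hu']; exact Real.log_le_log hl0 hlm1
    linarith
  have hllm2 : Real.log (Real.log m) ≤ 2 * u := by
    have h3 : Real.log (Real.log m) ≤ Real.log (2 * l) :=
      Real.log_le_log (by linarith) (by linarith)
    rw [Real.log_mul (by norm_num) hl0.ne', ← hu'] at h3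
    have := Real.log_two_lt_d9
    linarith
  have hs : 1 - c / Real.log (Real.log m) ≤ 1 - c / (2 * u) := by
    have : c / (2 * u) ≤ c / Real.log (Real.log m) :=
      div_le_div_of_nonneg_left hc.le hllm1 hllm2
    linarith
  have hs0 : 0 ≤ 1 - c / (2 * u) := by
    have : c / (2 * u) ≤ 1 := by
      rw [div_le_one (by positivity)]
      linarith
    linarith
  have hms' := hms m (by omega)
  have hlog8 : Real.log (16 * K) + 3 * u ≤ c / 16 * l / u := by
    have h3 : (Real.log (16 * K) + 3 * u) ≤ (|Real.log (16 * K)| + 3) * u := by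
      have h4 := le_abs_self (Real.log (16 * K))
      have h5 := abs_nonneg (Real.log (16 * K))
      nlinarith
    have h4 : (|Real.log (16 * K)| + 3) * u ≤ c / 16 * l / u := by
      rw [le_div_iff₀ hu0]
      have h5 : 16 * (|Real.log (16 * K)| + 3) / c * u ^ 2 ≤ l := by
        refine le_trans ?_ hul
        apply mul_le_mul_of_nonneg_right _ (by positivity)
        linarith
      have h6 : (|Real.log (16 * K)| + 3) * u * u =
          c / 16 * (16 * (|Real.log (16 * K)| + 3) / c * u ^ 2) := by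
        field_simp
      rw [h6]
      have : 0 < c / 16 := by positivity
      gcongr
    linarith
  have hK8 : 16 * K * l ^ 3 = Real.exp (Real.log (16 * K) + 3 * u) := by
    rw [Real.exp_add, Real.exp_log (by positivity), mul_comm 3 u, Real.exp_mul, heu]
    norm_num
  have hl23 : l ^ 2 ≤ l ^ 3 := pow_le_pow_right₀ hl1 (by norm_num)
  have hcond : K * Real.log m ^ 2 / ms m ≤ h := by
    have h3 : K * Real.log m ^ 2 / ms m = K * Real.log m ^ 2 * (1 / ms m) := by ring
    rw [h3]
    have h4 : Real.log m ^ 2 ≤ (2 * l) ^ 2 := pow_le_pow_left₀ (by linarith) (by linarith) 2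
    have h5 : (1 - c / Real.log (Real.log m)) * Real.log m ≤ (1 - c / (2 * u)) * (l + c / 4 * l / u) := by
      calc (1 - c / Real.log (Real.log m)) * Real.log m ≤ (1 - c / (2 * u)) * Real.log m :=
            mul_le_mul_of_nonneg_right hs (by linarith)
        _ ≤ _ := mul_le_mul_of_nonneg_left hlm2 hs0
    have h6 : (1 - c / (2 * u)) * (l + c / 4 * l / u) ≤ l - c / 4 * l / u := by
      have e : (1 - c / (2 * u)) * (l + c / 4 * l / u) = l - c / 4 * l / u -
          c / (2 * u) * (c / 4 * l / u) := by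
        field_simp
        ring
      have : 0 ≤ c / (2 * u) * (c / 4 * l / u) := by positivity
      rw [e]
      linarith
    calc K * Real.log m ^ 2 * (1 / ms m) ≤ K * (2 * l) ^ 2 * Real.exp (l - c / 4 * l / u) := by
          have h7 : 1 / ms m ≤ Real.exp (l - c / 4 * l / u) :=
            hms'.trans (Real.exp_le_exp.2 (h5.trans h6))
          have h8 : 0 ≤ 1 / ms m := by
            have := ms_pos (m := m) (by omega)
            positivity
          exact mul_le_mul (mul_le_mul_of_nonneg_left h4 hK.le) h7 h8 (by positivity)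
      _ ≤ 16 * K * l ^ 3 * Real.exp (l - c / 4 * l / u) := by
          apply mul_le_mul_of_nonneg_right _ (Real.exp_pos _).le
          nlinarith [mul_le_mul_of_nonneg_left hl23 hK.le, mul_pos hK (pow_pos hl0 3)]
      _ = Real.exp (Real.log (16 * K) + 3 * u + (l - c / 4 * l / u)) := by
          rw [hK8, ← Real.exp_add]
      _ ≤ Real.exp l := by
          apply Real.exp_le_exp.2
          have h9 : c / 16 * l / u ≤ c / 4 * l / u := by
            gcongr
            linarith
          linarith
      _ = h := hel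
  refine ⟨m, by omega, hcond, ?_⟩
  have h4 : Real.log m ^ 3 ≤ (2 * l) ^ 3 := pow_le_pow_left₀ (by linarith) (by linarith) 3
  have hy0 : 0 < y := by linarith
  calc K * Real.log m ^ 3 / m ≤ K * (2 * l) ^ 3 / (y / 2) := by gcongr
    _ = 16 * K * l ^ 3 * y⁻¹ := by field_simp; ring
    _ = Real.exp (Real.log (16 * K) + 3 * u + -(l + c / 4 * l / u)) := by
        rw [hK8, hy, ← Real.exp_neg, ← Real.exp_add]
    _ ≤ Real.exp (l * -(1 + c / 8 / u)) := by
        apply Real.exp_le_exp.2
        have e : l * -(1 + c / 8 / u) = -(l + c / 8 * l / u) := by ring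
        rw [e]
        have h9 : c / 16 * l / u + c / 8 * l / u ≤ c / 4 * l / u := by
          have : 0 ≤ c / 16 * l / u := by positivity
          have e2 : c / 4 * l / u = c / 16 * l / u + c / 8 * l / u + c / 16 * l / u := by ring
          linarith
        linarith
    _ = (h : ℝ) ^ (-(1 + c / 8 / u)) := by
        rw [Real.rpow_def_of_pos hh0, hl]

end Pool.Agent.H315.SAW
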