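import Pool.Agent.H122R3.SX.Est

/-!
Self-avoiding words which stay in the open diamond spanned by their end points.
-/

set_option autoImplicit false

namespace Pool.Agent.H315.SAW

open Finset
open Pool.Agent.H122R3.SX (W c fs mem_fs g G gw GW Saw pos X st pm pos_append pos_map X_append X_nil
  saw_append prefix_append_cases infix_append_cases exists_of_inf_map exists_of_pre_map pm_inj pos_cons pos_nil)

theorem pos_reverse (w : W) (i : Fin 2) : pos w.reverse i = pos w i := by
  induction w with
  | nil => rfl
  | cons l w ih => rw [List.reverse_cons, pos_append, ih, pos_cons, pos_cons, pos_nil]; ring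

theorem saw_reverse {w : W} (h : Saw w) : Saw w.reverse := by
  intro v hv h0
  have h1 : v.reverse <:+: w := by
    have := List.reverse_infix.2 hv
    rwa [List.reverse_reverse] at this
  obtain ⟨i, hi⟩ := h v.reverse h1 (by simpa using h0)
  exact ⟨i, by rwa [pos_reverse] at hi⟩

/-- reversed wedge: ends at the apex of a wedge which opens downwards -/
structure RW (H : ℤ) (w : W) : Prop where
  saw : Saw w
  top : pos w 0 = H
  hor : X w = 0
  reg : ∀ v, v <+: w → 0 ≤ pos v 0 ∧ pos v 0 ≤ H ∧ 2 * |X v| ≤ H - pos v 0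

/-- wedge -/
structure FW (H : ℤ) (w : W) : Prop where
  saw : Saw w
  top : pos w 0 = H
  hor : X w = 0
  reg : ∀ v, v <+: w → 0 ≤ pos v 0 ∧ pos v 0 ≤ H ∧ 2 * |X v| ≤ pos v 0

theorem FW.of {H : ℤ} {w : W} (h : GW (1 / 2) H w) : FW H w := by
  refine ⟨h.saw, h.top, h.hor, fun v hv => ?_⟩
  obtain ⟨h1, h2, h3⟩ := h.high v hv
  refine ⟨h1, h2, ?_⟩
  have h4 : 2 * |(X v : ℝ)| ≤ pos v 0 := by linarith
  exact_mod_cast h4

/-- the reversal of a wedge -/
def rv (w : W) : W := w.reverse.map (pm 4)

theorem rv_inj : Function.Injective rv := by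
  intro a b h
  unfold rv at h
  have h1 := (List.map_injective_iff.2 (pm_inj 4)) h
  have := congrArg List.reverse h1
  simpa using this

theorem FW.rv {H : ℤ} {w : W} (h : FW H w) : RW H (rv w) := by
  have e0 : ∀ v : W, pos (v.map (pm 4)) 0 = pos v 0 := by
    intro v; rw [pos_map]; simp [Pool.Agent.H122R3.SX.mt]
  have e1 : ∀ v : W, X (v.map (pm 4)) = -X v := by
    intro v; unfold X; rw [pos_map]; simp [Pool.Agent.H122R3.SX.mt]
  have e2 : X w.reverse = X w := by unfold X; rw [pos_reverse]
  refine ⟨(saw_reverse h.saw).map 4, ?_, ?_, ?_⟩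
  · show pos (w.reverse.map (pm 4)) 0 = H
    rw [e0, pos_reverse, h.top]
  · show X (w.reverse.map (pm 4)) = 0
    rw [e1, e2, h.hor, neg_zero]
  · intro v hv
    obtain ⟨v', hv', rfl⟩ := exists_of_pre_map hv
    rw [e0, e1, abs_neg]
    obtain ⟨t, ht⟩ := hv'
    have hw : w = t.reverse ++ v'.reverse := by
      have := congrArg List.reverse ht
      rw [List.reverse_append, List.reverse_reverse] at this
      exact this.symm
    have h1 : pos t.reverse 0 + pos v' 0 = H := by
      rw [← pos_reverse v', ← pos_append, ← hw, h.top]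
    have h2 : X t.reverse + X v' = 0 := by
      have : X v'.reverse = X v' := by unfold X; rw [pos_reverse]
      rw [← this, ← X_append, ← hw, h.hor]
    obtain ⟨r1, r2, r3⟩ := h.reg t.reverse ⟨v'.reverse, hw.symm⟩
    have e3 : |X v'| = |X t.reverse| := by
      have : X v' = -X t.reverse := by linarith
      rw [this, abs_neg]
    rw [e3]
    refine ⟨by linarith, by linarith, by linarith⟩

/-- words in the open diamond between `0` and the point at height `D` above it -/
structure Dm (D : ℤ) (w : W) : Prop where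
  saw : Saw w
  top : pos w 0 = D
  hor : X w = 0
  mid : ∀ v, v <+: w → v ≠ [] → v ≠ w → |X v| < pos v 0 ∧ |X v| < D - pos v 0

noncomputable def dm (D : ℤ) (n : ℕ) : ℕ := (fs (Dm D) n).card

theorem saw_cons {w : W} (h : Saw w) (h0 : ∀ p, p <+: w → 0 ≤ pos p 0) : Saw (0 :: w) := by
  intro v hv hv0
  rcases List.infix_cons_iff.1 hv with h1 | h1
  · rcases List.prefix_cons_iff.1 h1 with h2 | ⟨t, rfl, ht⟩
    · exact absurd h2 hv0
    · refine ⟨0, ?_⟩
      have := h0 t ht
      rw [pos_cons]
      have e : st 0 0 = 1 := rfl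
      rw [e]
      omega
  · exact h v h1 hv0

theorem Dm.build {H H' T : ℤ} {a b c : W} (hH : 1 ≤ H) (hT : 2 * T ≤ H) (ha : FW H a)
    (hb : G H' 0 T b) (hc : RW H c) : Dm (2 * H + H' + 1) (a ++ (b ++ (0 :: c))) := by
  have e : st 0 0 = 1 := rfl
  have e' : st 0 1 = 0 := rfl
  have hT0 : 0 ≤ T := by
    have := (hb.high [] List.nil_prefix).2
    exact le_trans (abs_nonneg _) this
  have hH' := hb.nonneg
  have hc0 : ∀ p, p <+: c → 0 ≤ pos p 0 := fun p hp => (hc.reg p hp).1
  have hsc : Saw (0 :: c) := saw_cons hc.saw hc0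
  have hlc : ∀ v, v <+: (0 :: c) → v ≠ [] → 1 ≤ pos v 0 := by
    intro v hv hv0
    rcases List.prefix_cons_iff.1 hv with h2 | ⟨t, rfl, ht⟩
    · exact absurd h2 hv0
    · have := hc0 t ht
      rw [pos_cons, e]
      omega
  have hsb : Saw (b ++ (0 :: c)) :=
    saw_append hb.saw hsc hb.top (fun v hv => (hb.high v hv).1) hlc
  have hlb : ∀ v, v <+: (b ++ (0 :: c)) → v ≠ [] → 1 ≤ pos v 0 := by
    intro v hv hv0
    rcases prefix_append_cases hv with h | ⟨p, rfl, hp⟩
    · exact hb.low v h hv0
    · rw [pos_append, hb.top]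
      by_cases hp0 : p = []
      · subst hp0
        rw [List.append_nil] at hv0
        have := hb.low b (List.prefix_refl _) hv0
        rw [hb.top] at this
        simpa using this
      · have := hlc p hp hp0
        omega
  have htop : pos (a ++ (b ++ (0 :: c))) 0 = 2 * H + H' + 1 := by
    rw [pos_append, pos_append, pos_cons, ha.top, hb.top, hc.top, e]
    ring
  have hhor : X (a ++ (b ++ (0 :: c))) = 0 := by
    rw [X_append, X_append, ha.hor, hb.hor]
    have : X (0 :: c) = X c := by unfold X; rw [pos_cons, e', zero_add]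
    rw [this, hc.hor]
    norm_num
  refine ⟨saw_append ha.saw hsb ha.top (fun v hv => (ha.reg v hv).2.1) hlb, htop, hhor, ?_⟩
  intro v hv hv0 hvw
  rcases prefix_append_cases hv with h | ⟨p, rfl, hp⟩
  · obtain ⟨r1, r2, r3⟩ := ha.reg v h
    have hne : 1 ≤ pos v 0 := by
      by_contra hcon
      have h1 : pos v 0 = 0 := by omega
      have h2 : |X v| = 0 := by
        have := abs_nonneg (X v)
        omega
      obtain ⟨i, hi⟩ := ha.saw v h.isInfix hv0
      fin_cases i
      · exact hi h1
      · exact hi (abs_eq_zero.1 h2)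
    constructor <;> omega
  · rw [pos_append, X_append, ha.top, ha.hor, zero_add]
    rcases prefix_append_cases hp with h | ⟨p, rfl, hp2⟩
    · obtain ⟨r1, r2⟩ := hb.high p h
      have r3 : 0 ≤ pos p 0 := by
        by_cases hp0 : p = []
        · rw [hp0]; simp
        · have := hb.low p h hp0; omega
      constructor <;> omega
    · rw [pos_append, X_append, hb.top, hb.hor, zero_add]
      rcases List.prefix_cons_iff.1 hp2 with h2 | ⟨t, rfl, ht⟩
      · rw [h2]
        simp only [X_nil, abs_zero, pos_nil]
        constructor <;> omega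
      · obtain ⟨r1, r2, r3⟩ := hc.reg t ht
        have hx : X (0 :: t) = X t := by unfold X; rw [pos_cons, e', zero_add]
        rw [pos_cons, hx, e]
        have htc : t ≠ c := by
          intro h
          apply hvw
          rw [h]
        have hlt : 0 < H - pos t 0 := by
          by_contra hcon
          have h1 : pos t 0 = H := by omega
          have h2 : |X t| = 0 := by
            have := abs_nonneg (X t)
            omega
          obtain ⟨s, hs⟩ := ht
          have hs0 : s ≠ [] := by
            intro h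
            apply htc
            rw [← hs, h, List.append_nil]
          have hsi : s <:+: c := by rw [← hs]; exact (List.suffix_append _ _).isInfix
          obtain ⟨i, hi⟩ := hc.saw s hsi hs0
          have e3 : pos t 0 + pos s 0 = H := by rw [← pos_append, hs, hc.top]
          have e4 : X t + X s = 0 := by rw [← X_append, hs, hc.hor]
          rw [abs_eq_zero] at h2
          fin_cases i
          · exact hi (show pos s 0 = 0 by linarith)
          · exact hi (show X s = 0 by linarith)
        have := abs_nonneg (X t)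
        constructor <;> omega

theorem dm_ge {H H' T : ℤ} (hH : 1 ≤ H) (hT : 2 * T ≤ H) (n n' : ℕ) :
    gw (1 / 2) H n * g H' 0 T n' * gw (1 / 2) H n ≤ dm (2 * H + H' + 1) (2 * n + n' + 1) := by
  classical
  unfold gw g dm
  rw [← card_product, ← card_product]
  apply card_le_card_of_injOn (fun p => p.1.1 ++ (p.1.2 ++ (0 :: rv p.2)))
  · rintro ⟨⟨a, b⟩, c⟩ hp
    rw [coe_product, Set.mem_prod, coe_product, Set.mem_prod, mem_coe, mem_coe, mem_coe, mem_fs,
      mem_fs, mem_fs] at hp
    rw [mem_coe, mem_fs]
    obtain ⟨⟨⟨h1, h2⟩, h3, h4⟩, h5, h6⟩ := hp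
    refine ⟨Dm.build hH hT (FW.of h1) h3 (FW.of h5).rv, ?_⟩
    simp only [List.length_append, List.length_cons, rv, List.length_map, List.length_reverse] at *
    omega
  · rintro ⟨⟨a, b⟩, c⟩ hp ⟨⟨a', b'⟩, c'⟩ hp' h
    rw [coe_product, Set.mem_prod, coe_product, Set.mem_prod, mem_coe, mem_coe, mem_coe, mem_fs,
      mem_fs, mem_fs] at hp hp'
    simp only at h hp hp'
    have h1 := List.append_inj h (by rw [hp.1.1.2, hp'.1.1.2])
    have h2 := List.append_inj h1.2 (by rw [hp.1.2.2, hp'.1.2.2])
    have h3 := List.cons_injective h2.2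
    rw [h1.1, h2.1, rv_inj h3]

end Pool.Agent.H315.SAW
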