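import Pool.Agent.H315.SAW.Bounds
import Pool.Agent.Y981.L2X.High
import Mathlib.Analysis.Subadditive

/-!
The growth constants of self-avoiding walks in strips.
-/

set_option autoImplicit false

namespace Pool.Agent.H315.SAW

open Pool.Agent.TH795.EP Pool.Agent.TH795.EP2 Pool.Agent.Y981.L2 H981 Finset Filter Topology

theorem S_pos' (h n : ℕ) : (0 : ℝ) < S h n := by exact_mod_cast S_pos h n

theorem subadd (h : ℕ) : Subadditive (fun n => Real.log (S h n)) := by
  intro a b
  rw [← Real.log_mul (S_pos' h a).ne' (S_pos' h b).ne']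
  apply Real.log_le_log (S_pos' h _)
  exact_mod_cast S_add h a b

theorem bdd (h : ℕ) : BddBelow (Set.range fun n : ℕ => Real.log (S h n) / n) := by
  refine ⟨0, ?_⟩
  rintro _ ⟨n, rfl⟩
  have : (1 : ℝ) ≤ S h n := by exact_mod_cast S_pos h n
  have := Real.log_nonneg this
  positivity

/-- the logarithm of the growth constant of the strip of height `h` -/
noncomputable def lnu (h : ℕ) : ℝ := (subadd h).lim

/-- the growth constant of the strip of height `h` -/
noncomputable def nu (h : ℕ) : ℝ := Real.exp (lnu h)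

theorem nu_pos (h : ℕ) : 0 < nu h := Real.exp_pos _

theorem lnu_tendsto (h : ℕ) : Tendsto (fun n : ℕ => Real.log (S h n) / n) atTop (𝓝 (lnu h)) :=
  (subadd h).tendsto_lim (bdd h)

theorem nu_tendsto (h : ℕ) : Tendsto (fun n : ℕ => (S h n : ℝ) ^ (1 / (n : ℝ))) atTop
    (𝓝 (nu h)) := by
  have h1 := (Real.continuous_exp.tendsto _).comp (lnu_tendsto h)
  refine h1.congr ?_
  intro n
  rw [Function.comp_apply, Real.rpow_def_of_pos (S_pos' h n)]
  congr 1
  ring

theorem log_quot (h : ℕ) : Real.log (mu / nu h) = Real.log mu - lnu h := by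
  unfold nu
  rw [Real.log_div mu_pos.ne' (Real.exp_pos _).ne', Real.log_exp]

theorem div_lim (m : ℕ) (hm : 1 ≤ m) : Tendsto (fun n : ℕ => ((n / m : ℕ) : ℝ) / n) atTop
    (𝓝 (1 / (m : ℝ))) := by
  have hm0 : (0 : ℝ) < m := by exact_mod_cast hm
  have h1 : Tendsto (fun n : ℕ => 1 / (m : ℝ) - 1 / (n : ℝ)) atTop (𝓝 (1 / (m : ℝ) - 0)) :=
    tendsto_const_nhds.sub tendsto_one_div_atTop_nhds_zero_nat
  rw [sub_zero] at h1
  refine tendsto_of_tendsto_of_tendsto_of_le_of_le' h1 tendsto_const_nhds ?_ ?_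
  · filter_upwards [eventually_ge_atTop 1] with n hn
    have hn0 : (0 : ℝ) < n := by exact_mod_cast hn
    have h2 : (n : ℝ) < m * (((n / m : ℕ) : ℝ) + 1) := by
      exact_mod_cast Nat.lt_mul_div_succ n (by omega)
    rw [le_div_iff₀ hn0, sub_mul, one_div_mul_cancel hn0.ne', one_div, inv_mul_eq_div,
      sub_le_iff_le_add, div_le_iff₀ hm0]
    linarith
  · filter_upwards [eventually_ge_atTop 1] with n hn
    have hn0 : (0 : ℝ) < n := by exact_mod_cast hn
    have h2 : ((n / m : ℕ) : ℝ) * m ≤ n := by exact_mod_cast Nat.div_mul_le_self n m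
    rw [div_le_div_iff₀ hn0 hm0]
    linarith

/-- the growth constant of a high strip -/
theorem gap_upper : ∃ K : ℝ, 0 < K ∧ ∀ m : ℕ, 2 ≤ m → ∀ h : ℕ, K * Real.log m ^ 2 / ms m ≤ h →
    Real.log (mu / nu h) ≤ K * Real.log m ^ 2 / m := by
  obtain ⟨K, hK, hlow⟩ := S_lower
  refine ⟨K, hK, ?_⟩
  intro m hm h hh
  have h1 := hlow m hm h hh
  have hmu := mu_pos
  rw [log_quot]
  have h2 : Tendsto (fun n : ℕ => Real.log mu - K * Real.log m ^ 2 * (((n / m : ℕ) : ℝ) / n) -
      K * Real.log m ^ 2 * (1 / (n : ℝ))) atTop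
      (𝓝 (Real.log mu - K * Real.log m ^ 2 * (1 / (m : ℝ)) - K * Real.log m ^ 2 * 0)) :=
    (tendsto_const_nhds.sub ((div_lim m (by omega)).const_mul _)).sub
      (tendsto_one_div_atTop_nhds_zero_nat.const_mul _)
  have h3 := le_of_tendsto_of_tendsto h2 (lnu_tendsto h) (by
    filter_upwards [eventually_ge_atTop 1] with n hn
    have hn0 : (0 : ℝ) < n := by exact_mod_cast hn
    have h4 := Real.log_le_log (mul_pos (pow_pos hmu n) (Real.exp_pos _)) (h1 n)
    rw [Real.log_mul (pow_pos hmu n).ne' (Real.exp_pos _).ne', Real.log_exp, Real.log_pow] at h4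
    rw [le_div_iff₀ hn0]
    have e : (Real.log mu - K * Real.log m ^ 2 * (((n / m : ℕ) : ℝ) / n) -
        K * Real.log m ^ 2 * (1 / (n : ℝ))) * n = n * Real.log mu +
        -(K * (((n / m : ℕ) : ℝ) + 1) * Real.log m ^ 2) := by
      field_simp
      ring
    rw [e]
    exact h4)
  have e : K * Real.log m ^ 2 / m = K * Real.log m ^ 2 * (1 / (m : ℝ)) := by ring
  rw [e]
  linarith

/-- the growth constant of a low strip -/
theorem gap_lower : ∃ K : ℝ, 0 < K ∧ ∀ m : ℕ, 2 ≤ m → ∀ h : ℕ,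
    K * ((h : ℝ) + 1) * Real.log m ^ 2 / ms m ≤ m →
    Real.log m ^ 2 / m ≤ Real.log (mu / nu h) := by
  obtain ⟨K, hK, hup⟩ := S_upper
  refine ⟨K, hK, ?_⟩
  intro m hm h hh
  have h1 := hup m hm h hh
  have hmu := mu_pos
  rw [log_quot]
  have h2 : Tendsto (fun n : ℕ => Real.log mu + K * Real.log m ^ 2 * (1 / (n : ℝ)) -
      Real.log m ^ 2 * (((n / m : ℕ) : ℝ) / n)) atTop
      (𝓝 (Real.log mu + K * Real.log m ^ 2 * 0 - Real.log m ^ 2 * (1 / (m : ℝ)))) :=
    (tendsto_const_nhds.add (tendsto_one_div_atTop_nhds_zero_nat.const_mul _)).sub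
      ((div_lim m (by omega)).const_mul _)
  have h3 := le_of_tendsto_of_tendsto (lnu_tendsto h) h2 (by
    filter_upwards [eventually_ge_atTop 1] with n hn
    have hn0 : (0 : ℝ) < n := by exact_mod_cast hn
    have h4 := Real.log_le_log (S_pos' h n) (h1 n)
    rw [Real.log_mul (pow_pos hmu n).ne' (Real.exp_pos _).ne', Real.log_exp, Real.log_pow] at h4
    rw [div_le_iff₀ hn0]
    have e : (Real.log mu + K * Real.log m ^ 2 * (1 / (n : ℝ)) -
        Real.log m ^ 2 * (((n / m : ℕ) : ℝ) / n)) * n = n * Real.log mu +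
        (K - ((n / m : ℕ) : ℝ)) * Real.log m ^ 2 := by
      field_simp
      ring
    rw [e]
    exact h4)
  have e : Real.log m ^ 2 / m = Real.log m ^ 2 * (1 / (m : ℝ)) := by ring
  rw [e]
  linarith

theorem big (C : ℝ) : ∀ᶠ h : ℕ in atTop, C ≤ Real.log (Real.log h) ∧
    C * Real.log (Real.log h) ^ 2 ≤ Real.log h := by
  have hl : Tendsto (fun h : ℕ => Real.log (h : ℝ)) atTop atTop :=
    Real.tendsto_log_atTop.comp tendsto_natCast_atTop_atTop
  have hll : Tendsto (fun h : ℕ => Real.log (Real.log (h : ℝ))) atTop atTop :=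
    Real.tendsto_log_atTop.comp hl
  have h1 := hll.eventually_ge_atTop C
  have h2 : ∀ᶠ x : ℝ in atTop, C * Real.log x ^ 2 ≤ x := by
    have h3 := (Real.isLittleO_pow_log_id_atTop (n := 2)).bound
      (show (0 : ℝ) < 1 / (|C| + 1) by positivity)
    filter_upwards [h3, eventually_ge_atTop 1] with x hx hx1
    rw [Real.norm_of_nonneg (by positivity), id, Real.norm_of_nonneg (by linarith)] at hx
    have h4 : (|C| + 1) * Real.log x ^ 2 ≤ x := by
      calc (|C| + 1) * Real.log x ^ 2 ≤ (|C| + 1) * (1 / (|C| + 1) * x) := by gcongr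
        _ = x := by field_simp
    have h5 : C * Real.log x ^ 2 ≤ (|C| + 1) * Real.log x ^ 2 := by
      gcongr
      linarith [le_abs_self C]
    linarith
  filter_upwards [h1, hl.eventually h2] with h h3 h4
  exact ⟨h3, h4⟩

/-- the lower bound of the mass at `1/m` -/
theorem ms_lower : ∃ c : ℝ, 0 < c ∧ ∃ m0 : ℕ, ∀ m : ℕ, m0 ≤ m →
    1 / ms m ≤ Real.exp ((1 - c / Real.log (Real.log m)) * Real.log m) := by
  obtain ⟨c, hc, h⟩ := Y981.L2X.le_mass
  refine ⟨c, hc, ?_⟩
  have h1 : Tendsto (fun m : ℕ => 1 / (m : ℝ)) atTop (𝓝[>] 0) := by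
    rw [tendsto_nhdsWithin_iff]
    refine ⟨tendsto_one_div_atTop_nhds_zero_nat, ?_⟩
    filter_upwards [eventually_ge_atTop 1] with m hm
    have : (0 : ℝ) < m := by exact_mod_cast hm
    show (0 : ℝ) < 1 / m
    positivity
  obtain ⟨m0, hm0⟩ := eventually_atTop.1 ((h1.eventually h).and (eventually_ge_atTop 1))
  refine ⟨m0, fun m hm => ?_⟩
  obtain ⟨h2, h3⟩ := hm0 m hm
  have hm1 : (0 : ℝ) < m := by exact_mod_cast h3
  rw [one_div_one_div] at h2
  have h4 : (1 / (m : ℝ)) ^ (1 - c / Real.log (Real.log m)) =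
      1 / Real.exp ((1 - c / Real.log (Real.log m)) * Real.log m) := by
    rw [Real.rpow_def_of_pos (by positivity), one_div, Real.log_inv, one_div, ← Real.exp_neg]
    congr 1
    ring
  rw [h4] at h2
  have h5 := Real.exp_pos ((1 - c / Real.log (Real.log m)) * Real.log m)
  have h6 : 0 < 1 / Real.exp ((1 - c / Real.log (Real.log m)) * Real.log m) := by positivity
  have h7 : 0 < ms m := lt_of_lt_of_le h6 h2
  rw [div_le_iff₀ h7]
  have h8 : 1 / Real.exp ((1 - c / Real.log (Real.log m)) * Real.log m) ≤ ms m := h2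
  rw [div_le_iff₀ h5] at h8
  linarith

/-- **Explicit upper bound of the gap.** -/
theorem gap_small : ∃ a : ℝ, 0 < a ∧ ∀ᶠ h : ℕ in atTop,
    Real.log (mu / nu h) ≤ (h : ℝ) ^ (-(1 + a / Real.log (Real.log h))) := by
  obtain ⟨c, hc, m0, hms⟩ := ms_lower
  obtain ⟨K, hK, hgap⟩ := gap_upper
  refine ⟨c / 8, by positivity, ?_⟩
  obtain ⟨C, hC⟩ : ∃ C, C = 1 + c + 16 * (|Real.log (8 * K)| + 2) / c := ⟨_, rfl⟩
  have hC0 : 0 ≤ 16 * (|Real.log (8 * K)| + 2) / c := by positivity
  filter_upwards [big C, eventually_ge_atTop m0, eventually_ge_atTop 2] with h ⟨hu, hul⟩ hm0 h2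
  obtain ⟨l, hl⟩ : ∃ l, l = Real.log (h : ℝ) := ⟨_, rfl⟩
  obtain ⟨u, hu'⟩ : ∃ u, u = Real.log l := ⟨_, rfl⟩
  rw [← hl, ← hu'] at hu hul
  rw [← hl, ← hu']
  have hu1 : 1 ≤ u := by linarith
  have huc : c ≤ u := by linarith
  have hu0 : 0 < u := by linarith
  have hh0 : (0 : ℝ) < h := by exact_mod_cast (by omega : 0 < h)
  have hh2 : (2 : ℝ) ≤ h := by exact_mod_cast h2
  have hl0 : 0 < l := by rw [hl]; exact Real.log_pos (by linarith)
  have hel : Real.exp l = h := by rw [hl, Real.exp_log hh0]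
  have heu : Real.exp u = l := by rw [hu', Real.exp_log hl0]
  obtain ⟨y, hy⟩ : ∃ y, y = Real.exp (l + c / 4 * l / u) := ⟨_, rfl⟩
  have hcl : 0 ≤ c / 4 * l / u := by positivity
  have hyh : (h : ℝ) ≤ y := by
    rw [hy, ← hel]
    exact Real.exp_le_exp.2 (by linarith)
  obtain ⟨m, hm⟩ : ∃ m, m = ⌊y⌋₊ := ⟨_, rfl⟩
  have hmh : h ≤ m := by rw [hm]; exact Nat.le_floor hyh
  have hmy : (m : ℝ) ≤ y := by rw [hm]; exact Nat.floor_le (by linarith)
  have hmy2 : y / 2 ≤ m := by
    have : y < m + 1 := by rw [hm]; exact Nat.lt_floor_add_one y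
    linarith
  have hm0' : (0 : ℝ) < m := by exact_mod_cast (by omega : 0 < m)
  have hlm1 : l ≤ Real.log m := by
    rw [hl]; exact Real.log_le_log hh0 (by exact_mod_cast hmh)
  have hlm2 : Real.log m ≤ l + c / 4 * l / u := by
    have := Real.log_le_log hm0' hmy
    rwa [hy, Real.log_exp] at this
  have hlm3 : l + c / 4 * l / u ≤ 2 * l := by
    have : c / 4 * l / u ≤ l := by
      rw [div_le_iff₀ hu0]
      nlinarith
    linarith
  have hllm1 : 0 < Real.log (Real.log m) := by
    have : u ≤ Real.log (Real.log m) := by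
      rw [hu']; exact Real.log_le_log hl0 hlm1
    linarith
  have hllm2 : Real.log (Real.log m) ≤ 2 * u := by
    have h3 : Real.log (Real.log m) ≤ Real.log (2 * l) :=
      Real.log_le_log (by linarith) (by linarith)
    rw [Real.log_mul (by norm_num) hl0.ne', ← hu'] at h3
    have := Real.log_two_lt_d9
    linarith
  have hs : 1 - c / Real.log (Real.log m) ≤ 1 - c / (2 * u) := by
    have : c / (2 * u) ≤ c / Real.log (Real.log m) :=
      div_le_div_of_nonneg_left hc.le hllm1 hllm2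
    linarith
  have hs0 : 0 ≤ 1 - c / (2 * u) := by
    have : c / (2 * u) ≤ 1 := by
      rw [div_le_one (by positivity)]
      linarith
    linarith
  have hms' := hms m (by omega)
  have hlog8 : Real.log (8 * K) + 2 * u ≤ c / 16 * l / u := by
    have h3 : (Real.log (8 * K) + 2 * u) ≤ (|Real.log (8 * K)| + 2) * u := by
      have h4 := le_abs_self (Real.log (8 * K))
      have h5 := abs_nonneg (Real.log (8 * K))
      nlinarith
    have h4 : (|Real.log (8 * K)| + 2) * u ≤ c / 16 * l / u := by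
      rw [le_div_iff₀ hu0]
      have h5 : 16 * (|Real.log (8 * K)| + 2) / c * u ^ 2 ≤ l := by
        refine le_trans ?_ hul
        apply mul_le_mul_of_nonneg_right _ (by positivity)
        linarith
      have h6 : (|Real.log (8 * K)| + 2) * u * u =
          c / 16 * (16 * (|Real.log (8 * K)| + 2) / c * u ^ 2) := by
        field_simp
      rw [h6]
      have : 0 < c / 16 := by positivity
      gcongr
    linarith
  have hK8 : 8 * K * l ^ 2 = Real.exp (Real.log (8 * K) + 2 * u) := by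
    rw [Real.exp_add, Real.exp_log (by positivity), mul_comm 2 u, Real.exp_mul, heu]
    norm_num
  have hcond : K * Real.log m ^ 2 / ms m ≤ h := by
    have h3 : K * Real.log m ^ 2 / ms m = K * Real.log m ^ 2 * (1 / ms m) := by ring
    rw [h3]
    have h4 : Real.log m ^ 2 ≤ (2 * l) ^ 2 := pow_le_pow_left₀ (by linarith) (by linarith) 2
    have h5 : (1 - c / Real.log (Real.log m)) * Real.log m ≤ (1 - c / (2 * u)) * (l + c / 4 * l / u) := by
      calc (1 - c / Real.log (Real.log m)) * Real.log m ≤ (1 - c / (2 * u)) * Real.log m :=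
            mul_le_mul_of_nonneg_right hs (by linarith)
        _ ≤ _ := mul_le_mul_of_nonneg_left hlm2 hs0
    have h6 : (1 - c / (2 * u)) * (l + c / 4 * l / u) ≤ l - c / 4 * l / u := by
      have e : (1 - c / (2 * u)) * (l + c / 4 * l / u) = l - c / 4 * l / u -
          c / (2 * u) * (c / 4 * l / u) := by
        field_simp
        ring
      have : 0 ≤ c / (2 * u) * (c / 4 * l / u) := by positivity
      rw [e]
      linarith
    calc K * Real.log m ^ 2 * (1 / ms m) ≤ K * (2 * l) ^ 2 * Real.exp (l - c / 4 * l / u) := by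
          have h7 : 1 / ms m ≤ Real.exp (l - c / 4 * l / u) :=
            hms'.trans (Real.exp_le_exp.2 (h5.trans h6))
          have h8 : 0 ≤ 1 / ms m := by
            have := ms_pos (m := m) (by omega)
            positivity
          exact mul_le_mul (mul_le_mul_of_nonneg_left h4 hK.le) h7 h8 (by positivity)
      _ ≤ 8 * K * l ^ 2 * Real.exp (l - c / 4 * l / u) := by
          apply mul_le_mul_of_nonneg_right _ (Real.exp_pos _).le
          nlinarith [mul_pos hK (pow_pos hl0 2)]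
      _ = Real.exp (Real.log (8 * K) + 2 * u + (l - c / 4 * l / u)) := by
          rw [hK8, ← Real.exp_add]
      _ ≤ Real.exp l := by
          apply Real.exp_le_exp.2
          have h9 : c / 16 * l / u ≤ c / 4 * l / u := by
            gcongr
            linarith
          linarith
      _ = h := hel
  have h3 := hgap m (by omega) h hcond
  refine h3.trans ?_
  have h4 : Real.log m ^ 2 ≤ (2 * l) ^ 2 := pow_le_pow_left₀ (by linarith) (by linarith) 2
  have hy0 : 0 < y := by linarith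
  calc K * Real.log m ^ 2 / m ≤ K * (2 * l) ^ 2 / (y / 2) := by gcongr
    _ = 8 * K * l ^ 2 * y⁻¹ := by field_simp; ring
    _ = Real.exp (Real.log (8 * K) + 2 * u + -(l + c / 4 * l / u)) := by
        rw [hK8, hy, ← Real.exp_neg, ← Real.exp_add]
    _ ≤ Real.exp (l * -(1 + c / 8 / u)) := by
        apply Real.exp_le_exp.2
        have e : l * -(1 + c / 8 / u) = -(l + c / 8 * l / u) := by ring
        rw [e]
        have h9 : c / 16 * l / u + c / 8 * l / u ≤ c / 4 * l / u := by
          have : 0 ≤ c / 16 * l / u := by positivity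
          have e2 : c / 4 * l / u = c / 16 * l / u + c / 8 * l / u + c / 16 * l / u := by ring
          linarith
        linarith
    _ = (h : ℝ) ^ (-(1 + c / 8 / u)) := by
        rw [Real.rpow_def_of_pos hh0, hl]

/-- **Explicit lower bound of the gap.** -/
theorem gap_large : ∃ B : ℝ, 0 < B ∧ ∀ᶠ h : ℕ in atTop,
    (h : ℝ) ^ (-(B * Real.log (Real.log h))) ≤ Real.log (mu / nu h) := by
  obtain ⟨c, hc, m0, hms⟩ := ms_lower
  obtain ⟨K, hK, hgap⟩ := gap_lower
  obtain ⟨B, hB⟩ : ∃ B, B = 12 / c := ⟨_, rfl⟩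
  have hB0 : 0 < B := by rw [hB]; positivity
  refine ⟨B + 1, by positivity, ?_⟩
  obtain ⟨C, hC⟩ : ∃ C, C = 1 + 1 / B + |Real.log (2 * B)| + 8 * K * B ^ 2 := ⟨_, rfl⟩
  have t1 : 0 < 1 / B := by positivity
  have t2 := abs_nonneg (Real.log (2 * B))
  have t3 : 0 < 8 * K * B ^ 2 := by positivity
  filter_upwards [big C, eventually_ge_atTop m0, eventually_ge_atTop 2] with h ⟨hu, hul⟩ hm0 h2
  obtain ⟨l, hl⟩ : ∃ l, l = Real.log (h : ℝ) := ⟨_, rfl⟩
  obtain ⟨u, hu'⟩ : ∃ u, u = Real.log l := ⟨_, rfl⟩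
  rw [← hl, ← hu'] at hu hul
  rw [← hl, ← hu']
  have hu1 : 1 ≤ u := by linarith
  have hu0 : 0 < u := by linarith
  have hh0 : (0 : ℝ) < h := by exact_mod_cast (by omega : 0 < h)
  have hh2 : (2 : ℝ) ≤ h := by exact_mod_cast h2
  have hl0 : 0 < l := by rw [hl]; exact Real.log_pos (by linarith)
  have hel : Real.exp l = h := by rw [hl, Real.exp_log hh0]
  have heu : Real.exp u = l := by rw [hu', Real.exp_log hl0]
  have hl1 : 1 ≤ l := by
    rw [← heu]
    linarith [Real.add_one_le_exp u]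
  have hlh : l ≤ h := by
    rw [← hel]
    linarith [Real.add_one_le_exp l]
  have hBu : 1 ≤ B * u := by
    have : 1 / B ≤ u := by linarith
    rw [div_le_iff₀ hB0] at this
    linarith
  have hBlu : 1 ≤ B * (l * u) := by nlinarith
  obtain ⟨y, hy⟩ : ∃ y, y = Real.exp (B * (l * u)) := ⟨_, rfl⟩
  have hyh : (h : ℝ) ≤ y := by
    rw [hy, ← hel]
    exact Real.exp_le_exp.2 (by nlinarith)
  obtain ⟨m, hm⟩ : ∃ m, m = ⌈y⌉₊ := ⟨_, rfl⟩
  have hmy : y ≤ (m : ℝ) := by rw [hm]; exact Nat.le_ceil y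
  have hmh : h ≤ m := by
    have : (h : ℝ) ≤ m := hyh.trans hmy
    exact_mod_cast this
  have hy0 : 0 < y := by linarith
  have hmy2 : (m : ℝ) ≤ 2 * y := by
    have : (m : ℝ) < y + 1 := by rw [hm]; exact Nat.ceil_lt_add_one hy0.le
    linarith
  have hm0' : (0 : ℝ) < m := by linarith
  have hlm1 : B * (l * u) ≤ Real.log m := by
    have := Real.log_le_log hy0 hmy
    rwa [hy, Real.log_exp] at this
  have hlm2 : Real.log m ≤ 2 * B * (l * u) := by
    have h3 := Real.log_le_log hm0' hmy2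
    rw [Real.log_mul (by norm_num) hy0.ne', hy, Real.log_exp] at h3
    have := Real.log_two_lt_d9
    linarith
  have hlm0 : 1 ≤ Real.log m := by linarith
  have hllm1 : 0 ≤ Real.log (Real.log m) := Real.log_nonneg hlm0
  have hllm2 : Real.log (Real.log m) ≤ 3 * u := by
    have h3 : Real.log (Real.log m) ≤ Real.log (2 * B * (l * u)) :=
      Real.log_le_log (by linarith) hlm2
    rw [Real.log_mul (by positivity) (by positivity), Real.log_mul hl0.ne' hu0.ne', ← hu'] at h3
    have h4 := Real.log_le_sub_one_of_pos hu0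
    have h5 := le_abs_self (Real.log (2 * B))
    linarith
  have hlmu : u < Real.log m := by
    -- `log m ≥ B l u ≥ l ≥ ...`
    have h3 : u ≤ l - 1 := by rw [hu']; exact Real.log_le_sub_one_of_pos hl0
    nlinarith
  have hllm4 : 0 < Real.log (Real.log m) := Real.log_pos (by linarith)
  have hms' := hms m (by omega)
  have hexp : (1 - c / Real.log (Real.log m)) * Real.log m ≤ Real.log m - 4 * l := by
    have h3 : 4 * l ≤ c / Real.log (Real.log m) * Real.log m := by
      rw [div_mul_eq_mul_div, le_div_iff₀ hllm4]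
      calc 4 * l * Real.log (Real.log m) ≤ 4 * l * (3 * u) := by gcongr
        _ = c * (B * (l * u)) := by rw [hB]; field_simp; ring
        _ ≤ c * Real.log m := by gcongr
    linarith
  have hinv : 1 / ms m ≤ m * ((h : ℝ) ^ 4)⁻¹ := by
    refine hms'.trans ((Real.exp_le_exp.2 hexp).trans (le_of_eq ?_))
    rw [Real.exp_sub, Real.exp_log hm0', mul_comm 4 l, Real.exp_mul, hel, div_eq_mul_inv]
    norm_num
  have hcond : K * ((h : ℝ) + 1) * Real.log m ^ 2 / ms m ≤ m := by
    have h3 : K * ((h : ℝ) + 1) * Real.log m ^ 2 / ms m =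
        K * ((h : ℝ) + 1) * Real.log m ^ 2 * (1 / ms m) := by ring
    rw [h3]
    have h4 : Real.log m ^ 2 ≤ (2 * B * (l * u)) ^ 2 := pow_le_pow_left₀ (by linarith) hlm2 2
    have h5 : 8 * K * B ^ 2 * u ^ 2 ≤ l := by
      refine le_trans ?_ hul
      apply mul_le_mul_of_nonneg_right _ (by positivity)
      linarith
    have h6 : K * ((h : ℝ) + 1) * (2 * B * (l * u)) ^ 2 ≤ (h : ℝ) ^ 4 := by
      calc K * ((h : ℝ) + 1) * (2 * B * (l * u)) ^ 2 ≤ K * (2 * h) * (2 * B * (l * u)) ^ 2 := by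
            gcongr
            linarith
        _ = h * l ^ 2 * (8 * K * B ^ 2 * u ^ 2) := by ring
        _ ≤ h * (h : ℝ) ^ 2 * h := by
            have h7 : 8 * K * B ^ 2 * u ^ 2 ≤ h := h5.trans hlh
            gcongr
        _ = (h : ℝ) ^ 4 := by ring
    have h8 : 0 ≤ 1 / ms m := by
      have := ms_pos (m := m) (by omega)
      positivity
    calc K * ((h : ℝ) + 1) * Real.log m ^ 2 * (1 / ms m)
        ≤ K * ((h : ℝ) + 1) * (2 * B * (l * u)) ^ 2 * (m * ((h : ℝ) ^ 4)⁻¹) := by
          exact mul_le_mul (mul_le_mul_of_nonneg_left h4 (by positivity)) hinv h8 (by positivity)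
      _ ≤ (h : ℝ) ^ 4 * (m * ((h : ℝ) ^ 4)⁻¹) := by gcongr
      _ = m := by field_simp
  have h3 := hgap m (by omega) h hcond
  refine le_trans ?_ h3
  have h4 : 1 ≤ Real.log m ^ 2 := one_le_pow₀ hlm0
  calc (h : ℝ) ^ (-((B + 1) * u)) = Real.exp (-((B + 1) * (l * u))) := by
        rw [Real.rpow_def_of_pos hh0, ← hl]
        congr 1
        ring
    _ ≤ Real.exp (-(B * (l * u)) - Real.log 2) := by
        apply Real.exp_le_exp.2
        have := Real.log_two_lt_d9
        nlinarith
    _ = 1 / (2 * y) := by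
        rw [Real.exp_sub, Real.exp_log (by norm_num), Real.exp_neg, ← hy]
        field_simp
    _ ≤ 1 / m := one_div_le_one_div_of_le hm0' hmy2
    _ ≤ Real.log m ^ 2 / m := div_le_div_of_nonneg_right h4 hm0'.le

end Pool.Agent.H315.SAW
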