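import Pool.Agent.Y981.L2.Diam
import Pool.Agent.Y981.L2X.Leg

/-!
Self-avoiding words which stay in a strip: submultiplicativity, an upper bound by the area, and
a lower bound by chains of bridges.
-/

set_option autoImplicit false

namespace Pool.Agent.H315.SAW

open Pool.Agent.TH795.EP Pool.Agent.TH795.EP2 Pool.Agent.Y981.L2 H981 Finset Filter Topology

/-- the heights of the points of the word differ by at most `h` -/
def Low (h : ℕ) (w : List St) : Prop := ∀ m, m <:+: w → |dy m| ≤ h

/-- number of self-avoiding words of length `n` which stay in a strip of height `h` -/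
noncomputable def S (h n : ℕ) : ℕ := (fs (fun w => Saw w ∧ Low h w) n).card

theorem Low.sub {h : ℕ} {w m : List St} (hw : Low h w) (hm : m <:+: w) : Low h m :=
  fun u hu => hw u (hu.trans hm)

theorem Low.mono {h h' : ℕ} (hh : h ≤ h') {w : List St} (hw : Low h w) : Low h' w := by
  intro m hm
  have := hw m hm
  have h2 : (h : ℤ) ≤ h' := by exact_mod_cast hh
  linarith

theorem S_mono {h h' : ℕ} (hh : h ≤ h') (n : ℕ) : S h n ≤ S h' n := by
  unfold S
  apply Finset.card_le_card
  intro w hw
  rw [mem_fs] at hw ⊢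
  exact ⟨⟨hw.1.1, hw.1.2.mono hh⟩, hw.2⟩

theorem S_le_c (h n : ℕ) : S h n ≤ c n := by
  unfold S c
  apply Finset.card_le_card
  intro w hw
  rw [mem_fs] at hw ⊢
  exact ⟨hw.1.1, hw.2⟩

/-- submultiplicativity -/
theorem S_add (h a b : ℕ) : S h (a + b) ≤ S h a * S h b := by
  unfold S
  rw [← Finset.card_product]
  apply card_le_of_decode (fun q => q.1 ++ q.2)
  intro w hw
  rw [mem_fs] at hw
  obtain ⟨⟨h1, h2⟩, h3⟩ := hw
  have t1 : w.take a <:+: w := (List.take_prefix _ _).isInfix
  have t2 : w.drop a <:+: w := (List.drop_suffix _ _).isInfix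
  refine ⟨(w.take a, w.drop a), ?_, List.take_append_drop _ _⟩
  rw [Finset.mem_product, mem_fs, mem_fs]
  refine ⟨⟨⟨h1.subw t1, h2.sub t1⟩, ?_⟩, ⟨h1.subw t2, h2.sub t2⟩, ?_⟩
  · simp only [List.length_take]; omega
  · simp only [List.length_drop]; omega

theorem S_mul_le (h m k j : ℕ) : S h (m * k + j) ≤ S h m ^ k * S h j := by
  induction k with
  | zero => simp
  | succ k ih =>
    have e : m * (k + 1) + j = m + (m * k + j) := by ring
    rw [e, pow_succ]
    calc S h (m + (m * k + j)) ≤ S h m * S h (m * k + j) := S_add h m _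
      _ ≤ S h m * (S h m ^ k * S h j) := Nat.mul_le_mul_left _ ih
      _ = _ := by ring

/-- a straight horizontal word -/
theorem S_pos (h n : ℕ) : 1 ≤ S h n := by
  unfold S
  rw [Nat.one_le_iff_ne_zero, Ne, Finset.card_eq_zero]
  intro he
  have h1 : List.replicate n St.E ∈ fs (fun w => Saw w ∧ Low h w) n := by
    rw [mem_fs]
    refine ⟨⟨?_, ?_⟩, by simp⟩
    · intro m hm hx _
      obtain ⟨k, -, rfl⟩ := List.sublist_replicate_iff.1 hm.sublist
      have : dx (List.replicate k St.E) = k := by simp [dx]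
      rw [this] at hx
      have : k = 0 := by exact_mod_cast hx
      rw [this]
      rfl
    · intro m hm
      obtain ⟨k, -, rfl⟩ := List.sublist_replicate_iff.1 hm.sublist
      have : dy (List.replicate k St.E) = 0 := by simp [dy]
      rw [this]
      simp
  rw [he] at h1
  simp at h1

theorem sub_of_path {w : List St} {i j : ℕ} (hij : i ≤ j) : ∃ m, m <:+: w ∧
    dx m = (path w j).1 - (path w i).1 ∧ dy m = (path w j).2 - (path w i).2 := by
  refine ⟨(w.drop i).take (j - i), ((List.take_prefix _ _).isInfix).trans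
    (List.drop_suffix _ _).isInfix, ?_⟩
  have h1 : w.take j = w.take i ++ (w.drop i).take (j - i) := by
    rw [← List.take_add]; congr 1; omega
  unfold path
  rw [h1]
  simp only [dx_append, dy_append]
  constructor <;> ring

theorem path_of_sub {w m : List St} (hm : m <:+: w) : ∃ i j, i ≤ j ∧ j ≤ w.length ∧
    dx m = (path w j).1 - (path w i).1 ∧ dy m = (path w j).2 - (path w i).2 := by
  obtain ⟨i, j, hij, hj, h⟩ := infix_iff_take_drop'.mp hm
  refine ⟨i, j, hij, hj, ?_⟩
  unfold path
  rw [h]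
  simp only [dx_append, dy_append]
  constructor <;> ring

/-- a bounded set of integers spread over at most `R` -/
theorem spread (n : ℕ) (f : ℕ → ℤ) (R : ℕ) (hf : ∀ i j, i ≤ n → j ≤ n → |f j - f i| ≤ R) :
    ∃ a : ℤ, ∀ i ≤ n, f i ∈ Finset.Icc a (a + R) := by
  obtain ⟨i0, hi0, hmin⟩ := Finset.exists_min_image (range (n + 1)) f ⟨0, by simp⟩
  rw [Finset.mem_range] at hi0
  refine ⟨f i0, fun i hi => ?_⟩
  rw [Finset.mem_Icc]
  have h1 := hmin i (by rw [Finset.mem_range]; omega)
  have h2 := hf i0 i (by omega) hi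
  rw [abs_le] at h2
  exact ⟨h1, by omega⟩

/-- **Area.** A self-avoiding word in a low strip is wide. -/
theorem wide_of_low {h : ℕ} {w : List St} (hw : Saw w) (hl : Low h w) {r : ℝ} (hr : 0 < r)
    (hc : ((h : ℝ) + 1) * (r + 1) < w.length + 1) : Wide r w := by
  classical
  by_contra hcon
  obtain ⟨n, hn⟩ : ∃ n, n = w.length := ⟨_, rfl⟩
  obtain ⟨R, hR⟩ : ∃ R : ℕ, R = ⌊r⌋₊ := ⟨_, rfl⟩
  have hRr : (R : ℝ) ≤ r := by rw [hR]; exact Nat.floor_le hr.le
  have hx : ∀ i j, i ≤ n → j ≤ n → |(path w j).1 - (path w i).1| ≤ R := by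
    have key : ∀ i j, i ≤ j → j ≤ n → |(path w j).1 - (path w i).1| ≤ R := by
      intro i j hij hj
      have h1 : ¬ r ≤ ln2 ((path w j).1 - (path w i).1, (path w j).2 - (path w i).2) :=
        fun h => hcon ⟨i, j, hij, by omega, h⟩
      push Not at h1
      have h2 : |(((path w j).1 - (path w i).1 : ℤ) : ℝ)| ≤
          ln2 ((path w j).1 - (path w i).1, (path w j).2 - (path w i).2) := by
        unfold ln2
        apply Real.abs_le_sqrt
        simp only
        have := sq_nonneg (((path w j).2 - (path w i).2 : ℤ) : ℝ)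
        linarith
      have h3 : |(path w j).1 - (path w i).1| ≤ ⌊r⌋ := by
        rw [Int.le_floor]
        push_cast at h2 ⊢
        linarith
      have h4 : (⌊r⌋ : ℤ) = (⌊r⌋₊ : ℕ) := (Int.natCast_floor_eq_floor hr.le).symm
      rw [hR, ← h4]
      exact h3
    intro i j hi hj
    rcases le_total i j with h1 | h1
    · exact key i j h1 hj
    · rw [abs_sub_comm]; exact key j i h1 hi
  have hy : ∀ i j, i ≤ n → j ≤ n → |(path w j).2 - (path w i).2| ≤ h := by
    have key : ∀ i j, i ≤ j → j ≤ n → |(path w j).2 - (path w i).2| ≤ h := by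
      intro i j hij hj
      obtain ⟨m, hm, -, hm2⟩ := sub_of_path (w := w) hij
      rw [← hm2]
      exact hl m hm
    intro i j hi hj
    rcases le_total i j with h1 | h1
    · exact key i j h1 hj
    · rw [abs_sub_comm]; exact key j i h1 hi
  obtain ⟨a, ha⟩ := spread n (fun i => (path w i).1) R hx
  obtain ⟨b, hb⟩ := spread n (fun i => (path w i).2) h hy
  have hinj := (saw_iff n hn.symm).1 hw
  have hcard : (n + 1) ≤ (R + 1) * (h + 1) := by
    have h1 : (Finset.univ.image (fun i : Fin (n + 1) => path w i)).card = n + 1 := by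
      rw [Finset.card_image_of_injective _ hinj]
      simp
    have h2 : (Finset.univ.image (fun i : Fin (n + 1) => path w i)) ⊆
        Finset.Icc a (a + R) ×ˢ Finset.Icc b (b + h) := by
      intro p hp
      rw [Finset.mem_image] at hp
      obtain ⟨i, -, rfl⟩ := hp
      rw [Finset.mem_product]
      exact ⟨ha i (by omega), hb i (by omega)⟩
    have h3 := Finset.card_le_card h2
    rw [h1, Finset.card_product, Int.card_Icc, Int.card_Icc] at h3
    have e1 : (a + (R : ℤ) + 1 - a).toNat = R + 1 := by omega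
    have e2 : (b + (h : ℤ) + 1 - b).toNat = h + 1 := by omega
    rwa [e1, e2] at h3
  have h5 : ((n : ℝ) + 1) ≤ (R + 1) * (h + 1) := by exact_mod_cast hcard
  rw [← hn] at hc
  nlinarith [show (0 : ℝ) ≤ h from Nat.cast_nonneg h]

theorem S_le_dfar {h m : ℕ} {r : ℝ} (hr : 0 < r) (hc : ((h : ℝ) + 1) * (r + 1) < m + 1) :
    (S h m : ℝ) ≤ dfar m r * c m := by
  unfold dfar
  rw [div_mul_cancel₀ _ (c_pos m).ne']
  unfold S
  exact_mod_cast Finset.card_le_card (fun w hw => by
    rw [mem_fs] at hw ⊢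
    obtain ⟨⟨h1, h2⟩, h3⟩ := hw
    refine ⟨⟨h1, wide_of_low h1 h2 hr ?_⟩, h3⟩
    rw [h3]
    exact hc)

end Pool.Agent.H315.SAW
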