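import Pool.Agent.H315.SAW.PolyFin
import Pool.Agent.H315.SAW.Choice
import Pool.Agent.Y981.L2.PolyW
import Pool.Agent.TH508.LT.Fin2

/-!
The widths of the self-avoiding polygons: small widths.
-/

set_option autoImplicit false

namespace Pool.Agent.H315.SAW

open Filter Topology
open Real (exp log)
open H981 (St path)

theorem narrow_card {n : ℕ} (hn : 1 ≤ n) (k : ℕ) :
    {f : ZMod (2 * n) → ℤ × ℤ | IsLoop (2 * n) f ∧ ∀ i j, |(f i).1 - (f j).1| ≤ k}.ncard ≤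
      S k (2 * n - 1) := by
  have : NeZero (2 * n) := ⟨by omega⟩
  have hsub : {f : ZMod (2 * n) → ℤ × ℤ | IsLoop (2 * n) f ∧ ∀ i j, |(f i).1 - (f j).1| ≤ k} ⊆
      (fun (w : List St) => fun i : ZMod (2 * n) => ((path w i.val).2, (path w i.val).1)) ''
        (Pool.Agent.TH795.EP.fs (fun w => H981.Saw w ∧ Low k w) (2 * n - 1) : Set (List St)) := by
    rintro f ⟨⟨h0, h1, h2⟩, hk⟩
    have hg : H981.IsLoop (2 * n) (fun i => ((f i).2, (f i).1)) := by
      refine ⟨?_, ?_, ?_⟩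
      · simp only [h0]
        rfl
      · intro i j hij
        apply h1
        simp only [Prod.mk.injEq] at hij
        exact Prod.ext hij.2 hij.1
      · intro i
        have := h2 i
        simp only
        rw [add_comm]
        exact this
    obtain ⟨w, w1, w2, w3⟩ := Y981.L2.loop_word (by omega) hg 0
    have w4 : ∀ j : ℕ, j < 2 * n → path w j = ((f (j : ZMod (2 * n))).2, (f (j : ZMod (2 * n))).1) := by
      intro j hj
      have := w3 j hj
      simp only [zero_add, h0] at this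
      rw [this]
      simp
    refine ⟨w, ?_, ?_⟩
    · rw [Finset.mem_coe, Pool.Agent.TH795.EP.mem_fs]
      refine ⟨⟨w1, ?_⟩, w2⟩
      intro m hm
      obtain ⟨i, j, hij, hj, -, hm2⟩ := path_of_sub hm
      rw [hm2, w4 j (by omega), w4 i (by omega)]
      exact hk _ _
    · funext i
      simp only
      rw [w4 _ (ZMod.val_lt i), ZMod.natCast_zmod_val]
  refine (Set.ncard_le_ncard hsub ((Finset.finite_toSet _).image _)).trans ?_
  refine (Set.ncard_image_le (Finset.finite_toSet _)).trans ?_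
  rw [Set.ncard_coe_finset]
  rfl

theorem loops_low : ∃ K : ℝ, 0 ≤ K ∧ ∀ n : ℕ, 2 ≤ n →
    H981.mu ^ (2 * n) * exp (-(K * log n ^ 2)) ≤
      ({f : ZMod (2 * n) → ℤ × ℤ | IsLoop (2 * n) f}.ncard : ℝ) := by
  obtain ⟨K, hK, h⟩ := Pool.Agent.TH508.LT.sq_PP2
  refine ⟨K, hK, fun n hn => ?_⟩
  have h1 := (h n hn).1
  unfold H981.PP at h1
  have hn0 : (2 : ℝ) ≤ n := by exact_mod_cast hn
  rw [le_div_iff₀ (by positivity)] at h1
  have e : (Nat.card {f : ZMod (2 * n) → ℤ × ℤ // H981.IsLoop (2 * n) f} : ℝ) =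
      ({f : ZMod (2 * n) → ℤ × ℤ | IsLoop (2 * n) f}.ncard : ℝ) := by
    rw [← Nat.card_coe_set_eq]
    rfl
  rw [e] at h1
  refine le_trans ?_ h1
  have hmu := H981.mu_pos
  have h2 : 0 < H981.mu ^ (2 * n) * exp (-(K * log n ^ 2)) := by positivity
  nlinarith

/-- **Upper bound for the probability of small widths.** -/
theorem narrow_upper : ∃ K : ℝ, 0 < K ∧ ∀ m : ℕ, 2 ≤ m → ∀ k : ℕ,
    K * ((k : ℝ) + 1) * (log m ^ 2 / ms m) ≤ m → ∀ n : ℕ, 2 ≤ n →
    ({f : ZMod (2 * n) → ℤ × ℤ | IsLoop (2 * n) f ∧ ∀ i j, |(f i).1 - (f j).1| ≤ k}.ncard : ℝ) ≤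
      exp (K * log n ^ 2 + (K - n / m) * log m ^ 2) *
      ({f : ZMod (2 * n) → ℤ × ℤ | IsLoop (2 * n) f}.ncard : ℝ) := by
  obtain ⟨K1, hK1, h1⟩ := S_upper
  obtain ⟨K2, hK2, h2⟩ := loops_low
  refine ⟨K1 + K2 + 1, by positivity, ?_⟩
  intro m hm k hk n hn
  have hmu := H981.mu_pos
  have hms := ms_pos hm
  have hm0 : (0 : ℝ) < m := by exact_mod_cast (by omega : 0 < m)
  have a1 := h1 m hm k (by
    refine le_trans ?_ hk
    rw [mul_div_assoc]
    have : 0 ≤ (K2 + 1) * ((k : ℝ) + 1) * (log m ^ 2 / ms m) := by positivity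
    linarith) (2 * n - 1)
  have a2 : ({f : ZMod (2 * n) → ℤ × ℤ | IsLoop (2 * n) f ∧
      ∀ i j, |(f i).1 - (f j).1| ≤ k}.ncard : ℝ) ≤ S k (2 * n - 1) := by
    exact_mod_cast narrow_card (by omega) k
  have a3 := h2 n hn
  have a4 : H981.mu ^ (2 * n - 1) ≤ H981.mu ^ (2 * n) :=
    pow_le_pow_right₀ Pool.Agent.V11237.SXT.exists_Bd.choose_spec.one (Nat.sub_le _ _)
  have a5 : (n : ℝ) / m - 1 ≤ (((2 * n - 1) / m : ℕ) : ℝ) := by
    have b1 := Nat.lt_floor_add_one (((2 * n - 1 : ℕ) : ℝ) / m)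
    rw [Nat.floor_div_eq_div] at b1
    have b2 : (n : ℝ) / m ≤ ((2 * n - 1 : ℕ) : ℝ) / m := by
      apply div_le_div_of_nonneg_right _ hm0.le
      exact_mod_cast (by omega : n ≤ 2 * n - 1)
    linarith
  have hL : 0 ≤ log (m : ℝ) ^ 2 := sq_nonneg _
  have hLn : 0 ≤ log (n : ℝ) ^ 2 := sq_nonneg _
  calc ({f : ZMod (2 * n) → ℤ × ℤ | IsLoop (2 * n) f ∧ ∀ i j, |(f i).1 - (f j).1| ≤ k}.ncard : ℝ)
      ≤ H981.mu ^ (2 * n - 1) * exp ((K1 - (((2 * n - 1) / m : ℕ) : ℝ)) * log m ^ 2) := a2.trans a1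
    _ ≤ H981.mu ^ (2 * n) * exp ((K1 + 1 - n / m) * log m ^ 2) := by
        apply mul_le_mul a4 _ (Real.exp_pos _).le (by positivity)
        apply Real.exp_le_exp.2
        apply mul_le_mul_of_nonneg_right _ hL
        linarith
    _ = exp (K2 * log n ^ 2 + (K1 + 1 - n / m) * log m ^ 2) *
        (H981.mu ^ (2 * n) * exp (-(K2 * log n ^ 2))) := by
        have e : exp (K2 * log n ^ 2 + (K1 + 1 - n / m) * log m ^ 2) * exp (-(K2 * log n ^ 2)) =
          exp ((K1 + 1 - n / m) * log m ^ 2) := by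
          rw [← Real.exp_add]; congr 1; ring
        rw [← e]; ring
    _ ≤ exp ((K1 + K2 + 1) * log n ^ 2 + ((K1 + K2 + 1) - n / m) * log m ^ 2) *
        ({f : ZMod (2 * n) → ℤ × ℤ | IsLoop (2 * n) f}.ncard : ℝ) := by
        apply mul_le_mul _ a3 (by positivity) (Real.exp_pos _).le
        apply Real.exp_le_exp.2
        nlinarith [mul_nonneg hK1.le hLn, mul_nonneg hK2 hL]

/-- **Explicit upper bound for fixed widths.** -/
theorem narrow_explicit : ∃ B : ℝ, 0 < B ∧ ∀ᶠ k : ℕ in atTop, ∀ᶠ n : ℕ in atTop,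
    ({f : ZMod (2 * n) → ℤ × ℤ | IsLoop (2 * n) f ∧ ∀ i j, |(f i).1 - (f j).1| ≤ k}.ncard : ℝ) ≤
      exp (-(n * (k : ℝ) ^ (-(B * log (log k))))) *
      ({f : ZMod (2 * n) → ℤ × ℤ | IsLoop (2 * n) f}.ncard : ℝ) := by
  obtain ⟨B, hB, hgap⟩ := gap_large
  obtain ⟨K2, hK2, h2⟩ := loops_low
  refine ⟨B, hB, ?_⟩
  filter_upwards [hgap, eventually_ge_atTop 1] with k hk hk1
  obtain ⟨g, hg⟩ : ∃ g, g = (k : ℝ) ^ (-(B * log (log k))) := ⟨_, rfl⟩
  rw [← hg] at hk ⊢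
  have hk0 : (0 : ℝ) < k := by exact_mod_cast hk1
  have hg0 : 0 < g := by rw [hg]; exact Real.rpow_pos_of_pos hk0 _
  rw [log_quot] at hk
  have hmu := H981.mu_pos
  have hmu1 : 1 ≤ H981.mu := Pool.Agent.V11237.SXT.exists_Bd.choose_spec.one
  have hlmu := Real.log_nonneg hmu1
  -- the number of words in the strip
  have h3 : ∀ᶠ N : ℕ in atTop, log (S k N) / N ≤ lnu k + g / 8 :=
    (lnu_tendsto k).eventually_le_const (by linarith)
  have h4 : Tendsto (fun n : ℕ => 2 * n - 1) atTop atTop :=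
    tendsto_atTop_mono (f := fun n : ℕ => n - 1) (fun n => by omega)
      (tendsto_sub_atTop_nat 1)
  have h5 : ∀ᶠ n : ℕ in atTop, K2 * log (n : ℝ) ^ 2 ≤ (g / 4) * n := by
    have h6 := (Real.isLittleO_pow_log_id_atTop (n := 2)).bound
      (show (0 : ℝ) < g / (4 * (K2 + 1)) by positivity)
    have h7 := tendsto_natCast_atTop_atTop.eventually h6
    filter_upwards [h7] with n hn
    rw [Real.norm_of_nonneg (by positivity), id, Real.norm_of_nonneg (by positivity)] at hn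
    calc K2 * log (n : ℝ) ^ 2 ≤ (K2 + 1) * log (n : ℝ) ^ 2 := by
          have := sq_nonneg (log (n : ℝ))
          linarith
      _ ≤ (K2 + 1) * (g / (4 * (K2 + 1)) * n) := by gcongr
      _ = _ := by field_simp
  filter_upwards [h4.eventually h3, h5, eventually_ge_atTop 4] with n hn1 hn2 hn3
  have hN : 0 < 2 * n - 1 := by omega
  have hNr : (0 : ℝ) < ((2 * n - 1 : ℕ) : ℝ) := by exact_mod_cast hN
  have hNe : ((2 * n - 1 : ℕ) : ℝ) = 2 * n - 1 := by
    rw [Nat.cast_sub (by omega)]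
    push_cast
    ring
  rw [div_le_iff₀ hNr] at hn1
  have a1 : (S k (2 * n - 1) : ℝ) ≤ exp ((lnu k + g / 8) * ((2 * n - 1 : ℕ) : ℝ)) := by
    rw [← Real.log_le_iff_le_exp (S_pos' _ _)]
    exact hn1
  have a2 : ({f : ZMod (2 * n) → ℤ × ℤ | IsLoop (2 * n) f ∧
      ∀ i j, |(f i).1 - (f j).1| ≤ k}.ncard : ℝ) ≤ S k (2 * n - 1) := by
    exact_mod_cast narrow_card (by omega) k
  have a3 := h2 n (by omega)
  have hn4 : (4 : ℝ) ≤ n := by exact_mod_cast hn3
  refine (a2.trans a1).trans ?_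
  refine le_trans ?_ (mul_le_mul_of_nonneg_left a3 (Real.exp_pos _).le)
  have e : H981.mu ^ (2 * n) = exp (2 * n * log H981.mu) := by
    rw [← Real.exp_log hmu, ← Real.exp_nat_mul, Real.exp_log hmu]
    push_cast
    rfl
  rw [e, ← Real.exp_add, ← Real.exp_add]
  apply Real.exp_le_exp.2
  rw [hNe]
  have b1 : (lnu k + g / 8) * (2 * n - 1) ≤ (log H981.mu - g + g / 8) * (2 * n - 1) := by
    apply mul_le_mul_of_nonneg_right _ (by linarith)
    linarith
  nlinarith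

end Pool.Agent.H315.SAW
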