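import Pool.Agent.H315.SAW.Snake

/-!
Substitution of diamond words into coarse polygons.
-/

set_option autoImplicit false

namespace Pool.Agent.H315.SAW

open Finset
open Pool.Agent.H122R3.SX (W c fs mem_fs Saw pos X V st walks fw fw_mem fw_inj pos_append X_append
  exists_word walks_eq Adj infix_append_cases exists_of_pre_map prefix_append_cases adj_next next_of_adj
  pos_eq_of_V ncard_walks)

/-- a closed word without proper closed parts -/
structure Cyc (w : W) : Prop where
  fin : ∀ i, pos w i = 0
  cyc : ∀ v, v <:+: w → v ≠ [] → v ≠ w → ∃ i, pos v i ≠ 0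

theorem cyc_close {D : ℤ} {M : ℕ} (hD : 0 < D) {u Ω z : W} {l : Fin 4} (hu : Saw u)
    (h2 : 2 ≤ u.length) (hc : ∀ i, pos u i + st l i = 0) (h : Fol D M u Ω) (hz : Dm D z) :
    Cyc (Ω ++ tu l z) := by
  have hzX : pos z 1 = 0 := hz.hor
  have hend : ∀ i, pos (tu l z) i = D * st l i := by
    intro i
    rw [pos_tu, hz.top, hzX]
    ring
  constructor
  · intro i
    rw [pos_append, h.fin, hend, ← mul_add, hc, mul_zero]
  · intro v hv h0 hne
    rcases infix_append_cases hv with h1 | h1 | ⟨s, p, hs0, hp0, ⟨q, hq⟩, hp, rfl⟩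
    · exact h.saw v h1 h0
    · exact tu_saw hz.saw l v h1 h0
    · by_contra hcon
      push Not at hcon
      obtain ⟨v', hv', rfl⟩ := exists_of_pre_map hp
      have hv0 : v' ≠ [] := by
        intro e
        apply hp0
        rw [e]
        rfl
      have hq1 : ∀ i, pos q i = D * pos u i + pos (tu l v') i := by
        intro i
        have h2 := hcon i
        rw [pos_append] at h2
        have h3 := h.fin i
        rw [← hq, pos_append] at h3
        change pos s i + pos (tu l v') i = 0 at h2
        linarith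
      by_cases hvw : v' = z
      · subst hvw
        have hq0 : ∀ i, pos q i = 0 := by
          intro i
          rw [hq1 i, hend, ← mul_add, hc, mul_zero]
        have hqn : q = [] := by
          by_contra hq2
          obtain ⟨i, hi⟩ := h.saw q (by rw [← hq]; exact (List.prefix_append q s).isInfix) hq2
          exact hi (hq0 i)
        apply hne
        rw [← hq, hqn]
        rfl
      · obtain ⟨a, b⟩ := hz.mid v' hv' hv0 hvw
        have h5 := InE.of (A := pos u) (l := l) a b
        have hz2 : (fun i => D * pos u i + pos (tu l v') i) = pos q := by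
          funext i
          exact (hq1 i).symm
        rw [hz2] at h5
        rcases h.loc q ⟨s, hq⟩ with ⟨u', h1, -, h3⟩ | ⟨u', l1, h1, -, -, h4⟩
        · exact h5.not_mult hD h3
        · rcases h4.unique hD h5 with h6 | h6
          · have hu' : ∀ i, pos u' i = 0 := fun i => by rw [← h6 i, hc]
            have hun : u' = [] := by
              by_contra hq2
              obtain ⟨i, hi⟩ := hu u' ((List.prefix_append u' [l1]).trans h1).isInfix hq2
              exact hi (hu' i)
            rw [hun] at h1 h4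
            rw [List.nil_append] at h1
            rcases h5.unique hD h4 with h7 | h7
            · obtain ⟨t, ht⟩ := h1
              have ht0 : t ≠ [] := by
                intro e
                rw [e] at ht
                rw [← ht] at h2
                simp at h2
              obtain ⟨i, hi⟩ := hu t (by rw [← ht]; exact (List.suffix_append [l1] t).isInfix) ht0
              apply hi
              have h8 := h7 i
              rw [← ht, pos_append] at h8
              simp at h8
              exact h8
            · rcases st_cases l1 with ⟨a, b⟩ | ⟨a, b⟩ | ⟨a, b⟩ | ⟨a, b⟩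
              · have := h7 0
                rw [hc, a] at this
                simp at this
              · have := h7 0
                rw [hc, a] at this
                simp at this
              · have := h7 1
                rw [hc, b] at this
                simp at this
              · have := h7 1
                rw [hc, b] at this
                simp at this
          · obtain ⟨i, hi⟩ := hu (u' ++ [l1]) h1.isInfix (by simp)
            apply hi
            rw [pos_append]
            have h8 := h6 i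
            rw [hc] at h8
            simp
            linarith

theorem loc_close {D : ℤ} {M : ℕ} {u Ω z : W} {l : Fin 4} (h : Fol D M u Ω) (hz : Dm D z)
    (hzl : z.length = M) {v : W} (hv : v <+: Ω ++ tu l z) : Loc D M (u ++ [l]) v := by
  have hzX : pos z 1 = 0 := hz.hor
  have hend : ∀ i, pos (tu l z) i = D * st l i := by
    intro i
    rw [pos_tu, hz.top, hzX]
    ring
  have hgl : ∀ i, pos (u ++ [l]) i = pos u i + st l i := by
    intro i
    rw [pos_append]
    simp
  rcases prefix_append_cases hv with h1 | ⟨p, rfl, hp⟩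
  · exact (h.loc v h1).mono (List.prefix_append _ _)
  · obtain ⟨v', hv', rfl⟩ := exists_of_pre_map hp
    change Loc D M (u ++ [l]) (Ω ++ tu l v')
    by_cases hv0 : v' = []
    · rw [hv0]
      have e : tu l [] = [] := rfl
      rw [e, List.append_nil]
      exact Or.inl ⟨u, List.prefix_append _ _, h.len, h.fin⟩
    · by_cases hvw : v' = z
      · rw [hvw]
        refine Or.inl ⟨u ++ [l], List.prefix_refl _, ?_, ?_⟩
        · rw [List.length_append, tu_len, h.len, hzl, List.length_append]
          simp
          ring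
        · intro i
          rw [pos_append, hend, h.fin, hgl]
          ring
      · have hl1 : v'.length < M := by
          rw [← hzl]
          obtain ⟨t, ht⟩ := hv'
          have ht0 : t ≠ [] := by
            intro e
            apply hvw
            rw [← ht, e, List.append_nil]
          have := List.length_pos_of_ne_nil ht0
          rw [← ht, List.length_append]
          omega
        have hl0 := List.length_pos_of_ne_nil hv0
        refine Or.inr ⟨u, l, List.prefix_refl _, ?_, ?_, ?_⟩
        · rw [List.length_append, tu_len, h.len]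
          omega
        · rw [List.length_append, tu_len, h.len, mul_add, mul_one]
          omega
        · obtain ⟨a, b⟩ := hz.mid v' hv' hv0 hvw
          have h5 := InE.of (A := pos u) (l := l) a b
          have e : pos (Ω ++ tu l v') = (fun i => D * pos u i + pos (tu l v') i) := by
            funext i
            rw [pos_append, h.fin]
          rw [e]
          exact h5

/-- a closed nearest-neighbour loop on `ℤ²` with `m` steps, rooted at the origin and oriented,
that visits no vertex twice -/
def IsLoop (m : ℕ) (f : ZMod m → ℤ × ℤ) : Prop :=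
  f 0 = 0 ∧ Function.Injective f ∧
    ∀ i : ZMod m, |(f (i + 1)).1 - (f i).1| + |(f (i + 1)).2 - (f i).2| = 1

theorem val_succ {L : ℕ} (hL : 2 ≤ L) (i : ZMod L) :
    (i.val + 1 < L ∧ (i + 1).val = i.val + 1) ∨ (i.val + 1 = L ∧ (i + 1).val = 0) := by
  have : NeZero L := ⟨by omega⟩
  have h1 : (i + 1).val = (i.val + 1) % L := by
    rw [ZMod.val_add, ZMod.val_one_eq_one_mod, Nat.add_mod, Nat.mod_mod, ← Nat.add_mod]
  have h2 := ZMod.val_lt i
  rcases Nat.lt_or_ge (i.val + 1) L with h3 | h3
  · left
    exact ⟨h3, by rw [h1, Nat.mod_eq_of_lt h3]⟩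
  · right
    have h4 : i.val + 1 = L := by omega
    exact ⟨h4, by rw [h1, h4, Nat.mod_self]⟩

/-- the loop of a closed word -/
def lf (L : ℕ) (w : W) : ZMod L → ℤ × ℤ := fun i => V (w.take i.val)

theorem Cyc.saw {w : W} (h : Cyc w) {L : ℕ} (hl : w.length = L) (hL : 1 ≤ L) :
    Saw (w.take (L - 1)) := by
  intro v hv h0
  apply h.cyc v (hv.trans (List.take_prefix _ _).isInfix) h0
  intro e
  have := hv.length_le
  rw [e, List.length_take, hl] at this
  omega

theorem take_succ_eq (w : W) {k : ℕ} (hk : k < w.length) : w.take (k + 1) = w.take k ++ [w[k]] := by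
  rw [List.take_add_one, List.getElem?_eq_getElem hk]; rfl

theorem V_full {w : W} (h : ∀ i, pos w i = 0) : V w = 0 := by
  unfold V X
  rw [h, h]
  rfl

theorem lf_loop {w : W} (h : Cyc w) {L : ℕ} (hl : w.length = L) (hL : 2 ≤ L) :
    IsLoop L (lf L w) := by
  have : NeZero L := ⟨by omega⟩
  have hs := h.saw hl (by omega)
  refine ⟨?_, ?_, ?_⟩
  · unfold lf
    rw [ZMod.val_zero, List.take_zero]
    simp [V]
  · intro i j hij
    unfold lf at hij
    have hi := ZMod.val_lt i
    have hj := ZMod.val_lt j
    have hp := pos_eq_of_V hij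
    by_contra hne
    have hne' : i.val ≠ j.val := fun e => hne (ZMod.val_injective L e)
    have e1 : ∀ k, k < L → (w.take (L - 1)).take k = w.take k := by
      intro k hk
      rw [List.take_take, min_eq_left (by omega)]
    rcases Nat.lt_or_gt_of_ne hne' with h1 | h1
    · obtain ⟨a, ha⟩ := hs.take_ne h1 (by rw [List.length_take, hl]; omega)
      rw [e1 _ hi, e1 _ hj] at ha
      exact ha (hp a)
    · obtain ⟨a, ha⟩ := hs.take_ne h1 (by rw [List.length_take, hl]; omega)
      rw [e1 _ hi, e1 _ hj] at ha
      exact ha (hp a).symm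
  · intro i
    have hi := ZMod.val_lt i
    have h1 : Adj (V (w.take i.val)) (V (w.take (i.val + 1))) := by
      rw [take_succ_eq w (by omega : i.val < w.length)]
      exact adj_next _ _
    have h2 : V (w.take (i.val + 1)) = lf L w (i + 1) := by
      unfold lf
      rcases val_succ hL i with ⟨-, h3⟩ | ⟨h3, h4⟩
      · rw [h3]
      · rw [h3, h4, List.take_zero, List.take_of_length_le (by omega), V_full h.fin]
        simp [V]
        rfl
    have e : V (w.take i.val) = lf L w i := rfl
    rw [h2, e] at h1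
    unfold Adj at h1
    rw [abs_sub_comm (lf L w (i + 1)).1, abs_sub_comm (lf L w (i + 1)).2]
    exact h1

theorem lf_inj {L : ℕ} (hL : 2 ≤ L) {w w' : W} (hl : w.length = L) (hl' : w'.length = L)
    (h0 : ∀ i, pos w i = 0) (h0' : ∀ i, pos w' i = 0) (h : lf L w = lf L w') : w = w' := by
  have : NeZero L := ⟨by omega⟩
  apply fw_inj hl hl'
  funext k
  show V (w.take k) = V (w'.take k)
  rcases Nat.lt_or_ge (k : ℕ) L with h1 | h1
  · have h2 := congrFun h ((k : ℕ) : ZMod L)
    unfold lf at h2
    rw [ZMod.val_cast_of_lt h1] at h2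
    exact h2
  · rw [List.take_of_length_le (by omega), List.take_of_length_le (by omega), V_full h0, V_full h0']

/-- the word of a loop -/
theorem loop_saw_word {P : ℕ} (hP : 2 ≤ P) {Γ : ZMod P → ℤ × ℤ} (h : IsLoop P Γ) :
    ∃ (u : W) (l : Fin 4), Saw u ∧ u.length + 1 = P ∧ (∀ i, pos u i + st l i = 0) ∧
      ∀ i : ZMod P, V (u.take i.val) = Γ i := by
  have : NeZero P := ⟨by omega⟩
  obtain ⟨h1, h2, h3⟩ := h
  have hval : ∀ k : ℕ, k < P → ((k : ZMod P)).val = k := fun k hk => ZMod.val_cast_of_lt hk
  have hγ : (fun i : Fin (P - 1 + 1) => Γ ((i : ℕ) : ZMod P)) ∈ walks (P - 1) := by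
    refine ⟨?_, ?_, ?_⟩
    · show Γ (((0 : Fin (P - 1 + 1)) : ℕ) : ZMod P) = 0
      simp [h1]
    · intro i j hij
      have h4 := h2 hij
      have h5 := congrArg ZMod.val h4
      rw [hval _ (by omega), hval _ (by omega)] at h5
      exact Fin.ext h5
    · intro i
      show Adj (Γ ((i : ℕ) : ZMod P)) (Γ (((i : ℕ) + 1 : ℕ) : ZMod P))
      have h4 := h3 ((i : ℕ) : ZMod P)
      unfold Adj
      push_cast
      rw [abs_sub_comm, abs_sub_comm (Γ ((i : ℕ) : ZMod P)).2]
      exact h4
  obtain ⟨u, hu1, hu2, hu3⟩ := exists_saw_word hγ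
  have hV : ∀ i : ZMod P, V (u.take i.val) = Γ i := by
    intro i
    have h4 := hu3 ⟨i.val, by have := ZMod.val_lt i; omega⟩
    simp only at h4
    rw [h4, ZMod.natCast_zmod_val]
  have hlast : V u = Γ ((P - 1 : ℕ) : ZMod P) := by
    rw [← hV, hval _ (by omega), List.take_of_length_le (by omega)]
  have hadj : Adj (V u) 0 := by
    have h4 := h3 ((P - 1 : ℕ) : ZMod P)
    have h5 : ((P - 1 : ℕ) : ZMod P) + 1 = 0 := by
      have h6 : (((P - 1) + 1 : ℕ) : ZMod P) = 0 := by
        rw [Nat.sub_add_cancel (by omega)]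
        exact ZMod.natCast_self P
      push_cast at h6
      exact h6
    rw [h5, h1, ← hlast] at h4
    unfold Adj
    rw [abs_sub_comm, abs_sub_comm (V u).2]
    exact h4
  obtain ⟨l, hl⟩ := next_of_adj hadj
  refine ⟨u, l, hu1, by omega, ?_, hV⟩
  intro i
  have h4 : V (u ++ [l]) = V [] := by rw [hl]; simp [V]; rfl
  have h5 := pos_eq_of_V h4 i
  rw [pos_append] at h5
  simpa using h5

/-- `f` follows the dilated coarse polygon `D Γ` with `M` steps for each coarse step. -/
def FollowsC (D M P : ℕ) (Γ : ZMod P → ℤ × ℤ) (f : ZMod (M * P) → ℤ × ℤ) : Prop :=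
  ∀ (i : ZMod P) (t : ZMod (M * P)), M * i.val ≤ t.val → t.val < M * (i.val + 1) →
    (t.val = M * i.val → f t = (D * (Γ i).1, D * (Γ i).2)) ∧
    |(f t).1 - D * (Γ i).1| ≤ D ∧ |(f t).2 - D * (Γ i).2| ≤ D

theorem loops_bound {L : ℕ} (hL : 1 ≤ L) :
    {f | IsLoop L f}.Finite ∧ {f | IsLoop L f}.ncard ≤ c (L - 1) := by
  have : NeZero L := ⟨by omega⟩
  have hval : ∀ k : ℕ, k < L → ((k : ZMod L)).val = k := fun k hk => ZMod.val_cast_of_lt hk
  have hmap : ∀ f ∈ {f | IsLoop L f},
      (fun i : Fin (L - 1 + 1) => f ((i : ℕ) : ZMod L)) ∈ walks (L - 1) := by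
    rintro f ⟨h1, h2, h3⟩
    refine ⟨?_, ?_, ?_⟩
    · show f (((0 : Fin (L - 1 + 1)) : ℕ) : ZMod L) = 0
      simp [h1]
    · intro i j hij
      have h4 := h2 hij
      have h5 := congrArg ZMod.val h4
      rw [hval _ (by omega), hval _ (by omega)] at h5
      exact Fin.ext h5
    · intro i
      show Adj (f ((i : ℕ) : ZMod L)) (f (((i : ℕ) + 1 : ℕ) : ZMod L))
      have h4 := h3 ((i : ℕ) : ZMod L)
      unfold Adj
      push_cast
      rw [abs_sub_comm, abs_sub_comm (f ((i : ℕ) : ZMod L)).2]
      exact h4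
  have hinj : Set.InjOn (fun (f : ZMod L → ℤ × ℤ) (i : Fin (L - 1 + 1)) => f ((i : ℕ) : ZMod L))
      {f | IsLoop L f} := by
    intro f _ g _ hfg
    funext i
    have h4 := congrFun hfg ⟨i.val, by have := ZMod.val_lt i; omega⟩
    simp only [ZMod.natCast_zmod_val] at h4
    exact h4
  have hfin := Set.Finite.of_injOn hmap hinj (finite_walks (L - 1))
  refine ⟨hfin, ?_⟩
  rw [← ncard_walks]
  exact Set.ncard_le_ncard_of_injOn _ hmap hinj (finite_walks (L - 1))

theorem loop_card {D M : ℕ} (hD : 0 < D) (hM : 0 < M) {P : ℕ} (hP : 3 ≤ P) {Γ : ZMod P → ℤ × ℤ}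
    (hΓ : IsLoop P Γ) :
    dm D M ^ P ≤ {f | IsLoop (M * P) f ∧ FollowsC D M P Γ f}.ncard := by
  classical
  have : NeZero P := ⟨by omega⟩
  have hMP : 2 ≤ M * P := by nlinarith
  have : NeZero (M * P) := ⟨by omega⟩
  obtain ⟨u, l, hu1, hu2, hu3, hu4⟩ := loop_saw_word (by omega) hΓ
  have hD' : (0 : ℤ) < D := by exact_mod_cast hD
  have h0 : dm D M ^ P ≤ (fs (Fol D M u) (M * u.length) ×ˢ fs (Dm D) M).card := by
    rw [Finset.card_product, ← hu2, pow_succ]
    exact Nat.mul_le_mul_right _ (fo_ge hD' hM u hu1)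
  refine h0.trans ?_
  have hmem : ∀ q ∈ (fs (Fol D M u) (M * u.length) ×ˢ fs (Dm D) M : Finset (W × W)),
      Fol D M u q.1 ∧ Dm D q.2 ∧ q.2.length = M := by
    intro q hq
    rw [Finset.mem_product, mem_fs, mem_fs] at hq
    exact ⟨hq.1.1, hq.2.1, hq.2.2⟩
  have hlen : ∀ q ∈ (fs (Fol D M u) (M * u.length) ×ˢ fs (Dm D) M : Finset (W × W)),
      (q.1 ++ tu l q.2).length = M * P := by
    intro q hq
    obtain ⟨h1, -, h3⟩ := hmem q hq
    rw [List.length_append, tu_len, h1.len, h3, ← hu2]
    ring
  have hcyc : ∀ q ∈ (fs (Fol D M u) (M * u.length) ×ˢ fs (Dm D) M : Finset (W × W)),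
      Cyc (q.1 ++ tu l q.2) := by
    intro q hq
    obtain ⟨h1, h2, h3⟩ := hmem q hq
    exact cyc_close hD' hu1 (by omega) hu3 h1 h2
  rw [← Set.ncard_coe_finset]
  refine Set.ncard_le_ncard_of_injOn (fun q : W × W => lf (M * P) (q.1 ++ tu l q.2)) ?_ ?_
    ((loops_bound (L := M * P) (by omega)).1.subset fun f h => h.1)
  · intro q hq
    rw [Finset.mem_coe] at hq
    refine ⟨lf_loop (hcyc q hq) (hlen q hq) hMP, ?_⟩
    intro i t h1 h2
    obtain ⟨g1, g2, g3⟩ := hmem q hq
    have ht := ZMod.val_lt t
    have e1 : ((q.1 ++ tu l q.2).take t.val).length = t.val := by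
      rw [List.length_take, hlen q hq]
      omega
    have h3 := (loc_close (v := (q.1 ++ tu l q.2).take t.val) g1 g2 g3
      (List.take_prefix _ _)).near hM hD'.le (i := i.val) (by rw [e1]; exact h1)
      (by rw [e1]; exact h2)
    obtain ⟨-, h4, h5⟩ := h3
    rw [e1] at h4
    have hi := ZMod.val_lt i
    have e2 : (u ++ [l]).take i.val = u.take i.val := List.take_append_of_le_length (by omega)
    rw [e2] at h4 h5
    have e3 : lf (M * P) (q.1 ++ tu l q.2) t =
      (pos ((q.1 ++ tu l q.2).take t.val) 1, pos ((q.1 ++ tu l q.2).take t.val) 0) := rfl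
    have e4 : Γ i = (pos (u.take i.val) 1, pos (u.take i.val) 0) := by rw [← hu4 i]; rfl
    show (t.val = M * i.val → lf (M * P) (q.1 ++ tu l q.2) t = (D * (Γ i).1, D * (Γ i).2)) ∧
      |(lf (M * P) (q.1 ++ tu l q.2) t).1 - D * (Γ i).1| ≤ D ∧
      |(lf (M * P) (q.1 ++ tu l q.2) t).2 - D * (Γ i).2| ≤ D
    rw [e3, e4]
    refine ⟨fun h => ?_, h5 1, h5 0⟩
    simp only
    rw [h4 h 0, h4 h 1]
  · intro q hq q' hq' h
    rw [Finset.mem_coe] at hq hq'
    have h1 := lf_inj hMP (hlen q hq) (hlen q' hq') (hcyc q hq).fin (hcyc q' hq').fin h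
    obtain ⟨g1, g2, g3⟩ := hmem q hq
    obtain ⟨k1, k2, k3⟩ := hmem q' hq'
    have h2 := List.append_inj h1 (by rw [g1.len, k1.len])
    exact Prod.ext h2.1 (tu_inj l h2.2)

end Pool.Agent.H315.SAW
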