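import Pool.Agent.H315.SAW.Ball
import Pool.Agent.H315.SAW.Poly

/-!
Polygons which follow a given coarse polygon: probabilities.
-/

set_option autoImplicit false

namespace Pool.Agent.H315.SAW

open Finset
open Real (exp log)
open Pool.Agent.H122R3.SX (W c Saw pos)

theorem base_dm : ∃ K : ℝ, 0 < K ∧ ∀ m : ℕ, 2 ≤ m → ∃ D M : ℕ, 1 ≤ D ∧
    (D : ℝ) ≤ K * (log m ^ 2 / ms m) ∧ 2 * m ≤ M ∧ M ≤ 300 * m ^ 2 ∧
    H981.mu ^ M * exp (-(K * log m ^ 3)) ≤ dm D M := by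
  obtain ⟨K1, hK1, h⟩ := many_dm
  obtain ⟨B, hB1, hB⟩ := ms_le
  have hl2 : 0 < log 2 := Real.log_pos (by norm_num)
  have hmu := H981.mu_pos
  refine ⟨19 * (K1 + B / log 2 ^ 2) + K1, by positivity, ?_⟩
  intro m hm
  have hms := ms_pos hm
  have hlm : log 2 ≤ log (m : ℝ) := Real.log_le_log (by norm_num) (by exact_mod_cast hm)
  have hlm0 : 0 < log (m : ℝ) := by linarith
  obtain ⟨x, hx⟩ : ∃ x, x = log (m : ℝ) ^ 2 / ms m := ⟨_, rfl⟩
  rw [← hx]
  have hx0 : 0 < x := by rw [hx]; positivity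
  obtain ⟨R, hR⟩ : ∃ R, R = ⌈K1 * x⌉₊ := ⟨_, rfl⟩
  have hR1 : 1 ≤ R := by rw [hR]; exact Nat.ceil_pos.2 (by positivity)
  have hR2 : K1 * log m ^ 2 / ms m ≤ R := by
    rw [hR, mul_div_assoc, ← hx]
    exact Nat.le_ceil _
  have hR3 : (R : ℝ) ≤ K1 * x + 1 := by rw [hR]; exact (Nat.ceil_lt_add_one (by positivity)).le
  have h1x : 1 ≤ (B / log 2 ^ 2) * x := by
    rw [hx, div_mul_div_comm, le_div_iff₀ (by positivity), one_mul]
    have a1 := hB m hm
    have a2 : log 2 ^ 2 ≤ log (m : ℝ) ^ 2 := pow_le_pow_left₀ hl2.le hlm 2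
    calc log 2 ^ 2 * ms m ≤ log (m : ℝ) ^ 2 * B := by gcongr
      _ = _ := by ring
  obtain ⟨D, M, hD1, hD2, hM1, hM2, hdm⟩ := h m hm R hR1 hR2
  refine ⟨D, M, hD1, ?_, hM1, hM2, ?_⟩
  · have a1 : (D : ℝ) ≤ 19 * R := by exact_mod_cast hD2
    have a2 : 0 ≤ K1 * x := by positivity
    nlinarith
  · refine le_trans ?_ hdm
    apply mul_le_mul_of_nonneg_left _ (by positivity)
    apply Real.exp_le_exp.2
    have a4 : (0 : ℝ) ≤ 19 * (K1 + B / log 2 ^ 2) * (log m ^ 3) := by positivity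
    nlinarith

/-- **The uniform polygon follows a coarse polygon.** -/
theorem poly_main : ∃ K : ℝ, 0 < K ∧ ∀ m : ℕ, 2 ≤ m → ∃ D M : ℕ, 1 ≤ D ∧
    (D : ℝ) ≤ K * (log m ^ 2 / ms m) ∧ 2 * m ≤ M ∧ M ≤ 300 * m ^ 2 ∧
    ∀ (P : ℕ) (Γ : ZMod P → ℤ × ℤ), 3 ≤ P → IsLoop P Γ →
      (0 : ℝ) < ({f | IsLoop (M * P) f}.ncard : ℝ) ∧
      exp (-(K * P * log m ^ 3)) * ({f | IsLoop (M * P) f}.ncard : ℝ) ≤
        ({f | IsLoop (M * P) f ∧ FollowsC D M P Γ f}.ncard : ℝ) := by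
  obtain ⟨K0, hK0, hbase⟩ := base_dm
  obtain ⟨C, hC, hlog⟩ := log3
  obtain ⟨K2, hB⟩ := Pool.Agent.V11237.SXT.exists_Bd
  have hmuE : Pool.Agent.V11237.SXT.mu = H981.mu := rfl
  rw [hmuE] at hB
  have hK2 := hB.Kn
  have hl2 : 0 < log 2 := Real.log_pos (by norm_num)
  have hmu := H981.mu_pos
  have hmu1 := hB.one
  obtain ⟨Kf, hKf⟩ : ∃ Kf, Kf = 4 / log 2 ^ 3 + K2 * C + K0 := ⟨_, rfl⟩
  refine ⟨Kf, by rw [hKf]; positivity, ?_⟩
  intro m hm
  obtain ⟨D, M, hD1, hD2, hM1, hM2, hdm⟩ := hbase m hm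
  have hms := ms_pos hm
  have hlm : log 2 ≤ log (m : ℝ) := Real.log_le_log (by norm_num) (by exact_mod_cast hm)
  have hlm0 : 0 < log (m : ℝ) := by linarith
  obtain ⟨y, hy⟩ : ∃ y, y = log (m : ℝ) ^ 2 / ms m := ⟨_, rfl⟩
  rw [← hy] at hD2 ⊢
  have hy0 : 0 < y := by rw [hy]; positivity
  obtain ⟨L, hL⟩ : ∃ L, L = log (m : ℝ) ^ 3 := ⟨_, rfl⟩
  rw [← hL] at hdm ⊢
  have hL0 : 0 < L := by rw [hL]; positivity
  have h4 : (4 : ℝ) ≤ 4 / log 2 ^ 3 * L := by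
    rw [div_mul_eq_mul_div, le_div_iff₀ (by positivity), hL]
    have : log 2 ^ 3 ≤ log (m : ℝ) ^ 3 := pow_le_pow_left₀ hl2.le hlm 3
    linarith
  have hl4 : log 4 ≤ 2 := by
    rw [show (4 : ℝ) = 2 ^ 2 by norm_num, Real.log_pow]
    have := Real.log_two_lt_d9
    push_cast
    linarith
  have hE4 : (4 : ℝ) ≤ exp 2 := by
    rw [← Real.exp_log (show (0 : ℝ) < 4 by norm_num)]
    exact Real.exp_le_exp.2 hl4
  refine ⟨D, M, hD1, ?_, hM1, hM2, ?_⟩
  · refine hD2.trans (mul_le_mul_of_nonneg_right ?_ hy0.le)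
    rw [hKf]
    have : 0 ≤ 4 / log 2 ^ 3 + K2 * C := by positivity
    linarith
  · intro P Γ hP hΓ
    have a1 := loop_card (by omega : 0 < D) (by omega : 0 < M) hP hΓ
    have a1' : ((dm D M : ℝ)) ^ P ≤ {f | IsLoop (M * P) f ∧ FollowsC D M P Γ f}.ncard := by
      exact_mod_cast a1
    have hdm0 : (0 : ℝ) < dm D M := lt_of_lt_of_le (by positivity) hdm
    have hMP' : 1 ≤ M * P := by nlinarith
    constructor
    · have b1 : (0 : ℝ) < ({f | IsLoop (M * P) f ∧ FollowsC D M P Γ f}.ncard : ℝ) :=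
        lt_of_lt_of_le (by positivity) a1'
      have b2 : ({f | IsLoop (M * P) f ∧ FollowsC D M P Γ f}.ncard : ℝ) ≤
          ({f | IsLoop (M * P) f}.ncard : ℝ) := by
        have hsub : {f | IsLoop (M * P) f ∧ FollowsC D M P Γ f} ⊆ {f | IsLoop (M * P) f} :=
          fun f h => h.1
        exact_mod_cast Set.ncard_le_ncard hsub (loops_bound hMP').1
      linarith
    refine le_trans ?_ a1'
    have a2 : (H981.mu ^ M * exp (-(K0 * L))) ^ P ≤ ((dm D M : ℝ)) ^ P :=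
      pow_le_pow_left₀ (by positivity) hdm _
    refine le_trans ?_ a2
    have hMP : 1 ≤ M * P := by nlinarith
    have a3 := (loops_bound (L := M * P) hMP).2
    have a4 : ({f | IsLoop (M * P) f}.ncard : ℝ) ≤ c (M * P - 1) := by exact_mod_cast a3
    have hP1 : P - 1 + 1 = P := by omega
    have a5 := hB.c_le4 (a := M * P - 1) (n := M * (P - 1 + 1)) (by rw [hP1]; omega)
    have a6 := hlog m M (P - 1) hm hM1 hM2
    rw [← hL] at a6
    have hPr : (((P - 1 : ℕ) : ℝ) + 1) = P := by exact_mod_cast hP1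
    rw [hPr] at a6
    have a7 : exp (K2 * log ((M * (P - 1 + 1) : ℕ) : ℝ) ^ 2) ≤ exp (K2 * C * P * L) := by
      apply Real.exp_le_exp.2
      have := mul_le_mul_of_nonneg_left a6 hK2
      linarith
    have a8 : H981.mu ^ (M * P - 1) ≤ H981.mu ^ (M * P) := pow_le_pow_right₀ hmu1 (Nat.sub_le _ _)
    have hPp : (1 : ℝ) ≤ P := by exact_mod_cast (by omega : 1 ≤ P)
    calc exp (-(Kf * P * L)) * ({f | IsLoop (M * P) f}.ncard : ℝ)
        ≤ exp (-(Kf * P * L)) * c (M * P - 1) := by gcongr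
      _ ≤ exp (-(Kf * P * L)) * (4 * H981.mu ^ (M * P - 1) *
          exp (K2 * log ((M * (P - 1 + 1) : ℕ) : ℝ) ^ 2)) := by gcongr
      _ ≤ exp (-(Kf * P * L)) * (exp 2 * H981.mu ^ (M * P) * exp (K2 * C * P * L)) := by gcongr
      _ = H981.mu ^ (M * P) * exp (-(Kf * P * L) + 2 + K2 * C * P * L) := by
          rw [Real.exp_add, Real.exp_add]; ring
      _ ≤ H981.mu ^ (M * P) * exp (P * (-(K0 * L))) := by
          apply mul_le_mul_of_nonneg_left _ (by positivity)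
          apply Real.exp_le_exp.2
          have b1 : (4 : ℝ) ≤ 4 / log 2 ^ 3 * L * P := by nlinarith
          rw [hKf]
          linarith
      _ = _ := by
          rw [mul_pow, ← pow_mul, ← Real.exp_nat_mul]

/-- the thin coarse rectangle -/
def rc (N : ℕ) : ZMod (2 * N) → ℤ × ℤ := fun i =>
  if i.val < N then (0, (i.val : ℤ)) else (1, 2 * (N : ℤ) - 1 - i.val)

theorem rc_loop {N : ℕ} (hN : 2 ≤ N) : IsLoop (2 * N) (rc N) := by
  have : NeZero (2 * N) := ⟨by omega⟩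
  refine ⟨?_, ?_, ?_⟩
  · unfold rc
    rw [ZMod.val_zero, if_pos (by omega)]
    rfl
  · intro i j hij
    have hi := ZMod.val_lt i
    have hj := ZMod.val_lt j
    apply ZMod.val_injective (2 * N)
    unfold rc at hij
    split_ifs at hij with h1 h2 h2 <;> rw [Prod.mk.injEq] at hij <;> obtain ⟨a, b⟩ := hij <;> omega
  · intro i
    have hi := ZMod.val_lt i
    rcases val_succ (by omega : 2 ≤ 2 * N) i with ⟨h1, h2⟩ | ⟨h1, h2⟩
    · unfold rc
      rw [h2]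
      rcases Nat.lt_or_ge (i.val + 1) N with h3 | h3
      · rw [if_pos h3, if_pos (by omega)]
        push_cast
        simp
      · rw [if_neg (by omega)]
        rcases Nat.lt_or_ge i.val N with h4 | h4
        · have h5 : i.val = N - 1 := by omega
          rw [if_pos h4]
          have h6 : (2 * (N : ℤ) - 1 - ((i.val + 1 : ℕ) : ℤ)) - (i.val : ℤ) = 0 := by omega
          rw [h6]
          simp
        · rw [if_neg (by omega)]
          have h6 : (2 * (N : ℤ) - 1 - ((i.val + 1 : ℕ) : ℤ)) - (2 * (N : ℤ) - 1 - i.val) = -1 := by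
            push_cast; ring
          rw [h6]
          simp
    · unfold rc
      rw [h2, if_pos (by omega), if_neg (by omega)]
      have h3 : (i.val : ℤ) = 2 * N - 1 := by omega
      rw [h3]
      simp

theorem rc_box {D M N : ℕ} (hM : 0 < M) (hN : 2 ≤ N) {f : ZMod (M * (2 * N)) → ℤ × ℤ}
    (h : FollowsC D M (2 * N) (rc N) f) (t : ZMod (M * (2 * N))) :
    -(D : ℤ) ≤ (f t).1 ∧ (f t).1 ≤ 2 * D ∧ -(D : ℤ) ≤ (f t).2 ∧ (f t).2 ≤ D * N := by
  have hL : 0 < M * (2 * N) := by positivity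
  have : NeZero (M * (2 * N)) := ⟨hL.ne'⟩
  have : NeZero (2 * N) := ⟨by omega⟩
  have ht := ZMod.val_lt t
  have h1 : t.val / M < 2 * N := Nat.div_lt_of_lt_mul ht
  obtain ⟨-, h2, h3⟩ := h ((t.val / M : ℕ) : ZMod (2 * N)) t
    (by rw [ZMod.val_cast_of_lt h1]; exact Nat.mul_div_le _ _)
    (by rw [ZMod.val_cast_of_lt h1]; exact Nat.lt_mul_div_succ _ hM)
  have hD : (0 : ℤ) ≤ D := Nat.cast_nonneg D
  have e : rc N ((t.val / M : ℕ) : ZMod (2 * N)) =
      if t.val / M < N then (0, ((t.val / M : ℕ) : ℤ)) else (1, 2 * (N : ℤ) - 1 - (t.val / M : ℕ)) := by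
    unfold rc
    rw [ZMod.val_cast_of_lt h1]
  rw [e] at h2 h3
  obtain ⟨q, hq⟩ : ∃ q, q = t.val / M := ⟨_, rfl⟩
  rw [← hq] at h1 h2 h3
  have key : ∀ y : ℤ, 0 ≤ y → y + 1 ≤ N → |(f t).2 - D * y| ≤ D →
      -(D : ℤ) ≤ (f t).2 ∧ (f t).2 ≤ D * N := by
    intro y hy0 hy1 hy
    rw [abs_le] at hy
    have c1 : 0 ≤ (D : ℤ) * y := mul_nonneg hD hy0
    have c2 : (D : ℤ) * (y + 1) ≤ D * N := mul_le_mul_of_nonneg_left hy1 hD
    constructor <;> nlinarith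
  split_ifs at h2 h3 with h4
  · simp only at h2 h3
    have h5 := key _ (by omega) (by omega) h3
    rw [abs_le] at h2
    refine ⟨by linarith, by linarith, h5.1, h5.2⟩
  · simp only at h2 h3
    have h5 := key _ (by omega) (by omega) h3
    rw [abs_le] at h2
    refine ⟨by linarith, by linarith, h5.1, h5.2⟩

end Pool.Agent.H315.SAW
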