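import Pool.Agent.H315.SAW.Subst
import Pool.Agent.H122R3.SX.Link

/-!
Coarse walks as words, the snake, and walks which follow a coarse walk.
-/

set_option autoImplicit false

namespace Pool.Agent.H315.SAW

open Finset
open Pool.Agent.H122R3.SX (W c fs mem_fs Saw pos X V st walks fw fw_mem fw_inj pos_append X_append
  exists_word walks_eq Adj)

/-- the snake in the strip `[0, k) × ℕ` -/
def sn (k i : ℕ) : ℤ × ℤ :=
  (if (i / k) % 2 = 0 then ((i % k : ℕ) : ℤ) else (k : ℤ) - 1 - ((i % k : ℕ) : ℤ), ((i / k : ℕ) : ℤ))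

theorem sn_step {k : ℕ} (hk : 0 < k) (i : ℕ) :
    ((i + 1) / k = i / k ∧ (i + 1) % k = i % k + 1) ∨
      ((i + 1) / k = i / k + 1 ∧ (i + 1) % k = 0 ∧ i % k + 1 = k) := by
  obtain ⟨q, hq⟩ : ∃ q, q = i / k := ⟨_, rfl⟩
  obtain ⟨r, hr⟩ : ∃ r, r = i % k := ⟨_, rfl⟩
  have h1 : i = k * q + r := by rw [hq, hr, Nat.div_add_mod]
  have h2 : r < k := by rw [hr]; exact Nat.mod_lt _ hk
  rw [← hq, ← hr]
  rcases Nat.lt_or_ge (r + 1) k with h | h
  · left
    rw [h1, add_assoc]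
    constructor
    · rw [Nat.mul_add_div hk, Nat.div_eq_of_lt h, add_zero]
    · rw [Nat.mul_add_mod, Nat.mod_eq_of_lt h]
  · right
    have h3 : r + 1 = k := by omega
    rw [h1, add_assoc, h3]
    refine ⟨?_, ?_, rfl⟩
    · rw [Nat.mul_add_div hk, Nat.div_self hk]
    · rw [Nat.mul_add_mod, Nat.mod_self]

theorem sn_zero (k : ℕ) : sn k 0 = 0 := by
  unfold sn
  simp

theorem sn_adj {k : ℕ} (hk : 0 < k) (i : ℕ) : Adj (sn k i) (sn k (i + 1)) := by
  unfold Adj sn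
  rcases sn_step hk i with ⟨h1, h2⟩ | ⟨h1, h2, h3⟩
  · rw [h1, h2]
    simp only
    split_ifs with h
    · rw [show (((i % k : ℕ) : ℤ) - ((i % k + 1 : ℕ) : ℤ)) = -1 by push_cast; ring]
      simp
    · rw [show ((k : ℤ) - 1 - ((i % k : ℕ) : ℤ) - ((k : ℤ) - 1 - ((i % k + 1 : ℕ) : ℤ))) = 1 by
        push_cast; ring]
      simp
  · rw [h1, h2]
    have h4 : ((i % k : ℕ) : ℤ) = k - 1 := by omega
    simp only
    rcases Nat.mod_two_eq_zero_or_one (i / k) with h5 | h5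
    · have h6 : (i / k + 1) % 2 ≠ 0 := by omega
      rw [if_pos h5, if_neg h6, h4]
      simp
    · have h5' : (i / k) % 2 ≠ 0 := by omega
      have h6 : (i / k + 1) % 2 = 0 := by omega
      rw [if_neg h5', if_pos h6, h4]
      simp

theorem sn_inj {k : ℕ} : Function.Injective (sn k) := by
  intro i j h
  unfold sn at h
  rw [Prod.mk.injEq] at h
  obtain ⟨h1, h2⟩ := h
  have h3 : i / k = j / k := by exact_mod_cast h2
  rw [h3] at h1
  have h4 : i % k = j % k := by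
    split_ifs at h1 with h5
    · exact_mod_cast h1
    · have : ((i % k : ℕ) : ℤ) = ((j % k : ℕ) : ℤ) := by linarith
      exact_mod_cast this
  rw [← Nat.div_add_mod i k, ← Nat.div_add_mod j k, h3, h4]

theorem sn_box {k i : ℕ} (h : i < k * k) : 0 ≤ (sn k i).1 ∧ (sn k i).1 + 1 ≤ k ∧
    0 ≤ (sn k i).2 ∧ (sn k i).2 + 1 ≤ k := by
  have hk : 0 < k := by
    rcases Nat.eq_zero_or_pos k with rfl | h1
    · simp at h
    · exact h1
  have h1 : i / k < k := Nat.div_lt_of_lt_mul h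
  have h2 : i % k < k := Nat.mod_lt _ hk
  unfold sn
  simp only
  clear h
  generalize i / k = q at *
  generalize i % k = r at *
  split_ifs <;> refine ⟨?_, ?_, ?_, ?_⟩ <;> omega

/-- the words of a coarse walk -/
theorem exists_saw_word {N : ℕ} {γ : Fin (N + 1) → ℤ × ℤ} (hγ : γ ∈ walks N) :
    ∃ u : W, Saw u ∧ u.length = N ∧ ∀ i : Fin (N + 1), V (u.take i) = γ i := by
  rw [walks_eq] at hγ
  obtain ⟨u, hu, rfl⟩ := hγ
  rw [Finset.mem_coe, mem_fs] at hu
  exact ⟨u, hu.1, hu.2, fun i => rfl⟩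

theorem exists_snake {k N : ℕ} (h : N + 1 ≤ k * k) :
    ∃ u : W, Saw u ∧ u.length = N ∧ ∀ v, v <+: u → 0 ≤ pos v 0 ∧ pos v 0 + 1 ≤ k ∧
      0 ≤ pos v 1 ∧ pos v 1 + 1 ≤ k := by
  have hk : 0 < k := by
    rcases Nat.eq_zero_or_pos k with rfl | h1
    · simp at h
    · exact h1
  have hγ : (fun i : Fin (N + 1) => sn k i) ∈ walks N := by
    refine ⟨?_, ?_, ?_⟩
    · show sn k 0 = 0
      exact sn_zero k
    · intro i j hij
      exact Fin.ext (sn_inj hij)
    · intro i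
      show Adj (sn k i) (sn k (i + 1))
      exact sn_adj hk i
  obtain ⟨u, h1, h2, h3⟩ := exists_saw_word hγ
  refine ⟨u, h1, h2, fun v hv => ?_⟩
  have h4 : v.length ≤ N := by rw [← h2]; exact hv.length_le
  have h5 : v = u.take v.length := List.prefix_iff_eq_take.1 hv
  have h6 := h3 ⟨v.length, by omega⟩
  simp only at h6
  rw [← h5] at h6
  have h7 := sn_box (show v.length < k * k by omega)
  rw [← h6] at h7
  obtain ⟨a1, a2, a3, a4⟩ := h7
  exact ⟨a3, a4, a1, a2⟩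

/-- `ω` follows the dilated coarse walk `D γ` with `M` steps for each coarse step. -/
def Follows (D M N : ℕ) (γ : Fin (N + 1) → ℤ × ℤ) (ω : Fin (M * N + 1) → ℤ × ℤ) : Prop :=
  ∀ (i : Fin (N + 1)) (t : Fin (M * N + 1)), M * (i : ℕ) ≤ t → (t : ℕ) < M * (i + 1) →
    ((t : ℕ) = M * i → ω t = (D * (γ i).1, D * (γ i).2)) ∧
    |(ω t).1 - D * (γ i).1| ≤ D ∧ |(ω t).2 - D * (γ i).2| ≤ D

theorem InE.near {D : ℤ} {A z : Fin 2 → ℤ} {l : Fin 4} (h : InE D A l z) (hD : 0 ≤ D) :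
    |z 0 - D * A 0| ≤ D ∧ |z 1 - D * A 1| ≤ D := by
  obtain ⟨h1, h2⟩ := h
  rw [abs_lt] at h1 h2
  have e1 : D * (2 * (A 0 + A 1) + (st l 0 + st l 1)) =
    2 * (D * A 0) + 2 * (D * A 1) + D * st l 0 + D * st l 1 := by ring
  have e2 : D * (2 * (A 0 - A 1) + (st l 0 - st l 1)) =
    2 * (D * A 0) - 2 * (D * A 1) + D * st l 0 - D * st l 1 := by ring
  rw [e1] at h1
  rw [e2] at h2
  rw [abs_le, abs_le]
  rcases st_cases l with ⟨a, b⟩ | ⟨a, b⟩ | ⟨a, b⟩ | ⟨a, b⟩ <;> rw [a, b] at h1 h2 <;>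
    simp only [mul_one, mul_zero, mul_neg] at h1 h2 <;> omega

theorem Loc.near {D : ℤ} {M : ℕ} {γ v : W} (hM : 0 < M) (hD : 0 ≤ D) (h : Loc D M γ v) {i : ℕ}
    (h1 : M * i ≤ v.length) (h2 : v.length < M * (i + 1)) :
    γ.take i <+: γ ∧ (v.length = M * i → ∀ j, pos v j = D * pos (γ.take i) j) ∧
      ∀ j, |pos v j - D * pos (γ.take i) j| ≤ D := by
  refine ⟨List.take_prefix _ _, ?_⟩
  rcases h with ⟨u, a1, a2, a3⟩ | ⟨u, l, a1, a2, a3, a4⟩
  · have e : u.length = i := by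
      rw [a2] at h1 h2
      have b1 := Nat.le_of_mul_le_mul_left h1 hM
      have b2 := Nat.lt_of_mul_lt_mul_left h2
      omega
    have e2 : γ.take i = u := by
      rw [← e]
      exact (List.prefix_iff_eq_take.1 a1).symm
    rw [e2]
    refine ⟨fun _ => a3, fun j => ?_⟩
    rw [a3 j, sub_self, abs_zero]
    exact hD
  · have e : u.length = i := by
      have b1 : M * i < M * (u.length + 1) := by omega
      have b2 : M * u.length < M * (i + 1) := by omega
      have b3 := Nat.lt_of_mul_lt_mul_left b1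
      have b4 := Nat.lt_of_mul_lt_mul_left b2
      omega
    have e2 : γ.take i = u := by
      rw [← e]
      exact (List.prefix_iff_eq_take.1 ((List.prefix_append u [l]).trans a1)).symm
    rw [e2]
    refine ⟨fun h => ?_, fun j => ?_⟩
    · rw [e] at a2
      omega
    · have := a4.near hD
      fin_cases j
      · exact this.1
      · exact this.2

theorem finite_walks (n : ℕ) : (walks n).Finite := by
  rw [walks_eq]
  exact (Finset.finite_toSet _).image _

theorem follow_card {D M N : ℕ} (hM : 0 < M) {γ : Fin (N + 1) → ℤ × ℤ} {u : W}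
    (hu : u.length = N) (hV : ∀ i : Fin (N + 1), V (u.take i) = γ i) :
    fo D M u ≤ {ω | ω ∈ walks (M * N) ∧ Follows D M N γ ω}.ncard := by
  have hsub : fw (M * N) '' (fs (Fol D M u) (M * N) : Set W) ⊆
      {ω | ω ∈ walks (M * N) ∧ Follows D M N γ ω} := by
    rintro ω ⟨w, hw, rfl⟩
    rw [Finset.mem_coe, mem_fs] at hw
    obtain ⟨hw, hl⟩ := hw
    refine ⟨fw_mem hw.saw hl, ?_⟩
    intro i t h1 h2
    have e1 : (w.take t).length = t := by
      rw [List.length_take, hl]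
      have := t.2
      omega
    have h3 := (hw.loc (w.take t) (List.take_prefix _ _)).near hM (Nat.cast_nonneg D)
      (i := i) (by rw [e1]; exact h1) (by rw [e1]; exact h2)
    obtain ⟨-, h4, h5⟩ := h3
    rw [e1] at h4
    have e2 : fw (M * N) w t = (pos (w.take t) 1, pos (w.take t) 0) := rfl
    have e3 : γ i = (pos (u.take i) 1, pos (u.take i) 0) := by rw [← hV i]; rfl
    rw [e2, e3]
    refine ⟨fun h => ?_, h5 1, h5 0⟩
    simp only
    rw [h4 h 0, h4 h 1]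
  have hinj : Set.InjOn (fw (M * N)) (fs (Fol D M u) (M * N) : Set W) := by
    intro w hw w' hw' h
    rw [Finset.mem_coe, mem_fs] at hw hw'
    exact fw_inj hw.2 hw'.2 h
  have h1 := Set.ncard_le_ncard hsub ((finite_walks (M * N)).subset fun ω h => h.1)
  rw [hinj.ncard_image, Set.ncard_coe_finset] at h1
  unfold fo
  rw [hu]
  exact h1

/-- the word stays in the box of half side `r` -/
def Bx (r : ℝ) (w : W) : Prop := ∀ v, v <+: w → |(pos v 0 : ℝ)| ≤ r ∧ |(pos v 1 : ℝ)| ≤ r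

/-- the number of self-avoiding words which stay in the box of half side `r` -/
noncomputable def cb (r : ℝ) (n : ℕ) : ℕ := (fs (fun w => Saw w ∧ Bx r w) n).card

theorem cb_add (r : ℝ) (a b : ℕ) : cb r (a + b) ≤ cb r a * c b := by
  unfold cb c
  rw [← Finset.card_product]
  apply Finset.card_le_card_of_injOn (fun w => (w.take a, w.drop a))
  · intro w hw
    rw [Finset.mem_coe, mem_fs] at hw
    obtain ⟨⟨h1, h2⟩, h3⟩ := hw
    rw [Finset.mem_coe, Finset.mem_product, mem_fs, mem_fs]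
    refine ⟨⟨⟨?_, ?_⟩, ?_⟩, ?_, ?_⟩
    · exact fun v hv => h1 v (hv.trans (List.take_prefix _ _).isInfix)
    · exact fun v hv => h2 v (hv.trans (List.take_prefix _ _))
    · simp only [List.length_take]; omega
    · exact fun v hv => h1 v (hv.trans (List.drop_suffix _ _).isInfix)
    · simp only [List.length_drop]; omega
  · intro w _ w' _ h
    simp only [Prod.mk.injEq] at h
    rw [← List.take_append_drop a w, ← List.take_append_drop a w', h.1, h.2]

theorem cb_le (r : ℝ) (n : ℕ) :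
    cb r n ≤ {ω | ω ∈ walks n ∧ ∀ t, |((ω t).1 : ℝ)| ≤ r ∧ |((ω t).2 : ℝ)| ≤ r}.ncard := by
  have hsub : fw n '' (fs (fun w => Saw w ∧ Bx r w) n : Set W) ⊆
      {ω | ω ∈ walks n ∧ ∀ t, |((ω t).1 : ℝ)| ≤ r ∧ |((ω t).2 : ℝ)| ≤ r} := by
    rintro ω ⟨w, hw, rfl⟩
    rw [Finset.mem_coe, mem_fs] at hw
    obtain ⟨⟨hw, hb⟩, hl⟩ := hw
    refine ⟨fw_mem hw hl, fun t => ?_⟩
    have h := hb (w.take t) (List.take_prefix _ _)
    exact ⟨h.2, h.1⟩
  have hinj : Set.InjOn (fw n) (fs (fun w => Saw w ∧ Bx r w) n : Set W) := by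
    intro w hw w' hw' h
    rw [Finset.mem_coe, mem_fs] at hw hw'
    exact fw_inj hw.2 hw'.2 h
  have h1 := Set.ncard_le_ncard hsub ((finite_walks n).subset fun ω h => h.1)
  rw [hinj.ncard_image, Set.ncard_coe_finset] at h1
  exact h1

/-- words which follow the snake stay in a box -/
theorem fo_le_cb {D M N k : ℕ} {r : ℝ} (hM : 0 < M) {u : W} (hu : u.length = N)
    (hb : ∀ v, v <+: u → 0 ≤ pos v 0 ∧ pos v 0 + 1 ≤ k ∧ 0 ≤ pos v 1 ∧ pos v 1 + 1 ≤ k)
    (hr : (D : ℝ) * k ≤ r) : fo D M u ≤ cb r (M * N) := by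
  unfold fo cb
  rw [hu]
  apply Finset.card_le_card
  intro w hw
  rw [mem_fs] at hw ⊢
  obtain ⟨hw, hl⟩ := hw
  refine ⟨⟨hw.saw, fun v hv => ?_⟩, hl⟩
  have h1 : M * (v.length / M) ≤ v.length := Nat.mul_div_le _ _
  have h2 : v.length < M * (v.length / M + 1) := Nat.lt_mul_div_succ _ hM
  obtain ⟨h3, -, h4⟩ := (hw.loc v hv).near hM (Nat.cast_nonneg D) h1 h2
  obtain ⟨b1, b2, b3, b4⟩ := hb _ h3
  have h5 : (1 : ℤ) ≤ k := by omega
  have hD : (0 : ℤ) ≤ D := Nat.cast_nonneg D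
  have key : ∀ x y : ℤ, 0 ≤ y → y + 1 ≤ k → |x - D * y| ≤ D → |(x : ℝ)| ≤ r := by
    intro x y hy0 hy1 hx
    refine le_trans ?_ hr
    have : |x| ≤ D * k := by
      rw [abs_le] at hx ⊢
      have c1 : 0 ≤ (D : ℤ) * y := mul_nonneg hD hy0
      have c2 : (D : ℤ) * (y + 1) ≤ D * k := mul_le_mul_of_nonneg_left hy1 hD
      have c3 : (D : ℤ) * 1 ≤ D * k := mul_le_mul_of_nonneg_left h5 hD
      constructor <;> nlinarith
    exact_mod_cast this
  exact ⟨key _ _ b1 b2 (h4 0), key _ _ b3 b4 (h4 1)⟩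

end Pool.Agent.H315.SAW
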