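import Pool.Agent.H315.SAW.Prob
import Pool.Agent.H315.SAW.Choice

/-!
Self-avoiding words in a strip are not wide.
-/

set_option autoImplicit false

namespace Pool.Agent.H315.SAW

open Pool.Agent.TH795.EP Pool.Agent.TH795.EP2 Pool.Agent.Y981.L2 H981 Finset Filter Topology
open Real (exp log)

/-- tail of the diameter, with a free parameter -/
theorem dfar_all : ∃ K : ℝ, 0 ≤ K ∧ ∀ n : ℕ, 2 ≤ n → ∀ m : ℕ, 2 ≤ m → ∀ r : ℝ, 0 ≤ r →
    dfar n r ≤ exp (K * log n ^ 2 + n / m - r * ms m / 4) := by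
  obtain ⟨K3, hK3, h3⟩ := Y981.L2.dfar_le
  obtain ⟨K, hK, hfar⟩ := Y981.L2.far_le
  refine ⟨K3 + K + 15, by positivity, fun n hn m hm r hr => ?_⟩
  have hm0 : (0 : ℝ) < m := by exact_mod_cast (by omega : 0 < m)
  have hms := ms_pos hm
  obtain ⟨h, hh⟩ : ∃ h, h = ms m / 2 := ⟨_, rfl⟩
  have h0 : 0 ≤ h := by rw [hh]; linarith
  have h1 : psi h ≤ 1 / m := by
    apply psi_le_of_lt (by positivity) h0
    change h < ms m
    rw [hh]
    linarith
  have h2 := hfar n hn r h h0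
  have h4 : (3 : ℝ) ≤ 15 * Real.log n ^ 2 := by
    have h5 : Real.log 2 ≤ Real.log n := log_ge hn
    have h6 := Real.log_two_gt_d9
    have h7 : (0.69 : ℝ) ^ 2 ≤ Real.log n ^ 2 := pow_le_pow_left₀ (by norm_num) (by linarith) 2
    norm_num at h7
    linarith
  have h5 : (n : ℝ) * psi h ≤ n / m := by
    calc (n : ℝ) * psi h ≤ n * (1 / m) := by gcongr
      _ = _ := by ring
  refine (h3 n hn r).trans ((mul_le_mul_of_nonneg_left h2 (q_pos n K3).le).trans ?_)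
  unfold q
  rw [← Real.exp_add]
  apply Real.exp_le_exp.2
  have e : h * r / 2 = r * ms m / 4 := by rw [hh]; ring
  linarith

theorem log_sq_nm {n m : ℕ} (hn : 2 ≤ n) (hm : 2 ≤ m) :
    log (n : ℝ) ^ 2 ≤ (2 + 8 / log 2 ^ 2) * (1 + n / m) * log m ^ 2 := by
  have hl2 : 0 < log 2 := Real.log_pos (by norm_num)
  have hlm : log 2 ≤ log (m : ℝ) := Real.log_le_log (by norm_num) (by exact_mod_cast hm)
  have hm0 : (0 : ℝ) < m := by exact_mod_cast (by omega : 0 < m)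
  have hn0 : (0 : ℝ) < n := by exact_mod_cast (by omega : 0 < n)
  have hz : (0 : ℝ) ≤ (n : ℝ) / m := by positivity
  have h1 : log (n : ℝ) ≤ log m + log (1 + (n : ℝ) / m) := by
    rw [← Real.log_mul hm0.ne' (by positivity)]
    apply Real.log_le_log hn0
    rw [mul_add, mul_one, mul_div_cancel₀ _ hm0.ne']
    linarith
  have h2 := log_sq_le (x := 1 + (n : ℝ) / m) (by linarith)
  have h3 : 0 ≤ log (n : ℝ) := Real.log_natCast_nonneg n
  have h4 : log (n : ℝ) ^ 2 ≤ (log m + log (1 + (n : ℝ) / m)) ^ 2 := pow_le_pow_left₀ h3 h1 2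
  have h5 : 1 ≤ 1 / log 2 ^ 2 * log (m : ℝ) ^ 2 := by
    rw [one_div, ← div_eq_inv_mul, le_div_iff₀ (by positivity), one_mul]
    exact pow_le_pow_left₀ hl2.le hlm 2
  have h6 : 8 * (1 + (n : ℝ) / m) ≤ 8 * (1 + (n : ℝ) / m) * (1 / log 2 ^ 2 * log (m : ℝ) ^ 2) :=
    le_mul_of_one_le_right (by positivity) h5
  have h7 : log (m : ℝ) ^ 2 ≤ (1 + (n : ℝ) / m) * log m ^ 2 := by
    have : 0 ≤ (n : ℝ) / m * log m ^ 2 := by positivity
    linarith
  calc log (n : ℝ) ^ 2 ≤ 2 * log m ^ 2 + 2 * log (1 + (n : ℝ) / m) ^ 2 := by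
        nlinarith [sq_nonneg (log (m : ℝ) - log (1 + (n : ℝ) / m))]
    _ ≤ 2 * ((1 + (n : ℝ) / m) * log m ^ 2) +
        8 * (1 + (n : ℝ) / m) * (1 / log 2 ^ 2 * log (m : ℝ) ^ 2) := by linarith
    _ = _ := by ring

/-- **The width of the walks in a strip.** -/
theorem strip_far : ∃ K : ℝ, 0 < K ∧ ∀ m : ℕ, 2 ≤ m → ∀ h : ℕ, K * (log m ^ 2 / ms m) ≤ h →
    ∀ n : ℕ, 2 ≤ n → ∀ r : ℝ, K * (log m ^ 2 / ms m) * (1 + n / m) ≤ r →
    ((fs (fun w => Saw w ∧ (Low h w ∧ Wide r w)) n).card : ℝ) ≤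
      exp (-((1 + n / m) * log m ^ 2)) * S h n := by
  obtain ⟨K1, hK1, hfar⟩ := dfar_all
  obtain ⟨K2, hK2, hlow⟩ := P_lower
  have hl2 : 0 < log 2 := Real.log_pos (by norm_num)
  obtain ⟨K, hK⟩ : ∃ K, K = 4 * (K1 * (2 + 8 / log 2 ^ 2) + 1 / log 2 ^ 2 + K2 + 1) := ⟨_, rfl⟩
  have hK0 : 0 < K := by rw [hK]; positivity
  refine ⟨K, hK0, ?_⟩
  intro m hm h hh n hn r hr
  have hms := ms_pos hm
  have hlm : log 2 ≤ log (m : ℝ) := Real.log_le_log (by norm_num) (by exact_mod_cast hm)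
  have hlm0 : 0 < log (m : ℝ) := by linarith
  have hm0 : (0 : ℝ) < m := by exact_mod_cast (by omega : 0 < m)
  have hc := c_pos n
  obtain ⟨Q, hQ⟩ : ∃ Q, Q = log (m : ℝ) ^ 2 := ⟨_, rfl⟩
  have hQ0 : 0 < Q := by rw [hQ]; positivity
  have hr0 : 0 ≤ r := le_trans (by positivity) hr
  have h1 := hfar n hn m hm r hr0
  have h2 := hlow m hm h (by
    rw [mul_div_assoc]
    refine le_trans (mul_le_mul_of_nonneg_right ?_ (by positivity)) hh
    rw [hK]
    have : 0 ≤ K1 * (2 + 8 / log 2 ^ 2) + 1 / log 2 ^ 2 := by positivity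
    linarith) n
  have h3 := log_sq_nm hn hm
  rw [← hQ] at h2 h3 hr
  have hcard : ((fs (fun w => Saw w ∧ (Low h w ∧ Wide r w)) n).card : ℝ) ≤ dfar n r * c n := by
    unfold dfar
    rw [div_mul_cancel₀ _ hc.ne']
    exact_mod_cast Finset.card_le_card (fun w hw => by
      rw [mem_fs] at hw ⊢
      exact ⟨⟨hw.1.1, hw.1.2.2⟩, hw.2⟩)
  rw [le_div_iff₀ hc] at h2
  have hrm : K * Q * (1 + n / m) ≤ r * ms m := by
    have := mul_le_mul_of_nonneg_right hr hms.le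
    have e : K * (Q / ms m) * (1 + n / m) * ms m = K * Q * (1 + n / m) := by
      field_simp
    linarith
  have hz : (0 : ℝ) ≤ (n : ℝ) / m := by positivity
  have h5 : 1 ≤ 1 / log 2 ^ 2 * Q := by
    rw [hQ, one_div, ← div_eq_inv_mul, le_div_iff₀ (by positivity), one_mul]
    exact pow_le_pow_left₀ hl2.le hlm 2
  have h6 : (n : ℝ) / m ≤ 1 / log 2 ^ 2 * ((1 + n / m) * Q) := by
    calc (n : ℝ) / m ≤ (1 + (n : ℝ) / m) * 1 := by linarith
      _ ≤ (1 + (n : ℝ) / m) * (1 / log 2 ^ 2 * Q) := by gcongr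
      _ = _ := by ring
  refine hcard.trans ?_
  calc dfar n r * c n ≤ exp (K1 * log n ^ 2 + n / m - r * ms m / 4) * c n := by gcongr
    _ ≤ (exp (-((1 + n / m) * log m ^ 2)) * exp (-(K2 * (1 + n / m) * Q))) * c n := by
        apply mul_le_mul_of_nonneg_right _ hc.le
        rw [← Real.exp_add]
        apply Real.exp_le_exp.2
        rw [← hQ]
        have a1 : K1 * log n ^ 2 ≤ K1 * ((2 + 8 / log 2 ^ 2) * (1 + n / m) * Q) := by gcongr
        have a2 : K * Q * (1 + n / m) = 4 * (K1 * ((2 + 8 / log 2 ^ 2) * (1 + n / m) * Q) +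
          1 / log 2 ^ 2 * ((1 + n / m) * Q) + K2 * (1 + n / m) * Q + (1 + n / m) * Q) := by
          rw [hK]; ring
        linarith
    _ = exp (-((1 + n / m) * log m ^ 2)) * (exp (-(K2 * (1 + n / m) * Q)) * c n) := by ring
    _ ≤ _ := by gcongr

end Pool.Agent.H315.SAW
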