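import Pool.Agent.H315.SAW.Ball

/-!
Star shaped families of mutually avoiding self-avoiding words.
-/

set_option autoImplicit false

namespace Pool.Agent.H315.SAW

open Finset
open Real (exp log)
open Pool.Agent.H122R3.SX (W c fs mem_fs Saw pos X V st walks fw fw_mem fw_inj pos_append X_append
  pos_cons pos_nil Adj)

/-- two words which meet only at their start -/
def Av (a b : W) : Prop :=
  ∀ v, v <+: a → ∀ v', v' <+: b → (∀ i, pos v i = pos v' i) → v = [] ∧ v' = []

theorem InE.unique' {D : ℤ} (hD : 0 < D) {u u' z : Fin 2 → ℤ} {l l' : Fin 4} (h : InE D u l z)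
    (h' : InE D u' l' z) : (∀ i, u' i + st l' i = u i) ∨ (∀ i, u' i + st l' i = u i + st l i) :=
  h.unique hD h'

/-- words which follow coarse words that avoid each other avoid each other -/
theorem Fol.av {D : ℤ} {M : ℕ} (hD : 0 < D) {γ γ' w w' : W} (h : Fol D M γ w)
    (h' : Fol D M γ' w') (ha : Av γ γ') : Av w w' := by
  intro v hv v' hv' he
  have hpe : pos v = pos v' := funext he
  rcases h.loc v hv with ⟨u, h1, h2, h3⟩ | ⟨u, l, h1, h2, h3, h4⟩
  · rcases h'.loc v' hv' with ⟨t, g1, g2, g3⟩ | ⟨t, l', g1, g2, g3, g4⟩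
    · have a1 : ∀ i, pos u i = pos t i := by
        intro i
        have := he i
        rw [h3 i, g3 i] at this
        exact mul_left_cancel₀ hD.ne' this
      obtain ⟨rfl, rfl⟩ := ha u h1 t g1 a1
      exact ⟨List.length_eq_zero_iff.1 (by simpa using h2),
        List.length_eq_zero_iff.1 (by simpa using g2)⟩
    · exfalso
      apply g4.not_mult hD (B := pos u)
      intro i
      rw [← he i, h3 i]
  · rcases h'.loc v' hv' with ⟨t, g1, g2, g3⟩ | ⟨t, l', g1, g2, g3, g4⟩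
    · exfalso
      apply h4.not_mult hD (B := pos t)
      intro i
      rw [he i, g3 i]
    · exfalso
      rw [hpe] at h4
      have e : ∀ i, pos (t ++ [l']) i = pos t i + st l' i := by
        intro i; rw [pos_append]; simp
      rcases h4.unique hD g4 with h6 | h6
      · have := (ha u ((List.prefix_append u [l]).trans h1) (t ++ [l']) g1
          (fun i => by rw [e i, h6 i])).2
        simp at this
      · have := (ha (u ++ [l]) h1 (t ++ [l']) g1
          (fun i => by rw [e i, h6 i, pos_append]; simp)).2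
        simp at this

/-- rotation by a right angle -/
def rt (w : W) : W := tu 1 (tu 2 w)

theorem pos_rt (w : W) : pos (rt w) 0 = -pos w 1 ∧ pos (rt w) 1 = pos w 0 := by
  unfold rt
  have s1 : st 1 0 = -1 := rfl
  have s2 : st 1 1 = 0 := rfl
  have s3 : st 2 0 = 0 := rfl
  have s4 : st 2 1 = 1 := rfl
  simp only [pos_tu, s1, s2, s3, s4]
  constructor <;> norm_num

theorem rt_saw {w : W} (h : Saw w) : Saw (rt w) := tu_saw (tu_saw h 2) 1

theorem rt_len (w : W) : (rt w).length = w.length := by unfold rt; rw [tu_len, tu_len]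

theorem pre_rt {w v : W} (h : v <+: rt w) : ∃ v', v' <+: w ∧ v = rt v' := by
  obtain ⟨a, ha, rfl⟩ := Pool.Agent.H122R3.SX.exists_of_pre_map h
  obtain ⟨b, hb, rfl⟩ := Pool.Agent.H122R3.SX.exists_of_pre_map ha
  exact ⟨b, hb, rfl⟩

/-- the word stays in the quadrant, away from one of its sides -/
def Qd (k : ℤ) (w : W) : Prop := ∀ v, v <+: w → v = [] ∨
  (0 ≤ pos v 0 ∧ pos v 0 ≤ k ∧ 1 ≤ pos v 1 ∧ pos v 1 ≤ k)

/-- the four rotated copies -/
def r4 (w : W) (i : Fin 4) : W :=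
  if i = 0 then w else if i = 1 then rt w else if i = 2 then rt (rt w) else rt (rt (rt w))

theorem r4_reg {k : ℤ} {w : W} (h : Qd k w) (i : Fin 4) (v : W) (hv : v <+: r4 w i) : v = [] ∨
    (i = 0 ∧ 0 ≤ pos v 0 ∧ pos v 0 ≤ k ∧ 1 ≤ pos v 1 ∧ pos v 1 ≤ k) ∨
    (i = 1 ∧ 0 ≤ pos v 1 ∧ pos v 1 ≤ k ∧ pos v 0 ≤ -1 ∧ -k ≤ pos v 0) ∨
    (i = 2 ∧ pos v 0 ≤ 0 ∧ -k ≤ pos v 0 ∧ pos v 1 ≤ -1 ∧ -k ≤ pos v 1) ∨
    (i = 3 ∧ pos v 1 ≤ 0 ∧ -k ≤ pos v 1 ∧ 1 ≤ pos v 0 ∧ pos v 0 ≤ k) := by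
  unfold r4 at hv
  have hn : rt [] = [] := rfl
  fin_cases i
  · simp only [Fin.zero_eta, Fin.isValue, if_true] at hv
    rcases h v hv with h1 | h1
    · exact Or.inl h1
    · exact Or.inr (Or.inl ⟨rfl, h1⟩)
  · simp only [Fin.mk_one, Fin.isValue, one_ne_zero, if_false, if_true] at hv
    obtain ⟨v1, hv1, rfl⟩ := pre_rt hv
    rcases h v1 hv1 with rfl | h1
    · exact Or.inl hn
    · refine Or.inr (Or.inr (Or.inl ⟨rfl, ?_⟩))
      rw [(pos_rt v1).1, (pos_rt v1).2]
      omega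
  · have e : ¬ ((2 : Fin 4) = 0) := by decide
    have e2 : ¬ ((2 : Fin 4) = 1) := by decide
    simp only [Fin.reduceFinMk, Fin.isValue, e, e2, if_false, if_true] at hv
    obtain ⟨v1, hv1, rfl⟩ := pre_rt hv
    obtain ⟨v2, hv2, rfl⟩ := pre_rt hv1
    rcases h v2 hv2 with rfl | h1
    · exact Or.inl hn
    · refine Or.inr (Or.inr (Or.inr (Or.inl ⟨rfl, ?_⟩)))
      rw [(pos_rt (rt v2)).1, (pos_rt (rt v2)).2, (pos_rt v2).1, (pos_rt v2).2]
      omega
  · have e : ¬ ((3 : Fin 4) = 0) := by decide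
    have e2 : ¬ ((3 : Fin 4) = 1) := by decide
    have e3 : ¬ ((3 : Fin 4) = 2) := by decide
    simp only [Fin.reduceFinMk, Fin.isValue, e, e2, e3, if_false] at hv
    obtain ⟨v1, hv1, rfl⟩ := pre_rt hv
    obtain ⟨v2, hv2, rfl⟩ := pre_rt hv1
    obtain ⟨v3, hv3, rfl⟩ := pre_rt hv2
    rcases h v3 hv3 with rfl | h1
    · exact Or.inl hn
    · refine Or.inr (Or.inr (Or.inr (Or.inr ⟨rfl, ?_⟩)))
      rw [(pos_rt (rt (rt v3))).1, (pos_rt (rt (rt v3))).2, (pos_rt (rt v3)).1, (pos_rt (rt v3)).2,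
        (pos_rt v3).1, (pos_rt v3).2]
      omega

theorem r4_saw {w : W} (h : Saw w) (i : Fin 4) : Saw (r4 w i) := by
  unfold r4
  split_ifs
  · exact h
  · exact rt_saw h
  · exact rt_saw (rt_saw h)
  · exact rt_saw (rt_saw (rt_saw h))

theorem r4_len (w : W) (i : Fin 4) : (r4 w i).length = w.length := by
  unfold r4
  split_ifs
  · rfl
  · exact rt_len _
  · rw [rt_len, rt_len]
  · rw [rt_len, rt_len, rt_len]

theorem r4_av {k : ℤ} {w : W} (h : Qd k w) {i j : Fin 4} (hij : i ≠ j) : Av (r4 w i) (r4 w j) := by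
  intro v hv v' hv' he
  have h1 := r4_reg h i v hv
  have h2 := r4_reg h j v' hv'
  have e0 := he 0
  have e1 := he 1
  have z0 : ∀ x : W, x = [] → pos x 0 = 0 ∧ pos x 1 = 0 := by
    rintro x rfl
    simp
  by_cases hv0 : v = []
  · refine ⟨hv0, ?_⟩
    obtain ⟨a, b⟩ := z0 v hv0
    by_contra hv0'
    rcases h2 with h2 | h2 | h2 | h2 | h2
    · exact hv0' h2
    all_goals omega
  · exfalso
    rcases h1 with h1 | h1
    · exact hv0 h1
    · rcases h2 with h2 | h2
      · obtain ⟨a, b⟩ := z0 v' h2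
        omega
      · rcases h1 with h1 | h1 | h1 | h1 <;> rcases h2 with h2 | h2 | h2 | h2 <;>
          first
            | (exact hij (h1.1.trans h2.1.symm))
            | omega

/-- the coarse word in the quadrant -/
theorem exists_quad {k N : ℕ} (h : N + 1 ≤ k * k) :
    ∃ u : W, Saw u ∧ u.length = N + 1 ∧ Qd k u := by
  obtain ⟨u, h1, h2, h3⟩ := exists_snake h
  have e0 : st 2 0 = 0 := rfl
  have e1 : st 2 1 = 1 := rfl
  refine ⟨2 :: u, ?_, by simp [h2], ?_⟩
  · intro v hv hv0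
    rcases List.infix_cons_iff.1 hv with h4 | h4
    · rcases List.prefix_cons_iff.1 h4 with h5 | ⟨t, rfl, ht⟩
      · exact absurd h5 hv0
      · refine ⟨1, ?_⟩
        have := (h3 t ht).2.2.1
        rw [pos_cons, e1]
        omega
    · exact h1 v h4 hv0
  · intro v hv
    rcases List.prefix_cons_iff.1 hv with h5 | ⟨t, rfl, ht⟩
    · exact Or.inl h5
    · right
      have := h3 t ht
      rw [pos_cons, pos_cons, e0, e1]
      omega

/-- number of the families of four mutually avoiding words in a box -/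
noncomputable def t4 (r : ℝ) (n : ℕ) : ℕ := by
  classical
  exact ((Fintype.piFinset fun _ : Fin 4 => fs (fun w => Saw w ∧ Bx r w) n).filter
    (fun w => ∀ i j, i ≠ j → Av (w i) (w j))).card

theorem t4_add (r : ℝ) (a b : ℕ) : t4 r (a + b) ≤ t4 r a * c b ^ 4 := by
  classical
  have e : c b ^ 4 = (Fintype.piFinset fun _ : Fin 4 => fs Saw b).card := by
    rw [Fintype.card_piFinset]
    simp [c]
  rw [e]
  unfold t4
  rw [← Finset.card_product]
  apply Finset.card_le_card_of_injOn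
    (fun w => (fun i => (w i).take a, fun i => (w i).drop a))
  · intro w hw
    rw [Finset.mem_coe, Finset.mem_filter, Fintype.mem_piFinset] at hw
    obtain ⟨hw, hav⟩ := hw
    rw [Finset.mem_coe, Finset.mem_product, Finset.mem_filter, Fintype.mem_piFinset,
      Fintype.mem_piFinset]
    refine ⟨⟨fun i => ?_, fun i j hij v hv v' hv' he => ?_⟩, fun i => ?_⟩
    · have h := hw i
      rw [mem_fs] at h ⊢
      obtain ⟨⟨h1, h2⟩, h3⟩ := h
      refine ⟨⟨fun v hv => h1 v (hv.trans (List.take_prefix _ _).isInfix),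
        fun v hv => h2 v (hv.trans (List.take_prefix _ _))⟩, ?_⟩
      simp only [List.length_take]; omega
    · exact hav i j hij v (hv.trans (List.take_prefix _ _)) v' (hv'.trans (List.take_prefix _ _)) he
    · have h := hw i
      rw [mem_fs] at h ⊢
      obtain ⟨⟨h1, h2⟩, h3⟩ := h
      refine ⟨fun v hv => h1 v (hv.trans (List.drop_suffix _ _).isInfix), ?_⟩
      simp only [List.length_drop]; omega
  · intro w _ w' _ h
    simp only [Prod.mk.injEq] at h
    funext i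
    rw [← List.take_append_drop a (w i), ← List.take_append_drop a (w' i), congrFun h.1 i,
      congrFun h.2 i]

theorem fo_le_t4 {D M N k : ℕ} {r : ℝ} (hD : 1 ≤ D) (hM : 0 < M) {u : W} (hu : u.length = N)
    (hq : Qd k u) (hr : (D : ℝ) * (k + 1 : ℕ) ≤ r) :
    ∏ i : Fin 4, fo D M (r4 u i) ≤ t4 r (M * N) := by
  classical
  have e : ∏ i : Fin 4, fo D M (r4 u i) =
      (Fintype.piFinset fun i : Fin 4 => fs (Fol D M (r4 u i)) (M * N)).card := by
    rw [Fintype.card_piFinset]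
    apply Finset.prod_congr rfl
    intro i _
    unfold fo
    rw [r4_len, hu]
  rw [e]
  unfold t4
  apply Finset.card_le_card
  intro w hw
  rw [Fintype.mem_piFinset] at hw
  rw [Finset.mem_filter, Fintype.mem_piFinset]
  refine ⟨fun i => ?_, fun i j hij => ?_⟩
  · have h := hw i
    rw [mem_fs] at h ⊢
    obtain ⟨hwi, hl⟩ := h
    refine ⟨⟨hwi.saw, fun v hv => ?_⟩, hl⟩
    have h1 : M * (v.length / M) ≤ v.length := Nat.mul_div_le _ _
    have h2 : v.length < M * (v.length / M + 1) := Nat.lt_mul_div_succ _ hM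
    obtain ⟨h3, -, h4⟩ := (hwi.loc v hv).near hM (Nat.cast_nonneg D) h1 h2
    have hb : |pos ((r4 u i).take (v.length / M)) 0| ≤ k ∧
        |pos ((r4 u i).take (v.length / M)) 1| ≤ k := by
      have hk : (0 : ℤ) ≤ k := Nat.cast_nonneg k
      rcases r4_reg hq i _ h3 with h5 | h5 | h5 | h5 | h5
      · rw [h5]
        simp
      all_goals
        rw [abs_le, abs_le]
        omega
    have hD' : (0 : ℤ) ≤ D := Nat.cast_nonneg D
    have key : ∀ x y : ℤ, |y| ≤ k → |x - D * y| ≤ D → |(x : ℝ)| ≤ r := by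
      intro x y hy hx
      refine le_trans ?_ hr
      have : |x| ≤ D * (k + 1) := by
        have c1 : |(D : ℤ) * y| ≤ D * k := by
          rw [abs_mul, abs_of_nonneg hD']
          exact mul_le_mul_of_nonneg_left hy hD'
        have c2 := abs_add_le (x - D * y) (D * y)
        have c3 : x - D * y + D * y = x := by ring
        rw [c3] at c2
        linarith
      exact_mod_cast this
    exact ⟨key _ _ hb.1 (h4 0), key _ _ hb.2 (h4 1)⟩
  · have h := (mem_fs.1 (hw i)).1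
    have h' := (mem_fs.1 (hw j)).1
    exact h.av (by exact_mod_cast hD) h' (r4_av hq hij)

/-- from the critical weight at a multiple of `M` to the probability at `n`, for families -/
theorem transfer_pow (p : ℕ) {K0 : ℝ} (hK0 : 0 ≤ K0) : ∃ K : ℝ, 0 < K ∧ ∀ m M : ℕ, 2 ≤ m →
    2 * m ≤ M → M ≤ 300 * m ^ 2 → ∀ f : ℕ → ℕ, (∀ a b, f (a + b) ≤ f a * c b ^ p) → ∀ n : ℕ,
    (H981.mu ^ (M * (n / M + 1)) * exp (-(K0 * ((n / M + 1 : ℕ) : ℝ) * log m ^ 3))) ^ p ≤
      f (M * (n / M + 1)) →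
    exp (-(K * (1 + n / m) * log m ^ 3)) * (c n : ℝ) ^ p ≤ f n := by
  obtain ⟨C, hC, hlog⟩ := log3
  obtain ⟨K2, hB⟩ := Pool.Agent.V11237.SXT.exists_Bd
  have hmuE : Pool.Agent.V11237.SXT.mu = H981.mu := rfl
  rw [hmuE] at hB
  have hK2 := hB.Kn
  have hl2 : 0 < log 2 := Real.log_pos (by norm_num)
  have hmu := H981.mu_pos
  obtain ⟨Kf, hKf⟩ : ∃ Kf, Kf = 4 / log 2 ^ 3 + 4 * K2 * C + 4 * K0 := ⟨_, rfl⟩
  refine ⟨(p : ℝ) * Kf + 1, by rw [hKf]; positivity, ?_⟩
  intro m M hm hM1 hM2 f hf n hfn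
  have hlm : log 2 ≤ log (m : ℝ) := Real.log_le_log (by norm_num) (by exact_mod_cast hm)
  have hlm0 : 0 < log (m : ℝ) := by linarith
  have hm0 : (0 : ℝ) < m := by exact_mod_cast (by omega : 0 < m)
  obtain ⟨L, hL⟩ : ∃ L, L = log (m : ℝ) ^ 3 := ⟨_, rfl⟩
  rw [← hL] at hfn ⊢
  have hL0 : 0 < L := by rw [hL]; positivity
  have h4 : (4 : ℝ) ≤ 4 / log 2 ^ 3 * L := by
    rw [div_mul_eq_mul_div, le_div_iff₀ (by positivity), hL]
    have : log 2 ^ 3 ≤ log (m : ℝ) ^ 3 := pow_le_pow_left₀ hl2.le hlm 3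
    linarith
  have hl4 : log 4 ≤ 2 := by
    rw [show (4 : ℝ) = 2 ^ 2 by norm_num, Real.log_pow]
    have := Real.log_two_lt_d9
    push_cast
    linarith
  have hE4 : (4 : ℝ) ≤ exp 2 := by
    rw [← Real.exp_log (show (0 : ℝ) < 4 by norm_num)]
    exact Real.exp_le_exp.2 hl4
  have hcE : ∀ N a : ℕ, a ≤ M * (N + 1) →
      (c a : ℝ) ≤ H981.mu ^ a * exp (2 + K2 * C * (N + 1) * L) := by
    intro N a ha
    have a1 := hB.c_le4 ha
    have a2 := hlog m M N hm hM1 hM2
    rw [← hL] at a2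
    have a3 : exp (K2 * log ((M * (N + 1) : ℕ) : ℝ) ^ 2) ≤ exp (K2 * C * (N + 1) * L) := by
      apply Real.exp_le_exp.2
      have := mul_le_mul_of_nonneg_left a2 hK2
      linarith
    calc (c a : ℝ) ≤ 4 * H981.mu ^ a * exp (K2 * log ((M * (N + 1) : ℕ) : ℝ) ^ 2) := a1
      _ ≤ exp 2 * H981.mu ^ a * exp (K2 * C * (N + 1) * L) := by gcongr
      _ = _ := by rw [Real.exp_add]; ring
  obtain ⟨N, hN⟩ : ∃ N, N = n / M + 1 := ⟨_, rfl⟩
  rw [← hN] at hfn
  have hnM : n ≤ M * N := by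
    rw [hN]
    exact (Nat.lt_mul_div_succ n (show 0 < M by omega)).le
  have h2 := hf n (M * N - n)
  rw [Nat.add_sub_cancel' hnM] at h2
  have h5 : (H981.mu ^ (M * N) * exp (-(K0 * N * L))) ^ p ≤ f n * (c (M * N - n) : ℝ) ^ p := by
    refine hfn.trans ?_
    exact_mod_cast h2
  have h6 := hcE N (M * N - n) (le_trans (Nat.sub_le _ _) (Nat.mul_le_mul_left M (Nat.le_succ _)))
  have h7 := hcE N n (le_trans hnM (Nat.mul_le_mul_left M (Nat.le_succ _)))
  have h8 : H981.mu ^ (M * N) = H981.mu ^ n * H981.mu ^ (M * N - n) := by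
    rw [← pow_add, Nat.add_sub_cancel' hnM]
  obtain ⟨E, hE⟩ : ∃ E, E = 2 + K2 * C * (N + 1) * L := ⟨_, rfl⟩
  rw [← hE] at h6 h7
  have h9 : (H981.mu ^ n * exp (-(K0 * N * L))) ^ p ≤ f n * exp E ^ p := by
    have b1 : (H981.mu ^ (M * N - n)) ^ p * (H981.mu ^ n * exp (-(K0 * N * L))) ^ p ≤
        (H981.mu ^ (M * N - n)) ^ p * (f n * exp E ^ p) := by
      calc (H981.mu ^ (M * N - n)) ^ p * (H981.mu ^ n * exp (-(K0 * N * L))) ^ p
          = (H981.mu ^ (M * N) * exp (-(K0 * N * L))) ^ p := by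
            rw [h8, ← mul_pow]; congr 1; ring
        _ ≤ f n * (c (M * N - n) : ℝ) ^ p := h5
        _ ≤ f n * (H981.mu ^ (M * N - n) * exp E) ^ p := by gcongr
        _ = _ := by rw [mul_pow]; ring
    exact le_of_mul_le_mul_left b1 (by positivity)
  have hNn : (N : ℝ) ≤ 1 + (n : ℝ) / m := by
    rw [hN]
    push_cast
    have a1 : ((n / M : ℕ) : ℝ) ≤ (n : ℝ) / M := Nat.cast_div_le
    have a2 : (n : ℝ) / M ≤ (n : ℝ) / m := by
      apply div_le_div_of_nonneg_left (Nat.cast_nonneg n) (by positivity)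
      exact_mod_cast (by omega : m ≤ M)
    linarith
  have hnm : (0 : ℝ) ≤ (n : ℝ) / m := by positivity
  have hkey : exp (-(Kf * (1 + n / m) * L)) * (c n : ℝ) ≤
      H981.mu ^ n * exp (-(K0 * N * L)) * exp (-E) := by
    calc exp (-(Kf * (1 + n / m) * L)) * (c n : ℝ) ≤
          exp (-(Kf * (1 + n / m) * L)) * (H981.mu ^ n * exp E) := by gcongr
      _ = H981.mu ^ n * exp (-(Kf * (1 + n / m) * L) + E) := by rw [Real.exp_add]; ring
      _ ≤ H981.mu ^ n * exp (-(K0 * N * L) + -E) := by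
          apply mul_le_mul_of_nonneg_left _ (by positivity)
          apply Real.exp_le_exp.2
          have b1 : K0 * N * L ≤ K0 * (1 + n / m) * L := by gcongr
          have b2 : 2 * (K2 * C * (N + 1) * L) ≤ 4 * (K2 * C * (1 + n / m) * L) := by
            have : (N : ℝ) + 1 ≤ 2 * (1 + n / m) := by linarith
            calc 2 * (K2 * C * (N + 1) * L) ≤ 2 * (K2 * C * (2 * (1 + n / m)) * L) := by gcongr
              _ = _ := by ring
          have b3 : (4 : ℝ) ≤ 4 / log 2 ^ 3 * L * (1 + n / m) := by nlinarith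
          have b5 : 0 ≤ K0 * (1 + n / m) * L := by positivity
          rw [hKf, hE]
          linarith
      _ = _ := by rw [Real.exp_add]; ring
  calc exp (-(((p : ℝ) * Kf + 1) * (1 + n / m) * L)) * (c n : ℝ) ^ p
      ≤ (exp (-(Kf * (1 + n / m) * L)) * (c n : ℝ)) ^ p := by
        rw [mul_pow, ← Real.exp_nat_mul]
        apply mul_le_mul_of_nonneg_right _ (by positivity)
        apply Real.exp_le_exp.2
        have : 0 ≤ (1 + (n : ℝ) / m) * L := by positivity
        linarith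
    _ ≤ (H981.mu ^ n * exp (-(K0 * N * L)) * exp (-E)) ^ p := by gcongr
    _ = (H981.mu ^ n * exp (-(K0 * N * L))) ^ p * exp (-E) ^ p := by rw [mul_pow]
    _ ≤ (f n * exp E ^ p) * exp (-E) ^ p := by gcongr
    _ = f n := by
        rw [mul_assoc, ← mul_pow, ← Real.exp_add]
        simp

end Pool.Agent.H315.SAW
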