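import Pool.Agent.H315.SAW.Star
import Pool.Agent.H315.SAW.BallP

/-!
Star shaped families of mutually avoiding self-avoiding walks.
-/

set_option autoImplicit false

namespace Pool.Agent.H315.SAW

open Finset
open Real (exp log)
open Pool.Agent.H122R3.SX (W c fs mem_fs Saw pos X V st walks fw fw_mem fw_inj pos_append X_append
  pos_cons pos_nil Adj pos_eq_of_V)

/-- the walks avoid each other apart from their common starting point -/
def Avoid {k : ℕ} {n : Fin k → ℕ} (ω : (i : Fin k) → (Fin (n i + 1) → ℤ × ℤ)) : Prop :=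
  ∀ i j, i ≠ j → ∀ s t, ω i s = ω j t → s = 0 ∧ t = 0

/-- the families of mutually avoiding walks with the property `E` -/
def Fam {k : ℕ} (n : Fin k → ℕ) (E : ((i : Fin k) → (Fin (n i + 1) → ℤ × ℤ)) → Prop) :
    Set ((i : Fin k) → (Fin (n i + 1) → ℤ × ℤ)) :=
  {ω | (∀ i, ω i ∈ walks (n i)) ∧ Avoid ω ∧ E ω}

theorem fam_finite {k : ℕ} (n : Fin k → ℕ)
    (E : ((i : Fin k) → (Fin (n i + 1) → ℤ × ℤ)) → Prop) : (Fam n E).Finite := by
  apply Set.Finite.subset (Set.Finite.pi' fun i => finite_walks (n i))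
  intro ω hω
  exact hω.1

theorem av_fw {n n' : ℕ} {a b : W} (ha : a.length = n) (hb : b.length = n') (h : Av a b)
    (s : Fin (n + 1)) (t : Fin (n' + 1)) (he : fw n a s = fw n' b t) : s = 0 ∧ t = 0 := by
  have h1 : V (a.take s) = V (b.take t) := he
  obtain ⟨h2, h3⟩ := h (a.take s) (List.take_prefix _ _) (b.take t) (List.take_prefix _ _)
    (pos_eq_of_V h1)
  have e1 := congrArg List.length h2
  have e2 := congrArg List.length h3
  rw [List.length_take, List.length_nil, ha] at e1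
  rw [List.length_take, List.length_nil, hb] at e2
  have := s.2
  have := t.2
  constructor
  · apply Fin.ext
    simp only [Fin.val_zero]
    omega
  · apply Fin.ext
    simp only [Fin.val_zero]
    omega

/-- families which follow coarse stars -/
theorem star_card {D M k : ℕ} (hD : 1 ≤ D) (hM : 0 < M) (N : Fin k → ℕ)
    (γ : (i : Fin k) → (Fin (N i + 1) → ℤ × ℤ)) (hγ : ∀ i, γ i ∈ walks (N i)) (hav : Avoid γ) :
    ∃ u : Fin k → W, (∀ i, Saw (u i) ∧ (u i).length = N i) ∧ ∏ i, fo D M (u i) ≤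
      (Fam (fun i => M * N i) (fun ω => ∀ i, Follows D M (N i) (γ i) (ω i))).ncard := by
  have hex : ∀ i, ∃ u : W, Saw u ∧ u.length = N i ∧ ∀ s : Fin (N i + 1), V (u.take s) = γ i s :=
    fun i => exists_saw_word (hγ i)
  choose u hu1 hu2 hu3 using hex
  refine ⟨u, fun i => ⟨hu1 i, hu2 i⟩, ?_⟩
  have huav : ∀ i j, i ≠ j → Av (u i) (u j) := by
    intro i j hij v hv v' hv' he
    have l1 : v.length ≤ N i := by rw [← hu2 i]; exact hv.length_le
    have l2 : v'.length ≤ N j := by rw [← hu2 j]; exact hv'.length_le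
    have a1 := hu3 i ⟨v.length, by omega⟩
    have a2 := hu3 j ⟨v'.length, by omega⟩
    simp only at a1 a2
    rw [← List.prefix_iff_eq_take.1 hv] at a1
    rw [← List.prefix_iff_eq_take.1 hv'] at a2
    have a3 : V v = V v' := by
      unfold V X
      rw [he 0, he 1]
    obtain ⟨b1, b2⟩ := hav i j hij _ _ (by rw [← a1, ← a2, a3])
    have c1 := congrArg Fin.val b1
    have c2 := congrArg Fin.val b2
    simp only [Fin.val_zero] at c1 c2
    exact ⟨List.length_eq_zero_iff.1 c1, List.length_eq_zero_iff.1 c2⟩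
  obtain ⟨A, hA⟩ : ∃ A : (i : Fin k) → Set (Fin (M * N i + 1) → ℤ × ℤ), A = fun i =>
    fw (M * N i) '' (fs (Fol D M (u i)) (M * N i) : Set W) := ⟨_, rfl⟩
  have hAc : ∀ i, Nat.card (A i) = fo D M (u i) := by
    intro i
    rw [Nat.card_coe_set_eq, hA]
    simp only
    have hinj : Set.InjOn (fw (M * N i)) (fs (Fol D M (u i)) (M * N i) : Set W) := by
      intro w hw w' hw' h
      rw [Finset.mem_coe, mem_fs] at hw hw'
      exact fw_inj hw.2 hw'.2 h
    rw [hinj.ncard_image, Set.ncard_coe_finset]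
    unfold fo
    rw [hu2 i]
  have hpi : Nat.card ((i : Fin k) → ↥(A i)) = ∏ i, fo D M (u i) := by
    rw [Nat.card_pi]
    exact Finset.prod_congr rfl fun i _ => hAc i
  rw [← hpi, ← Nat.card_coe_set_eq]
  have : Finite ↥(Fam (fun i => M * N i) (fun ω => ∀ i, Follows D M (N i) (γ i) (ω i))) :=
    (fam_finite _ _).to_subtype
  have hAm : ∀ i x, x ∈ A i →
      ∃ w : W, (Fol D M (u i) w ∧ w.length = M * N i) ∧ fw (M * N i) w = x := by
    intro i x hx
    rw [hA] at hx
    obtain ⟨w, hw, he⟩ := hx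
    rw [Finset.mem_coe, mem_fs] at hw
    exact ⟨w, hw, he⟩
  have hmem : ∀ f : (i : Fin k) → ↥(A i), (fun i => (f i).1) ∈
      Fam (fun i => M * N i) (fun ω => ∀ i, Follows D M (N i) (γ i) (ω i)) := by
    intro f
    have hf : ∀ i, ∃ w : W, (Fol D M (u i) w ∧ w.length = M * N i) ∧ fw (M * N i) w = (f i).1 := by
      intro i
      exact hAm i _ (f i).2
    choose w hw1 hw2 using hf
    refine ⟨fun i => ?_, fun i j hij s t he => ?_, fun i => ?_⟩
    · simp only
      rw [← hw2 i]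
      exact fw_mem (hw1 i).1.saw (hw1 i).2
    · simp only at he
      rw [← hw2 i, ← hw2 j] at he
      exact av_fw (hw1 i).2 (hw1 j).2 ((hw1 i).1.av (by exact_mod_cast hD) (hw1 j).1
        (huav i j hij)) s t he
    · simp only
      rw [← hw2 i]
      intro s t h1 h2
      have e1 : ((w i).take t).length = t := by
        rw [List.length_take, (hw1 i).2]
        have := t.2
        omega
      have h3 := ((hw1 i).1.loc ((w i).take t) (List.take_prefix _ _)).near hM (Nat.cast_nonneg D)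
        (i := s) (by rw [e1]; exact h1) (by rw [e1]; exact h2)
      obtain ⟨-, h4, h5⟩ := h3
      rw [e1] at h4
      have e2 : fw (M * N i) (w i) t = (pos ((w i).take t) 1, pos ((w i).take t) 0) := rfl
      have e3 : γ i s = (pos ((u i).take s) 1, pos ((u i).take s) 0) := by rw [← hu3 i s]; rfl
      rw [e2, e3]
      refine ⟨fun h => ?_, h5 1, h5 0⟩
      simp only
      rw [h4 h 0, h4 h 1]
  apply Nat.card_le_card_of_injective
    (fun f : (i : Fin k) → ↥(A i) => (⟨fun i => (f i).1, hmem f⟩ :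
      ↥(Fam (fun i => M * N i) (fun ω => ∀ i, Follows D M (N i) (γ i) (ω i)))))
  intro f g hfg
  simp only [Subtype.mk.injEq] at hfg
  funext i
  exact Subtype.ext (congrFun hfg i)

/-- all walks stay in the box -/
def FBox (r : ℝ) (n : ℕ) (ω : (i : Fin 4) → (Fin (n + 1) → ℤ × ℤ)) : Prop :=
  ∀ i t, |((ω i t).1 : ℝ)| ≤ r ∧ |((ω i t).2 : ℝ)| ≤ r

theorem t4_le (r : ℝ) (n : ℕ) : t4 r n ≤ (Fam (fun _ : Fin 4 => n) (FBox r n)).ncard := by
  classical
  obtain ⟨F, hF⟩ : ∃ F, F = (Fintype.piFinset fun _ : Fin 4 =>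
    fs (fun w => Saw w ∧ Bx r w) n).filter (fun w => ∀ i j, i ≠ j → Av (w i) (w j)) := ⟨_, rfl⟩
  have h0 : t4 r n = F.card := by
    unfold t4
    rw [hF]
  rw [h0, ← Set.ncard_coe_finset]
  apply Set.ncard_le_ncard_of_injOn (fun w => fun i => fw n (w i)) _ _ (fam_finite _ _)
  · intro w hw
    rw [hF, Finset.mem_coe, Finset.mem_filter, Fintype.mem_piFinset] at hw
    obtain ⟨hw, hav⟩ := hw
    refine ⟨fun i => ?_, fun i j hij s t he => ?_, fun i t => ?_⟩
    · have h := mem_fs.1 (hw i)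
      exact fw_mem h.1.1 h.2
    · exact av_fw (mem_fs.1 (hw i)).2 (mem_fs.1 (hw j)).2 (hav i j hij) s t he
    · have h := mem_fs.1 (hw i)
      have h2 := h.1.2 ((w i).take t) (List.take_prefix _ _)
      exact ⟨h2.2, h2.1⟩
  · intro w hw w' hw' h
    rw [hF, Finset.mem_coe, Finset.mem_filter, Fintype.mem_piFinset] at hw hw'
    funext i
    exact fw_inj (mem_fs.1 (hw.1 i)).2 (mem_fs.1 (hw'.1 i)).2 (congrFun h i)

/-- **Four mutually avoiding walks in a small box.** -/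
theorem four_SBP : SBP (fun r n => (t4 r n : ℝ) / (c n : ℝ) ^ 4) := by
  obtain ⟨K0, hK0, hbase⟩ := base
  obtain ⟨Kt, hKt, htr⟩ := transfer_pow 4 hK0.le
  refine ⟨Kt + 8 * K0 + 8 * K0 ^ 2, by positivity, ?_⟩
  intro m hm n r hr1 hr2
  obtain ⟨D, M, hD1, hD2, hM1, hM2, hfo⟩ := hbase m hm
  have hms := ms_pos hm
  have hl2 : 0 < log 2 := Real.log_pos (by norm_num)
  have hlm : log 2 ≤ log (m : ℝ) := Real.log_le_log (by norm_num) (by exact_mod_cast hm)
  have hlm0 : 0 < log (m : ℝ) := by linarith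
  have hm0 : (0 : ℝ) < m := by exact_mod_cast (by omega : 0 < m)
  obtain ⟨y, hy⟩ : ∃ y, y = log (m : ℝ) ^ 2 / ms m := ⟨_, rfl⟩
  rw [← hy] at hD2 hr1 hr2
  have hy0 : 0 < y := by rw [hy]; positivity
  obtain ⟨N, hN⟩ : ∃ N, N = n / M + 1 := ⟨_, rfl⟩
  obtain ⟨k, hk⟩ : ∃ k, k = Nat.sqrt N + 1 := ⟨_, rfl⟩
  have hNk : (n / M) + 1 ≤ k * k := by
    rw [hk, ← hN]
    exact (Nat.lt_succ_sqrt N).le
  obtain ⟨u, hu1, hu2, hu3⟩ := exists_quad hNk
  have hk1 : (1 : ℝ) ≤ k := by rw [hk]; push_cast; linarith [Nat.cast_nonneg (α := ℝ) (Nat.sqrt N)]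
  have hDk : (D : ℝ) * k ≤ r / 2 := by
    apply box_arith (by omega) hM1 hD2 hN hk hK0.le hy0.le
    · have : 0 ≤ (Kt + 8 * K0 ^ 2) * y := by positivity
      linarith
    · have : 0 ≤ (Kt + 8 * K0) * n * y ^ 2 := by positivity
      nlinarith
  have hDk2 : (D : ℝ) * (k + 1 : ℕ) ≤ r := by
    push_cast
    have : (D : ℝ) * 1 ≤ D * k := by gcongr
    linarith
  have h1 := fo_le_t4 hD1 (by omega : 0 < M) hu2 hu3 hDk2
  have h3 : ∀ i : Fin 4, H981.mu ^ (M * (n / M + 1)) *
      exp (-(K0 * ((n / M + 1 : ℕ) : ℝ) * log m ^ 3)) ≤ fo D M (r4 u i) := by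
    intro i
    have := hfo (r4 u i) (r4_saw hu1 i)
    rwa [r4_len, hu2] at this
  have hmu := H981.mu_pos
  have h4 : (H981.mu ^ (M * (n / M + 1)) *
      exp (-(K0 * ((n / M + 1 : ℕ) : ℝ) * log m ^ 3))) ^ 4 ≤ t4 r (M * (n / M + 1)) := by
    have a1 : ∏ _i : Fin 4, (H981.mu ^ (M * (n / M + 1)) *
        exp (-(K0 * ((n / M + 1 : ℕ) : ℝ) * log m ^ 3))) ≤ ∏ i : Fin 4, (fo D M (r4 u i) : ℝ) :=
      Finset.prod_le_prod (fun i _ => by positivity) (fun i _ => h3 i)
    rw [Finset.prod_const, Finset.card_univ, Fintype.card_fin] at a1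
    refine a1.trans ?_
    exact_mod_cast h1
  have h5 := htr m M hm hM1 hM2 (t4 r) (t4_add r) n h4
  have hc : (0 : ℝ) < (c n : ℝ) ^ 4 := by
    have : 0 < c n := by
      rw [← Pool.Agent.H122R3.SX.ncard_walks, Set.ncard_pos (finite_walks n)]
      refine ⟨fun i => ((i : ℕ), 0), rfl, ?_, ?_⟩
      · intro i j hij
        simp only [Prod.mk.injEq, and_true] at hij
        exact Fin.ext (by exact_mod_cast hij)
      · intro i
        unfold Adj
        simp
    have : (0 : ℝ) < c n := by exact_mod_cast this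
    positivity
  show exp (-((Kt + 8 * K0 + 8 * K0 ^ 2) * (1 + n / m) * log m ^ 3)) ≤
    (t4 r n : ℝ) / (c n : ℝ) ^ 4
  rw [le_div_iff₀ hc]
  refine le_trans ?_ h5
  apply mul_le_mul_of_nonneg_right _ hc.le
  apply Real.exp_le_exp.2
  have : 0 ≤ (8 * K0 + 8 * K0 ^ 2) * (1 + n / m) * log m ^ 3 := by positivity
  linarith

end Pool.Agent.H315.SAW
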