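import Pool.Agent.H315.SAW.Speed
import Pool.Agent.H315.SAW.Narrow
import Pool.Agent.Y981.L2.Area1

/-!
Self-avoiding polygons of bounded width: heights and areas.
-/

set_option autoImplicit false

namespace Pool.Agent.H315.SAW

open Filter Topology
open Real (exp log)
open H981 (St path)

/-- polygons of perimeter `2 n` and width at most `k` -/
def Nar (k n : ℕ) : Set (ZMod (2 * n) → ℤ × ℤ) :=
  {f | IsLoop (2 * n) f ∧ ∀ i j, |(f i).1 - (f j).1| ≤ k}

/-- polygons of perimeter `2 n` and height at least `r` -/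
def Tall (r : ℝ) (n : ℕ) : Set (ZMod (2 * n) → ℤ × ℤ) :=
  {f | IsLoop (2 * n) f ∧ ∃ i j, r ≤ |(((f i).2 - (f j).2 : ℤ) : ℝ)|}

theorem loops_finite (n : ℕ) (hn : 1 ≤ n) : {f | IsLoop (2 * n) f}.Finite :=
  (loops_bound (L := 2 * n) (by omega)).1

theorem tall_card {n : ℕ} (hn : 1 ≤ n) (r : ℝ) : (Tall r n).ncard ≤
    (Pool.Agent.TH795.EP.fs (fun w => H981.Saw w ∧ Y981.L2.Wide r w) (2 * n - 1)).card := by
  have : NeZero (2 * n) := ⟨by omega⟩
  have hsub : Tall r n ⊆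
      (fun (w : List St) => fun i : ZMod (2 * n) => path w i.val) ''
        (Pool.Agent.TH795.EP.fs (fun w => H981.Saw w ∧ Y981.L2.Wide r w) (2 * n - 1) :
          Set (List St)) := by
    rintro f ⟨⟨h0, h1, h2⟩, i, j, hij⟩
    have hg : H981.IsLoop (2 * n) f := ⟨h0, h1, h2⟩
    obtain ⟨w, w1, w2, w3⟩ := Y981.L2.loop_word (by omega) hg 0
    have w4 : ∀ j : ℕ, j < 2 * n → path w j = f (j : ZMod (2 * n)) := by
      intro j hj
      have := w3 j hj
      simp only [zero_add, h0] at this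
      rw [this]
      simp
    have w5 : ∀ i : ZMod (2 * n), path w i.val = f i := by
      intro i
      rw [w4 _ (ZMod.val_lt i), ZMod.natCast_zmod_val]
    refine ⟨w, ?_, ?_⟩
    · rw [Finset.mem_coe, Pool.Agent.TH795.EP.mem_fs]
      refine ⟨⟨w1, ?_⟩, w2⟩
      have key : ∀ a b : ZMod (2 * n), r ≤ |(((f a).2 - (f b).2 : ℤ) : ℝ)| →
          r ≤ Y981.L2.ln2 ((path w a.val).1 - (path w b.val).1,
            (path w a.val).2 - (path w b.val).2) := by
        intro a b hab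
        rw [w5, w5]
        refine hab.trans ?_
        unfold Y981.L2.ln2
        apply Real.abs_le_sqrt
        simp only
        have := sq_nonneg (((f a).1 - (f b).1 : ℤ) : ℝ)
        linarith
      have hi := ZMod.val_lt i
      have hj := ZMod.val_lt j
      rcases Nat.le_total j.val i.val with h | h
      · exact ⟨j.val, i.val, h, by omega, key i j hij⟩
      · refine ⟨i.val, j.val, h, by omega, key j i ?_⟩
        have e : (((f j).2 - (f i).2 : ℤ) : ℝ) = -(((f i).2 - (f j).2 : ℤ) : ℝ) := by push_cast; ring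
        rw [e, abs_neg]
        exact hij
    · funext i
      exact w5 i
  refine (Set.ncard_le_ncard hsub ((Finset.finite_toSet _).image _)).trans ?_
  refine (Set.ncard_image_le (Finset.finite_toSet _)).trans ?_
  rw [Set.ncard_coe_finset]

theorem tall_upper : ∃ K : ℝ, 0 ≤ K ∧ ∀ n : ℕ, 2 ≤ n → ∀ m : ℕ, 2 ≤ m → ∀ r : ℝ, 0 ≤ r →
    ((Tall r n).ncard : ℝ) ≤ H981.mu ^ (2 * n) * exp (K * log n ^ 2 + 2 * n / m - r * ms m / 4) := by
  obtain ⟨K1, hK1, hfar⟩ := dfar_all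
  obtain ⟨K2, hK2, hup, -⟩ := exists_C
  refine ⟨4 * (K1 + K2), by positivity, ?_⟩
  intro n hn m hm r hr
  have hmu := H981.mu_pos
  have hms := ms_pos hm
  have hm0 : (0 : ℝ) < m := by exact_mod_cast (by omega : 0 < m)
  have hn0 : (0 : ℝ) < n := by exact_mod_cast (by omega : 0 < n)
  have h1 := hfar (2 * n - 1) (by omega) m hm r hr
  have h2 := hup (2 * n - 1) (by omega) (2 * n - 1) le_rfl
  have hc := Pool.Agent.TH795.EP2.c_pos (2 * n - 1)
  have h3 : ((Tall r n).ncard : ℝ) ≤ Y981.L2.dfar (2 * n - 1) r * Pool.Agent.TH795.EP.c (2 * n - 1) := by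
    unfold Y981.L2.dfar
    rw [div_mul_cancel₀ _ hc.ne']
    exact_mod_cast tall_card (by omega) r
  have hlog : log (((2 * n - 1 : ℕ)) : ℝ) ^ 2 ≤ 4 * log n ^ 2 := by
    have a1 : (((2 * n - 1 : ℕ)) : ℝ) ≤ n ^ 2 := by
      have : 2 * n - 1 ≤ n ^ 2 := by
        have : 2 * n ≤ n ^ 2 := by nlinarith
        omega
      exact_mod_cast this
    have a2 : (0 : ℝ) < ((2 * n - 1 : ℕ) : ℝ) := by exact_mod_cast (by omega : 0 < 2 * n - 1)
    have a3 := Real.log_le_log a2 a1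
    rw [Real.log_pow] at a3
    push_cast at a3
    have a4 : 0 ≤ log (((2 * n - 1 : ℕ)) : ℝ) := Real.log_natCast_nonneg _
    calc log (((2 * n - 1 : ℕ)) : ℝ) ^ 2 ≤ (2 * log n) ^ 2 := pow_le_pow_left₀ a4 a3 2
      _ = _ := by ring
  have hnm : (((2 * n - 1 : ℕ)) : ℝ) / m ≤ 2 * n / m := by
    apply div_le_div_of_nonneg_right _ hm0.le
    have : (((2 * n - 1 : ℕ)) : ℝ) ≤ ((2 * n : ℕ) : ℝ) := by exact_mod_cast Nat.sub_le _ _
    push_cast at this
    exact this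
  have hpw : H981.mu ^ (2 * n - 1) ≤ H981.mu ^ (2 * n) :=
    pow_le_pow_right₀ Pool.Agent.V11237.SXT.exists_Bd.choose_spec.one (Nat.sub_le _ _)
  calc ((Tall r n).ncard : ℝ) ≤ Y981.L2.dfar (2 * n - 1) r * Pool.Agent.TH795.EP.c (2 * n - 1) := h3
    _ ≤ exp (K1 * log ((2 * n - 1 : ℕ) : ℝ) ^ 2 + ((2 * n - 1 : ℕ) : ℝ) / m - r * ms m / 4) *
        (H981.mu ^ (2 * n - 1) * Pool.Agent.TH795.EP2.q (2 * n - 1) K2) := by
        apply mul_le_mul h1 h2 hc.le (Real.exp_pos _).le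
    _ = H981.mu ^ (2 * n - 1) * exp (K1 * log ((2 * n - 1 : ℕ) : ℝ) ^ 2 +
        ((2 * n - 1 : ℕ) : ℝ) / m - r * ms m / 4 + K2 * log ((2 * n - 1 : ℕ) : ℝ) ^ 2) := by
        unfold Pool.Agent.TH795.EP2.q
        rw [Real.exp_add _ (K2 * log ((2 * n - 1 : ℕ) : ℝ) ^ 2)]
        ring
    _ ≤ _ := by
        apply mul_le_mul hpw _ (Real.exp_pos _).le (by positivity)
        apply Real.exp_le_exp.2
        have b1 : K1 * log ((2 * n - 1 : ℕ) : ℝ) ^ 2 ≤ K1 * (4 * log n ^ 2) := by gcongr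
        have b2 : K2 * log ((2 * n - 1 : ℕ) : ℝ) ^ 2 ≤ K2 * (4 * log n ^ 2) := by gcongr
        linarith

/-- **Tall polygons are rare among the narrow ones.** -/
theorem tall_narrow : ∃ K : ℝ, 0 < K ∧ ∀ m : ℕ, 2 ≤ m → ∃ M : ℕ, 2 * m ≤ M ∧ M ≤ 300 * m ^ 2 ∧
    ∀ k : ℕ, K * (log m ^ 2 / ms m) ≤ k → ∀ N n : ℕ, 2 ≤ N → n = M * N → ∀ r : ℝ,
    K * (n / m) * (log m ^ 3 / ms m) ≤ r → 0 < (Nar k n).ncard ∧
    ((Tall r n).ncard : ℝ) ≤ exp (-(1 / log 2 ^ 2 * log m ^ 3)) * (Nar k n).ncard := by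
  obtain ⟨K1, hK1, hpoly⟩ := poly_main
  obtain ⟨K2, hK2, hlow⟩ := loops_low
  obtain ⟨K3, hK3, htall⟩ := tall_upper
  have hl2 : 0 < log 2 := Real.log_pos (by norm_num)
  obtain ⟨Kf, hKf⟩ : ∃ Kf, Kf = 4 * ((K2 + K3) * (2 * (2 + 8 / log 2 ^ 2) / log 2) +
    2 / log 2 ^ 3 + K1 + 1 / log 2 ^ 2) + 3 * K1 := ⟨_, rfl⟩
  refine ⟨Kf, by rw [hKf]; positivity, ?_⟩
  intro m hm
  obtain ⟨D, M, hD1, hD2, hM1, hM2, hP⟩ := hpoly m hm
  refine ⟨M, hM1, hM2, ?_⟩
  intro k hk N n hN hn r hr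
  have hmu := H981.mu_pos
  have hms := ms_pos hm
  have hlm : log 2 ≤ log (m : ℝ) := Real.log_le_log (by norm_num) (by exact_mod_cast hm)
  have hlm0 : 0 < log (m : ℝ) := by linarith
  have hm0 : (0 : ℝ) < m := by exact_mod_cast (by omega : 0 < m)
  have hn2 : 2 ≤ n := by rw [hn]; nlinarith
  have hn0 : (0 : ℝ) < n := by exact_mod_cast (by omega : 0 < n)
  obtain ⟨z, hz⟩ : ∃ z, z = (n : ℝ) / m := ⟨_, rfl⟩
  have hz1 : 1 ≤ z := by
    rw [hz, le_div_iff₀ hm0, one_mul]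
    have : m ≤ n := by rw [hn]; nlinarith
    exact_mod_cast this
  have hNz : 2 * (N : ℝ) ≤ z := by
    rw [hz, le_div_iff₀ hm0]
    have : 2 * N * m ≤ n := by rw [hn]; nlinarith
    exact_mod_cast this
  -- the narrow polygons
  have hL2 : M * (2 * N) = 2 * n := by rw [hn]; ring
  obtain ⟨-, b1⟩ := hP (2 * N) (rc N) (by omega) (rc_loop hN)
  have hDk : 3 * D ≤ k := by
    have : 3 * (D : ℝ) ≤ k := by
      refine le_trans ?_ hk
      obtain ⟨y, hy⟩ : ∃ y, y = log (m : ℝ) ^ 2 / ms m := ⟨_, rfl⟩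
      rw [← hy] at hD2 ⊢
      have hy0 : 0 < y := by rw [hy]; positivity
      rw [hKf]
      have : 0 ≤ 4 * ((K2 + K3) * (2 * (2 + 8 / log 2 ^ 2) / log 2) +
        2 / log 2 ^ 3 + K1 + 1 / log 2 ^ 2) * y := by positivity
      linarith
    exact_mod_cast this
  have hsub : {f | IsLoop (M * (2 * N)) f ∧ FollowsC D M (2 * N) (rc N) f} ⊆
      {f : ZMod (M * (2 * N)) → ℤ × ℤ | IsLoop (M * (2 * N)) f ∧
        ∀ i j, |(f i).1 - (f j).1| ≤ k} := by
    rintro f ⟨hf1, hf2⟩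
    refine ⟨hf1, fun i j => ?_⟩
    have c1 := rc_box (by omega) hN hf2
    have d1 := c1 i
    have d2 := c1 j
    have d3 : 3 * (D : ℤ) ≤ k := by exact_mod_cast hDk
    rw [abs_le]
    constructor <;> linarith [d1.1, d1.2.1, d2.1, d2.2.1]
  have hfin := (loops_bound (L := M * (2 * N)) (by nlinarith)).1
  have h3 : exp (-(K1 * (2 * N : ℕ) * log m ^ 3)) * ({f | IsLoop (2 * n) f}.ncard : ℝ) ≤
      (Nar k n).ncard := by
    have h4 := Set.ncard_le_ncard hsub (hfin.subset fun f h => h.1)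
    have h5 := b1.trans (by exact_mod_cast h4 :
      ({f | IsLoop (M * (2 * N)) f ∧ FollowsC D M (2 * N) (rc N) f}.ncard : ℝ) ≤
      ({f : ZMod (M * (2 * N)) → ℤ × ℤ | IsLoop (M * (2 * N)) f ∧
        ∀ i j, |(f i).1 - (f j).1| ≤ k}.ncard : ℝ))
    unfold Nar
    rw [hL2] at h5
    exact h5
  have h4 := hlow n hn2
  have h6 : H981.mu ^ (2 * n) * exp (-(K2 * log n ^ 2) - K1 * z * log m ^ 3) ≤
      (Nar k n).ncard := by
    refine le_trans ?_ h3
    calc H981.mu ^ (2 * n) * exp (-(K2 * log n ^ 2) - K1 * z * log m ^ 3)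
        ≤ exp (-(K1 * (2 * N : ℕ) * log m ^ 3)) * (H981.mu ^ (2 * n) * exp (-(K2 * log n ^ 2))) := by
          have e : exp (-(K1 * (2 * N : ℕ) * log m ^ 3)) *
              (H981.mu ^ (2 * n) * exp (-(K2 * log n ^ 2))) = H981.mu ^ (2 * n) *
              exp (-(K1 * (2 * N : ℕ) * log m ^ 3) + -(K2 * log n ^ 2)) := by
            rw [Real.exp_add]; ring
          rw [e]
          apply mul_le_mul_of_nonneg_left _ (by positivity)
          apply Real.exp_le_exp.2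
          push_cast
          have : K1 * (2 * N) * log m ^ 3 ≤ K1 * z * log m ^ 3 := by gcongr
          linarith
      _ ≤ _ := by gcongr
  have h7 : (0 : ℝ) < (Nar k n).ncard := lt_of_lt_of_le (by positivity) h6
  refine ⟨by exact_mod_cast h7, ?_⟩
  have hr0 : 0 ≤ r := by
    refine le_trans ?_ hr
    have : 0 ≤ Kf := by rw [hKf]; positivity
    positivity
  have h8 := htall n hn2 m hm r hr0
  have h9 := log_sq_nm hn2 hm
  rw [← hz] at h9 hr
  obtain ⟨Q, hQ⟩ : ∃ Q, Q = log (m : ℝ) ^ 2 := ⟨_, rfl⟩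
  obtain ⟨C3, hC3⟩ : ∃ C3, C3 = log (m : ℝ) ^ 3 := ⟨_, rfl⟩
  have hQ0 : 0 < Q := by rw [hQ]; positivity
  have hC30 : 0 < C3 := by rw [hC3]; positivity
  have hQ3 : Q ≤ 1 / log 2 * C3 := by
    rw [hQ, hC3, one_div, ← div_eq_inv_mul, le_div_iff₀ hl2]
    have : log (m : ℝ) ^ 3 = log m ^ 2 * log m := by ring
    rw [this]
    gcongr
  have h1C : 1 ≤ 1 / log 2 ^ 3 * C3 := by
    rw [hC3, one_div, ← div_eq_inv_mul, le_div_iff₀ (by positivity), one_mul]
    exact pow_le_pow_left₀ hl2.le hlm 3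
  rw [← hQ] at h9
  rw [← hC3] at h6 hr ⊢
  have h10 : log (n : ℝ) ^ 2 ≤ 2 * (2 + 8 / log 2 ^ 2) / log 2 * (z * C3) := by
    calc log (n : ℝ) ^ 2 ≤ (2 + 8 / log 2 ^ 2) * (1 + z) * Q := h9
      _ ≤ (2 + 8 / log 2 ^ 2) * (2 * z) * (1 / log 2 * C3) := by
          gcongr
          linarith
      _ = _ := by ring
  have hrm : Kf * z * C3 ≤ r * ms m := by
    have := mul_le_mul_of_nonneg_right hr hms.le
    have e : Kf * z * (C3 / ms m) * ms m = Kf * z * C3 := by field_simp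
    linarith
  calc ((Tall r n).ncard : ℝ)
      ≤ H981.mu ^ (2 * n) * exp (K3 * log n ^ 2 + 2 * n / m - r * ms m / 4) := h8
    _ ≤ H981.mu ^ (2 * n) * (exp (-(1 / log 2 ^ 2 * C3)) *
        exp (-(K2 * log n ^ 2) - K1 * z * C3)) := by
        apply mul_le_mul_of_nonneg_left _ (by positivity)
        rw [← Real.exp_add]
        apply Real.exp_le_exp.2
        have a1 : (K2 + K3) * log n ^ 2 ≤
            (K2 + K3) * (2 * (2 + 8 / log 2 ^ 2) / log 2 * (z * C3)) := by gcongr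
        have a2 : 2 * (n : ℝ) / m ≤ 2 / log 2 ^ 3 * (z * C3) := by
          have e : 2 * (n : ℝ) / m = 2 * z := by rw [hz]; ring
          rw [e]
          calc 2 * z = 2 * z * 1 := by ring
            _ ≤ 2 * z * (1 / log 2 ^ 3 * C3) := by gcongr
            _ = _ := by ring
        have a3 : 1 / log 2 ^ 2 * C3 ≤ 1 / log 2 ^ 2 * (z * C3) := by
          apply mul_le_mul_of_nonneg_left _ (by positivity)
          nlinarith
        have a4 : Kf * z * C3 = 4 * ((K2 + K3) * (2 * (2 + 8 / log 2 ^ 2) / log 2 * (z * C3)) +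
          2 / log 2 ^ 3 * (z * C3) + K1 * z * C3 + 1 / log 2 ^ 2 * (z * C3)) +
          3 * K1 * (z * C3) := by
          rw [hKf]; ring
        have a5 : 0 ≤ 3 * K1 * (z * C3) := by positivity
        linarith
    _ = exp (-(1 / log 2 ^ 2 * C3)) * (H981.mu ^ (2 * n) *
        exp (-(K2 * log n ^ 2) - K1 * z * C3)) := by ring
    _ ≤ _ := by gcongr

theorem area_wh {L : ℕ} (hL : 1 ≤ L) {f : ZMod L → ℤ × ℤ}
    (hs : ∀ i : ZMod L, |(f (i + 1)).1 - (f i).1| + |(f (i + 1)).2 - (f i).2| = 1) {k H : ℕ}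
    (hk : ∀ i j, |(f i).1 - (f j).1| ≤ k) (hH : ∀ i j, |(f i).2 - (f j).2| ≤ H) :
    Y981.L2.area L f ≤ k * H := by
  have : NeZero L := ⟨by omega⟩
  obtain ⟨i0, h0⟩ := Finite.exists_min (fun i : ZMod L => (f i).1)
  obtain ⟨j0, h1⟩ := Finite.exists_min (fun i : ZMod L => (f i).2)
  have h := Y981.L2.area_le_box (f := f) hs (x0 := (f i0).1) (x1 := (f i0).1 + k)
    (y0 := (f j0).2) (y1 := (f j0).2 + H)
    (fun i => by
      have a1 := h0 i
      have a2 := hk i i0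
      rw [abs_le] at a2
      exact ⟨a1, by linarith [a2.2]⟩)
    (fun i => by
      have a1 := h1 i
      have a2 := hH i j0
      rw [abs_le] at a2
      exact ⟨a1, by linarith [a2.2]⟩)
  have e1 : ((f i0).1 + (k : ℤ) - (f i0).1).toNat = k := by omega
  have e2 : ((f j0).2 + (H : ℤ) - (f j0).2).toNat = H := by omega
  rwa [e1, e2] at h

theorem height_le {n : ℕ} (hn : 1 ≤ n) {f : ZMod (2 * n) → ℤ × ℤ} (hf : IsLoop (2 * n) f)
    (i j : ZMod (2 * n)) : |(f i).2 - (f j).2| ≤ (2 * n : ℕ) := by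
  have : NeZero (2 * n) := ⟨by omega⟩
  obtain ⟨w, w1, w2, w3⟩ := Y981.L2.loop_word (by omega) (f := f) ⟨hf.1, hf.2.1, hf.2.2⟩ j
  have h1 := w3 (i - j).val (ZMod.val_lt _)
  rw [ZMod.natCast_zmod_val] at h1
  have e : j + (i - j) = i := by ring
  rw [e] at h1
  have h2 := abs_dy_le (w.take (i - j).val)
  have h3 : (path w (i - j).val).2 = H981.dy (w.take (i - j).val) := rfl
  rw [h1] at h3
  simp only at h3
  rw [h3]
  refine h2.trans ?_
  have h4 : (w.take (i - j).val).length ≤ 2 * n := by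
    rw [List.length_take]
    have := ZMod.val_lt (i - j)
    omega
  exact_mod_cast h4

/-- **The mean area of the narrow polygons.** -/
theorem mean_narrow : ∃ K : ℝ, 0 < K ∧ ∀ m : ℕ, 2 ≤ m → ∃ M : ℕ, 2 * m ≤ M ∧ M ≤ 300 * m ^ 2 ∧
    ∀ k : ℕ, K * (log m ^ 2 / ms m) ≤ k → ∀ N n : ℕ, 2 ≤ N → n = M * N → 0 < (Nar k n).ncard ∧
    (∑ᶠ f ∈ Nar k n, (Y981.L2.area (2 * n) f : ℝ)) ≤
      K * k * (n / m) * (log m ^ 3 / ms m) * (Nar k n).ncard := by
  classical
  obtain ⟨K, hK, h⟩ := tall_narrow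
  obtain ⟨B, hB1, hBm⟩ := ms_le
  have hl2 : 0 < log 2 := Real.log_pos (by norm_num)
  refine ⟨K + 4 * B / log 2 ^ 3, by positivity, ?_⟩
  intro m hm
  obtain ⟨M, hM1, hM2, h1⟩ := h m hm
  refine ⟨M, hM1, hM2, ?_⟩
  intro k hk N n hN hn
  have hms := ms_pos hm
  have hlm : log 2 ≤ log (m : ℝ) := Real.log_le_log (by norm_num) (by exact_mod_cast hm)
  have hlm0 : 0 < log (m : ℝ) := by linarith
  have hm0 : (0 : ℝ) < m := by exact_mod_cast (by omega : 0 < m)
  have hn2 : 2 ≤ n := by rw [hn]; nlinarith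
  have hn0 : (0 : ℝ) < n := by exact_mod_cast (by omega : 0 < n)
  obtain ⟨r, hr⟩ : ∃ r, r = K * (n / m) * (log m ^ 3 / ms m) := ⟨_, rfl⟩
  have hr0 : 0 ≤ r := by rw [hr]; positivity
  obtain ⟨h2, h3⟩ := h1 k (by
    refine le_trans (mul_le_mul_of_nonneg_right ?_ (by positivity)) hk
    have : 0 ≤ 4 * B / log 2 ^ 3 := by positivity
    linarith) N n hN hn r hr.symm.le
  refine ⟨h2, ?_⟩
  have hfl := loops_finite n (by omega)
  have hfin : (Nar k n).Finite := hfl.subset fun f h => h.1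
  rw [finsum_mem_eq_finite_toFinset_sum _ hfin]
  have hcard : (hfin.toFinset.card : ℝ) = (Nar k n).ncard := by
    rw [Set.ncard_eq_toFinset_card _ hfin]
  have hpt : ∀ f ∈ hfin.toFinset, (Y981.L2.area (2 * n) f : ℝ) ≤
      k * r + if f ∈ Tall r n then (k : ℝ) * (2 * n) else 0 := by
    intro f hf
    rw [Set.Finite.mem_toFinset] at hf
    obtain ⟨hf1, hf2⟩ := hf
    by_cases ht : f ∈ Tall r n
    · rw [if_pos ht]
      have a1 := area_wh (by omega) hf1.2.2 hf2 (height_le (by omega) hf1)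
      have a2 : (Y981.L2.area (2 * n) f : ℝ) ≤ k * (2 * n) := by exact_mod_cast a1
      have a3 : 0 ≤ (k : ℝ) * r := by positivity
      linarith
    · rw [if_neg ht, add_zero]
      have a1 := area_wh (by omega) (k := k) (H := ⌊r⌋₊) hf1.2.2 hf2 (fun i j => by
        have b1 : |(((f i).2 - (f j).2 : ℤ) : ℝ)| < r := by
          by_contra hcon
          push Not at hcon
          exact ht ⟨hf1, i, j, hcon⟩
        have b2 : |(f i).2 - (f j).2| ≤ ⌊r⌋ := by
          rw [Int.le_floor]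
          push_cast at b1 ⊢
          exact b1.le
        have b3 : (⌊r⌋ : ℤ) = (⌊r⌋₊ : ℕ) := (Int.natCast_floor_eq_floor hr0).symm
        rwa [b3] at b2)
      have a2 : (Y981.L2.area (2 * n) f : ℝ) ≤ k * (⌊r⌋₊ : ℝ) := by exact_mod_cast a1
      refine a2.trans ?_
      gcongr
      exact Nat.floor_le hr0
  have hft : (Tall r n).Finite := hfl.subset fun f h => h.1
  have hfilter : ((hfin.toFinset.filter fun f => f ∈ Tall r n).card : ℝ) ≤ (Tall r n).ncard := by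
    rw [Set.ncard_eq_toFinset_card _ hft]
    exact_mod_cast Finset.card_le_card (fun f hf => by
      rw [Finset.mem_filter] at hf
      rw [Set.Finite.mem_toFinset]
      exact hf.2)
  have hNpos : (0 : ℝ) < (Nar k n).ncard := by exact_mod_cast h2
  have hm1 : (m : ℝ) * exp (-(1 / log 2 ^ 2 * log m ^ 3)) ≤ 1 := by
    have a1 : (m : ℝ) = exp (log m) := (Real.exp_log hm0).symm
    have a2 : log (m : ℝ) ≤ 1 / log 2 ^ 2 * log m ^ 3 := by
      rw [one_div, ← div_eq_inv_mul, le_div_iff₀ (by positivity)]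
      have : log (m : ℝ) ^ 3 = log m * log m ^ 2 := by ring
      rw [this]
      gcongr
    calc (m : ℝ) * exp (-(1 / log 2 ^ 2 * log m ^ 3)) =
          exp (log m + -(1 / log 2 ^ 2 * log m ^ 3)) := by rw [Real.exp_add, ← a1]
      _ ≤ 1 := by
        apply Real.exp_le_one_iff.2
        linarith
  have h5 : 1 ≤ B / log 2 ^ 3 * (log m ^ 3 / ms m) := by
    rw [div_mul_div_comm, le_div_iff₀ (by positivity), one_mul]
    have a1 := hBm m hm
    have a2 : log 2 ^ 3 ≤ log (m : ℝ) ^ 3 := pow_le_pow_left₀ hl2.le hlm 3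
    calc log 2 ^ 3 * ms m ≤ log (m : ℝ) ^ 3 * B := by gcongr
      _ = _ := by ring
  calc ∑ f ∈ hfin.toFinset, (Y981.L2.area (2 * n) f : ℝ)
      ≤ ∑ f ∈ hfin.toFinset, (k * r + if f ∈ Tall r n then (k : ℝ) * (2 * n) else 0) :=
        Finset.sum_le_sum hpt
    _ = (Nar k n).ncard * (k * r) +
        (hfin.toFinset.filter fun f => f ∈ Tall r n).card * ((k : ℝ) * (2 * n)) := by
        rw [Finset.sum_add_distrib, Finset.sum_const, nsmul_eq_mul, hcard,
          ← Finset.sum_filter, Finset.sum_const, nsmul_eq_mul]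
    _ ≤ (Nar k n).ncard * (k * r) +
        (exp (-(1 / log 2 ^ 2 * log m ^ 3)) * (Nar k n).ncard) * ((k : ℝ) * (2 * n)) := by
        have := hfilter.trans h3
        gcongr
    _ = (Nar k n).ncard * (k * r) +
        (Nar k n).ncard * (k * (2 * (n / m))) * (m * exp (-(1 / log 2 ^ 2 * log m ^ 3))) := by
        field_simp
    _ ≤ (Nar k n).ncard * (k * r) + (Nar k n).ncard * (k * (2 * (n / m))) * 1 := by gcongr
    _ ≤ (Nar k n).ncard * (k * r) + (Nar k n).ncard * (k * (2 * (n / m))) *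
        (B / log 2 ^ 3 * (log m ^ 3 / ms m)) := by gcongr
    _ ≤ _ := by
        rw [hr]
        have : 0 ≤ 2 * B / log 2 ^ 3 * ((k : ℝ) * (n / m) * (log m ^ 3 / ms m) *
          (Nar k n).ncard) := by positivity
        have e : (K + 4 * B / log 2 ^ 3) * k * (n / m) * (log m ^ 3 / ms m) * (Nar k n).ncard =
          (Nar k n).ncard * (k * (K * (n / m) * (log m ^ 3 / ms m))) +
          (Nar k n).ncard * (k * (2 * (n / m))) * (B / log 2 ^ 3 * (log m ^ 3 / ms m)) +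
          2 * B / log 2 ^ 3 * ((k : ℝ) * (n / m) * (log m ^ 3 / ms m) * (Nar k n).ncard) := by
          ring
        rw [e]
        linarith

end Pool.Agent.H315.SAW
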